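import Pool.Agent.P.MP_467c2e_gt.Defs

/-! The polarised Pfaffian on the orthogonal complement of a vector in `R^7`. -/

open Matrix Equiv

namespace Pool.Agent.P.MP_467c2e_gt

abbrev M7 : Type := Matrix (Fin 7) (Fin 7) ℝ

/-- The sign of a permutation as a real number. -/
def sg {n : ℕ} (σ : Perm (Fin n)) : ℝ := ((Perm.sign σ : ℤ) : ℝ)

lemma sg_mul {n : ℕ} (σ τ : Perm (Fin n)) : sg (σ * τ) = sg σ * sg τ := by simp [sg]

/-- The polarised Pfaffian. -/
def Pi3 (f : V 7) (a b c : M7) : ℝ :=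
  ∑ σ : Perm (Fin 7), sg σ * (f (σ 0) * a (σ 1) (σ 2) * b (σ 3) (σ 4) * c (σ 5) (σ 6))

lemma Pi3_add0 (f g : V 7) (a b c : M7) : Pi3 (f + g) a b c = Pi3 f a b c + Pi3 g a b c := by
  simp only [Pi3, ← Finset.sum_add_distrib, Pi.add_apply]
  exact Finset.sum_congr rfl fun _ _ => by ring
lemma Pi3_add1 (f : V 7) (a a' b c : M7) : Pi3 f (a + a') b c = Pi3 f a b c + Pi3 f a' b c := by
  simp only [Pi3, ← Finset.sum_add_distrib, Matrix.add_apply]
  exact Finset.sum_congr rfl fun _ _ => by ring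
lemma Pi3_add2 (f : V 7) (a b b' c : M7) : Pi3 f a (b + b') c = Pi3 f a b c + Pi3 f a b' c := by
  simp only [Pi3, ← Finset.sum_add_distrib, Matrix.add_apply]
  exact Finset.sum_congr rfl fun _ _ => by ring
lemma Pi3_add3 (f : V 7) (a b c c' : M7) : Pi3 f a b (c + c') = Pi3 f a b c + Pi3 f a b c' := by
  simp only [Pi3, ← Finset.sum_add_distrib, Matrix.add_apply]
  exact Finset.sum_congr rfl fun _ _ => by ring
lemma Pi3_smul0 (t : ℝ) (f : V 7) (a b c : M7) : Pi3 (t • f) a b c = t * Pi3 f a b c := by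
  simp only [Pi3, Finset.mul_sum, Pi.smul_apply, smul_eq_mul]
  exact Finset.sum_congr rfl fun _ _ => by ring
lemma Pi3_smul1 (t : ℝ) (f : V 7) (a b c : M7) : Pi3 f (t • a) b c = t * Pi3 f a b c := by
  simp only [Pi3, Finset.mul_sum, Matrix.smul_apply, smul_eq_mul]
  exact Finset.sum_congr rfl fun _ _ => by ring
lemma Pi3_smul2 (t : ℝ) (f : V 7) (a b c : M7) : Pi3 f a (t • b) c = t * Pi3 f a b c := by
  simp only [Pi3, Finset.mul_sum, Matrix.smul_apply, smul_eq_mul]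
  exact Finset.sum_congr rfl fun _ _ => by ring
lemma Pi3_smul3 (t : ℝ) (f : V 7) (a b c : M7) : Pi3 f a b (t • c) = t * Pi3 f a b c := by
  simp only [Pi3, Finset.mul_sum, Matrix.smul_apply, smul_eq_mul]
  exact Finset.sum_congr rfl fun _ _ => by ring
lemma Pi3_zero1 (f : V 7) (b c : M7) : Pi3 f 0 b c = 0 := by simp [Pi3]
lemma Pi3_zero2 (f : V 7) (a c : M7) : Pi3 f a 0 c = 0 := by simp [Pi3]
lemma Pi3_zero3 (f : V 7) (a b : M7) : Pi3 f a b 0 = 0 := by simp [Pi3]
lemma Pi3_neg0 (f : V 7) (a b c : M7) : Pi3 (-f) a b c = -Pi3 f a b c := by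
  simpa using Pi3_smul0 (-1) f a b c
lemma Pi3_neg1 (f : V 7) (a b c : M7) : Pi3 f (-a) b c = -Pi3 f a b c := by
  simpa using Pi3_smul1 (-1) f a b c
lemma Pi3_neg2 (f : V 7) (a b c : M7) : Pi3 f a (-b) c = -Pi3 f a b c := by
  simpa using Pi3_smul2 (-1) f a b c
lemma Pi3_neg3 (f : V 7) (a b c : M7) : Pi3 f a b (-c) = -Pi3 f a b c := by
  simpa using Pi3_smul3 (-1) f a b c

lemma Pi3_vec (f x1 x2 x3 x4 x5 x6 : V 7) :
    Pi3 f (vecMulVec x1 x2) (vecMulVec x3 x4) (vecMulVec x5 x6) =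
      (Matrix.of ![f, x1, x2, x3, x4, x5, x6]).det := by
  rw [← Matrix.det_transpose, Matrix.det_apply', Pi3]
  refine Finset.sum_congr rfl fun σ _ => ?_
  simp only [sg, Fin.prod_univ_seven, vecMulVec_apply, Matrix.transpose_apply, Matrix.of_apply]
  simp only [Matrix.cons_val]
  ring

lemma mat_ind {P : M7 → Prop} (hadd : ∀ a b, P a → P b → P (a + b))
    (hv : ∀ x y, P (vecMulVec x y)) (a : M7) : P a := by
  refine Matrix.induction_on a hadd fun i j x => ?_
  have : Matrix.single i j x = vecMulVec (Pi.single i x) (Pi.single j 1) := by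
    ext k l
    by_cases h1 : i = k <;> by_cases h2 : j = l <;>
      simp [Matrix.single, vecMulVec_apply, h1, h2, eq_comm]
  rw [this]
  exact hv _ _

lemma conj_vec (P : M7) (x y : V 7) : P * vecMulVec x y * Pᵀ = vecMulVec (P *ᵥ x) (P *ᵥ y) := by
  rw [Matrix.mul_vecMulVec, Matrix.vecMulVec_mul, Matrix.vecMul_transpose]

lemma Pi3_conj (P : M7) (f : V 7) (a b c : M7) :
    Pi3 (P *ᵥ f) (P * a * Pᵀ) (P * b * Pᵀ) (P * c * Pᵀ) = P.det * Pi3 f a b c := by
  induction a using mat_ind with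
  | hadd a a' h h' => rw [mul_add, add_mul, Pi3_add1, Pi3_add1, h, h', mul_add]
  | hv x1 x2 =>
  induction b using mat_ind with
  | hadd a a' h h' => rw [mul_add, add_mul, Pi3_add2, Pi3_add2, h, h', mul_add]
  | hv x3 x4 =>
  induction c using mat_ind with
  | hadd a a' h h' => rw [mul_add, add_mul, Pi3_add3, Pi3_add3, h, h', mul_add]
  | hv x5 x6 =>
  rw [conj_vec, conj_vec, conj_vec, Pi3_vec, Pi3_vec, ← Matrix.det_transpose P, mul_comm,
    ← Matrix.det_mul]
  congr 1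
  ext i j
  fin_cases i <;> simp [Matrix.mul_apply, Matrix.mulVec, dotProduct, mul_comm]

lemma sum_det_upd {n : ℕ} (X B : Matrix (Fin n) (Fin n) ℝ) :
    ∑ r, (X.updateRow r (B *ᵥ X r)).det = B.trace * X.det := by
  have h : ∀ r, (X.updateRow r (B *ᵥ X r)).det = (Xᵀ.adjugate * B * Xᵀ) r r := by
    intro r
    rw [← Matrix.cramer_transpose_apply, Matrix.cramer_eq_adjugate_mulVec, Matrix.mulVec_mulVec]
    simp [Matrix.mul_apply, Matrix.mulVec, dotProduct]
  simp only [h]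
  change (Xᵀ.adjugate * B * Xᵀ).trace = _
  rw [Matrix.trace_mul_comm, ← Matrix.mul_assoc, Matrix.mul_adjugate, Matrix.smul_mul, one_mul,
    Matrix.trace_smul, Matrix.det_transpose, smul_eq_mul, mul_comm]

lemma Pi3_inf (B : M7) (f : V 7) (a b c : M7) :
    Pi3 (B *ᵥ f) a b c + Pi3 f (B * a + a * Bᵀ) b c + Pi3 f a (B * b + b * Bᵀ) c +
      Pi3 f a b (B * c + c * Bᵀ) = B.trace * Pi3 f a b c := by
  induction a using mat_ind with
  | hadd a a' h h' =>
    simp only [mul_add, add_mul, Pi3_add1, Pi3_add2, Pi3_add3] at h h' ⊢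
    linarith
  | hv x1 x2 =>
  induction b using mat_ind with
  | hadd a a' h h' =>
    simp only [mul_add, add_mul, Pi3_add1, Pi3_add2, Pi3_add3] at h h' ⊢
    linarith
  | hv x3 x4 =>
  induction c using mat_ind with
  | hadd a a' h h' =>
    simp only [mul_add, add_mul, Pi3_add1, Pi3_add2, Pi3_add3] at h h' ⊢
    linarith
  | hv x5 x6 =>
  simp only [Matrix.mul_vecMulVec, Matrix.vecMulVec_mul, Matrix.vecMul_transpose, Pi3_add1,
    Pi3_add2, Pi3_add3, Pi3_vec]
  rw [← sum_det_upd, Fin.sum_univ_seven]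
  have e : ∀ (r : Fin 7) (Y : Fin 7 → V 7), (∀ i, Y i = Function.update
      ![f, x1, x2, x3, x4, x5, x6] r (B *ᵥ ![f, x1, x2, x3, x4, x5, x6] r) i) →
      (Matrix.of Y).det = ((Matrix.of ![f, x1, x2, x3, x4, x5, x6]).updateRow r
        (B *ᵥ (Matrix.of ![f, x1, x2, x3, x4, x5, x6]) r)).det := by
    intro r Y hY
    congr 1
    exact funext hY
  rw [e 0 ![B *ᵥ f, x1, x2, x3, x4, x5, x6] (fun i => by fin_cases i <;> rfl),
    e 1 ![f, B *ᵥ x1, x2, x3, x4, x5, x6] (fun i => by fin_cases i <;> rfl),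
    e 2 ![f, x1, B *ᵥ x2, x3, x4, x5, x6] (fun i => by fin_cases i <;> rfl),
    e 3 ![f, x1, x2, B *ᵥ x3, x4, x5, x6] (fun i => by fin_cases i <;> rfl),
    e 4 ![f, x1, x2, x3, B *ᵥ x4, x5, x6] (fun i => by fin_cases i <;> rfl),
    e 5 ![f, x1, x2, x3, x4, B *ᵥ x5, x6] (fun i => by fin_cases i <;> rfl),
    e 6 ![f, x1, x2, x3, x4, x5, B *ᵥ x6] (fun i => by fin_cases i <;> rfl)]
  ring

/-- Invariance under a skew matrix. -/
lemma Pi3_skew {B : M7} (hB : Bᵀ = -B) (f : V 7) (a b c : M7) :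
    Pi3 (B *ᵥ f) a b c + Pi3 f (B * a - a * B) b c + Pi3 f a (B * b - b * B) c +
      Pi3 f a b (B * c - c * B) = 0 := by
  have h := Pi3_inf B f a b c
  have ht : B.trace = 0 := by
    have := Matrix.trace_transpose B
    rw [hB, Matrix.trace_neg] at this
    linarith
  simpa only [hB, mul_neg, ← sub_eq_add_neg, ht, zero_mul] using h

lemma sg_swap {n : ℕ} {i j : Fin n} (h : i ≠ j) : sg (swap i j) = -1 := by
  simp [sg, Perm.sign_swap h]

lemma sum_swap {n : ℕ} {i j : Fin n} (h : i ≠ j) (T : Perm (Fin n) → ℝ) :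
    ∑ σ, sg σ * T (σ * swap i j) = -∑ σ, sg σ * T σ := by
  rw [← Finset.sum_neg_distrib, ← Equiv.sum_comp (Equiv.mulRight (swap i j))]
  refine Finset.sum_congr rfl fun σ _ => ?_
  simp [sg_mul, sg_swap h, mul_assoc]

lemma Pi3_T1 (f : V 7) (a b c : M7) : Pi3 f aᵀ b c = -Pi3 f a b c := by
  rw [Pi3, Pi3, ← sum_swap (i := 1) (j := 2) (by decide)]
  rfl
lemma Pi3_T2 (f : V 7) (a b c : M7) : Pi3 f a bᵀ c = -Pi3 f a b c := by
  rw [Pi3, Pi3, ← sum_swap (i := 3) (j := 4) (by decide)]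
  rfl
lemma Pi3_T3 (f : V 7) (a b c : M7) : Pi3 f a b cᵀ = -Pi3 f a b c := by
  rw [Pi3, Pi3, ← sum_swap (i := 5) (j := 6) (by decide)]
  rfl

/-- The Pfaffian six-form evaluated on a frame. -/
def Pf6 (f : V 7) (F : Fin 6 → Fin 6 → M7) : ℝ :=
  ∑ π : Perm (Fin 6), sg π * Pi3 f (F (π 0) (π 1)) (F (π 2) (π 3)) (F (π 4) (π 5))

lemma Pf6_conj (P : M7) (f : V 7) (F : Fin 6 → Fin 6 → M7) :
    Pf6 (P *ᵥ f) (fun i j => P * F i j * Pᵀ) = P.det * Pf6 f F := by
  simp only [Pf6, Pi3_conj, Finset.mul_sum]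
  exact Finset.sum_congr rfl fun _ _ => by ring

lemma Pf6_std (f : V 7) (x : Fin 6 → V 7) :
    Pf6 f (fun i j => vecMulVec (x i) (x j) - vecMulVec (x j) (x i)) =
      5760 * (Matrix.of (Matrix.vecCons f x)).det := by
  have h : ∀ π : Perm (Fin 6), sg π * Pi3 f
      (vecMulVec (x (π 0)) (x (π 1)) - vecMulVec (x (π 1)) (x (π 0)))
      (vecMulVec (x (π 2)) (x (π 3)) - vecMulVec (x (π 3)) (x (π 2)))
      (vecMulVec (x (π 4)) (x (π 5)) - vecMulVec (x (π 5)) (x (π 4))) =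
      8 * (Matrix.of (Matrix.vecCons f x)).det := by
    intro π
    have e : (Matrix.of ![f, x (π 0), x (π 1), x (π 2), x (π 3), x (π 4), x (π 5)]).det =
        sg π * (Matrix.of (Matrix.vecCons f x)).det := by
      have h1 := Matrix.det_permute (Perm.decomposeFin.symm (0, π)) (Matrix.of (Matrix.vecCons f x))
      rw [Perm.decomposeFin.symm_sign] at h1
      simp only [if_true, one_mul] at h1
      rw [sg, ← h1]
      congr 1
      ext i j
      refine Fin.cases ?_ (fun i => ?_) i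
      · simp
      · rw [Matrix.submatrix_apply, Perm.decomposeFin_symm_apply_succ]
        fin_cases i <;> simp
    have hs : sg π * sg π = 1 := by
      rw [sg, ← Int.cast_mul, ← Units.val_mul, Int.units_mul_self]; simp
    rw [← Matrix.transpose_vecMulVec (x (π 0)) (x (π 1)),
      ← Matrix.transpose_vecMulVec (x (π 2)) (x (π 3)),
      ← Matrix.transpose_vecMulVec (x (π 4)) (x (π 5))]
    simp only [sub_eq_add_neg, Pi3_add1, Pi3_add2, Pi3_add3, Pi3_neg1, Pi3_neg2, Pi3_neg3,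
      Pi3_T1, Pi3_T2, Pi3_T3, Pi3_vec, e]
    linear_combination 8 * (Matrix.of (Matrix.vecCons f x)).det * hs
  simp only [Pf6, h, Finset.sum_const, Finset.card_univ, Fintype.card_perm, Fintype.card_fin,
    nsmul_eq_mul]
  norm_num [Nat.factorial]
  ring

lemma perm_mixed (π : Perm (Fin 6)) : ¬ ((π 0).val < 3 ↔ (π 1).val < 3) ∨
    ¬ ((π 2).val < 3 ↔ (π 3).val < 3) ∨ ¬ ((π 4).val < 3 ↔ (π 5).val < 3) := by
  have h := Equiv.sum_comp π (fun r : Fin 6 => if r.val < 3 then 1 else 0)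
  rw [Fin.sum_univ_six, Fin.sum_univ_six] at h
  have h3 : ((if (0 : Fin 6).val < 3 then 1 else 0) + (if (1 : Fin 6).val < 3 then 1 else 0) +
    (if (2 : Fin 6).val < 3 then 1 else 0) + (if (3 : Fin 6).val < 3 then 1 else 0) +
    (if (4 : Fin 6).val < 3 then 1 else 0) + (if (5 : Fin 6).val < 3 then 1 else 0) : ℕ) = 3 := by
    decide
  rw [h3] at h
  by_contra hc
  push Not at hc
  obtain ⟨h1, h2, h4⟩ := hc
  split_ifs at h <;> omega

/-- The multilinear form behind `Pf6`. -/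
def ml (f : V 7) (F : V 6 →ₗ[ℝ] V 6 →ₗ[ℝ] M7) : MultilinearMap ℝ (fun _ : Fin 6 => V 6) ℝ :=
  MultilinearMap.mk' (fun v => Pi3 f (F (v 0) (v 1)) (F (v 2) (v 3)) (F (v 4) (v 5)))
    (fun v i x y => by
      fin_cases i <;> simp [Function.update, Pi3_add1, Pi3_add2, Pi3_add3])
    (fun v i t x => by
      fin_cases i <;> simp [Function.update, Pi3_smul1, Pi3_smul2, Pi3_smul3])

/-- If the curvature has no component between the first three directions and a complement, the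
Pfaffian vanishes. -/
lemma Pf6_shear (f : V 7) (F : V 6 →ₗ[ℝ] V 6 →ₗ[ℝ] M7) (hF : ∀ u v, F u v = -F v u)
    (H : Fin 6 → V 6) (hd : (Matrix.of H).det = 1)
    (hH : ∀ i j : Fin 6, i.val < 3 → ¬ j.val < 3 → F (H i) (H j) = 0) :
    Pf6 f (fun i j => F (Pi.single i 1) (Pi.single j 1)) = 0 := by
  have key : ∀ v : Fin 6 → V 6, MultilinearMap.alternatization (ml f F) v =
      Pf6 f (fun i j => F (v i) (v j)) := by
    intro v
    rw [MultilinearMap.alternatization_apply, Pf6]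
    refine Finset.sum_congr rfl fun π _ => ?_
    rw [Units.smul_def, zsmul_eq_mul]
    rfl
  have h1 := AlternatingMap.eq_smul_basis_det (Pi.basisFun ℝ (Fin 6))
    (MultilinearMap.alternatization (ml f F))
  have h2 := DFunLike.congr_fun h1 H
  rw [AlternatingMap.smul_apply, smul_eq_mul] at h2
  have h3 : (Pi.basisFun ℝ (Fin 6)).det H = 1 := by
    rw [Pi.basisFun_det_apply]; exact hd
  have k1 := key H
  have k2 := key (Pi.basisFun ℝ (Fin 6))
  generalize MultilinearMap.alternatization (ml f F) = A at k1 k2 h2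
  rw [h3, mul_one, k1, k2] at h2
  have hm : ∀ i j : Fin 6, ¬ (i.val < 3 ↔ j.val < 3) → F (H i) (H j) = 0 := by
    intro i j hij
    by_cases hi : i.val < 3
    · exact hH i j hi (fun hj => hij ⟨fun _ => hj, fun _ => hi⟩)
    · have hj : j.val < 3 := by tauto
      rw [hF, hH j i hj hi, neg_zero]
  have h4 : Pf6 f (fun i j => F (H i) (H j)) = 0 := by
    refine Finset.sum_eq_zero fun π _ => ?_
    rcases perm_mixed π with h | h | h
    · simp only [hm _ _ h, Pi3_zero1, mul_zero]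
    · simp only [hm _ _ h, Pi3_zero2, mul_zero]
    · simp only [hm _ _ h, Pi3_zero3, mul_zero]
  rw [h4] at h2
  simpa only [Pi.basisFun_apply] using h2.symm

end Pool.Agent.P.MP_467c2e_gt
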