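import Pool.Agent.P.MP_467c2e_gt.Alg

/-! Rules for directional derivatives of matrix valued functions. -/

open Matrix Equiv
open scoped ContDiff

namespace Pool.Agent.P.MP_467c2e_gt

variable {E : Type} [NormedAddCommGroup E] [NormedSpace ℝ E]
variable {F : Type} [NormedAddCommGroup F] [NormedSpace ℝ F]
variable {K : Type} [NormedAddCommGroup K] [NormedSpace ℝ K]

lemma sm_diff {h : E → F} (hh : ContDiff ℝ ∞ h) (x : E) : DifferentiableAt ℝ h x :=
  hh.differentiable (by simp) x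

lemma sm_fd {h : E → F} (hh : ContDiff ℝ ∞ h) : ContDiff ℝ ∞ (fderiv ℝ h) :=
  hh.fderiv_right (m := ∞) le_rfl

lemma sm_d {h : E → F} (hh : ContDiff ℝ ∞ h) (X : E) : ContDiff ℝ ∞ fun y => fderiv ℝ h y X :=
  (sm_fd hh).clm_apply contDiff_const

lemma hd {h : E → F} {x : E} (hh : DifferentiableAt ℝ h x) (X : E) :
    HasDerivAt (fun t : ℝ => h (x + t • X)) (fderiv ℝ h x X) 0 :=
  hh.hasFDerivAt.hasLineDerivAt X

lemma d_eq {h : E → F} {x X : E} {v : F} (hh : DifferentiableAt ℝ h x)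
    (H : HasDerivAt (fun t : ℝ => h (x + t • X)) v 0) : fderiv ℝ h x X = v :=
  (hd hh X).unique H

lemma d_line {h k : E → F} {x y X : E} (hh : DifferentiableAt ℝ h x) (hk : DifferentiableAt ℝ k y)
    (H : ∀ᶠ t : ℝ in nhds 0, h (x + t • X) = k (y + t • X)) : fderiv ℝ h x X = fderiv ℝ k y X :=
  d_eq hh ((hd hk X).congr_of_eventuallyEq H)

lemma d_capp {B : E → K →L[ℝ] F} {v : E → K} {x : E} (hB : DifferentiableAt ℝ B x)
    (hv : DifferentiableAt ℝ v x) (X : E) :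
    fderiv ℝ (fun y => B y (v y)) x X = fderiv ℝ B x X (v x) + B x (fderiv ℝ v x X) := by
  rw [fderiv_clm_apply hB hv]; simp [add_comm]

lemma d_app {B : E → K →L[ℝ] F} {x : E} (hB : DifferentiableAt ℝ B x) (X : E) (Y : K) :
    fderiv ℝ (fun y => B y Y) x X = fderiv ℝ B x X Y := by
  rw [d_capp hB (differentiableAt_const Y)]; simp

lemma d_clm (L : K →L[ℝ] F) {v : E → K} {x : E} (hv : DifferentiableAt ℝ v x) (X : E) :
    fderiv ℝ (fun y => L (v y)) x X = L (fderiv ℝ v x X) := by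
  rw [d_capp (differentiableAt_const L) hv]; simp

lemma d_add {a b : E → F} {x : E} (ha : DifferentiableAt ℝ a x) (hb : DifferentiableAt ℝ b x)
    (X : E) : fderiv ℝ (fun y => a y + b y) x X = fderiv ℝ a x X + fderiv ℝ b x X := by
  rw [fderiv_fun_add ha hb]; rfl

lemma d_sub {a b : E → F} {x : E} (ha : DifferentiableAt ℝ a x) (hb : DifferentiableAt ℝ b x)
    (X : E) : fderiv ℝ (fun y => a y - b y) x X = fderiv ℝ a x X - fderiv ℝ b x X := by
  rw [fderiv_fun_sub ha hb]; rfl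

lemma d_smul {a : E → ℝ} {b : E → F} {x : E} (ha : DifferentiableAt ℝ a x)
    (hb : DifferentiableAt ℝ b x) (X : E) :
    fderiv ℝ (fun y => a y • b y) x X = fderiv ℝ a x X • b x + a x • fderiv ℝ b x X := by
  rw [fderiv_fun_smul ha hb]; simp [add_comm]

lemma d_comp {a : K → F} {b : E → K} {x : E} (ha : DifferentiableAt ℝ a (b x))
    (hb : DifferentiableAt ℝ b x) (X : E) :
    fderiv ℝ (fun y => a (b y)) x X = fderiv ℝ a (b x) (fderiv ℝ b x X) := by
  rw [fderiv_fun_comp x ha hb]; rfl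

lemma d_symm {h : E → F} (hh : ContDiff ℝ ∞ h) (x X Y : E) :
    fderiv ℝ (fderiv ℝ h) x X Y = fderiv ℝ (fderiv ℝ h) x Y X :=
  (hh.contDiffAt.isSymmSndFDerivAt (by simp only [minSmoothness_of_isRCLikeNormedField]; norm_cast)).eq X Y

lemma d_symm' {h : E → F} (hh : ContDiff ℝ ∞ h) (x X Y : E) :
    fderiv ℝ (fun y => fderiv ℝ h y Y) x X = fderiv ℝ (fun y => fderiv ℝ h y X) x Y := by
  rw [d_app (sm_diff (sm_fd hh) x), d_app (sm_diff (sm_fd hh) x), d_symm hh]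

lemma d_bil {K' : Type} [NormedAddCommGroup K'] [NormedSpace ℝ K'] (L : K →L[ℝ] K' →L[ℝ] F)
    {a : E → K} {v : E → K'} (ha : ContDiff ℝ ∞ a) (hv : ContDiff ℝ ∞ v) (x X : E) :
    fderiv ℝ (fun y => L (a y) (v y)) x X =
      L (fderiv ℝ a x X) (v x) + L (a x) (fderiv ℝ v x X) := by
  have := d_capp (B := fun y => L (a y)) (sm_diff (L.contDiff.comp ha) x) (sm_diff hv x) X
  rwa [d_clm L (sm_diff ha x)] at this

lemma sm_bil {K' : Type} [NormedAddCommGroup K'] [NormedSpace ℝ K'] (L : K →L[ℝ] K' →L[ℝ] F)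
    {a : E → K} {v : E → K'} (ha : ContDiff ℝ ∞ a) (hv : ContDiff ℝ ∞ v) :
    ContDiff ℝ ∞ fun y => L (a y) (v y) := (L.contDiff.comp ha).clm_apply hv

lemma exists_alg : ∃ (A : Type) (_ : NormedRing A) (_ : NormedAlgebra ℝ A) (m : A ≃ₗ[ℝ] M7),
    (∀ a b, m (a * b) = m a * m b) ∧ m 1 = 1 :=
  ⟨M7, Matrix.linftyOpNormedRing, Matrix.linftyOpNormedAlgebra, LinearEquiv.refl ℝ M7,
    fun _ _ => rfl, rfl⟩

/-- A normed algebra isomorphic to the seven by seven matrices. -/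
def Mx : Type := exists_alg.choose

noncomputable instance : NormedRing Mx := exists_alg.choose_spec.choose
noncomputable instance : NormedAlgebra ℝ Mx := exists_alg.choose_spec.choose_spec.choose

/-- The matrix of an element. -/
noncomputable def mat : Mx ≃ₗ[ℝ] M7 := exists_alg.choose_spec.choose_spec.choose_spec.choose

lemma mat_mul (a b : Mx) : mat (a * b) = mat a * mat b :=
  exists_alg.choose_spec.choose_spec.choose_spec.choose_spec.1 a b
lemma mat_one : mat 1 = 1 := exists_alg.choose_spec.choose_spec.choose_spec.choose_spec.2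

instance : FiniteDimensional ℝ Mx := mat.symm.finiteDimensional
instance : CompleteSpace Mx := FiniteDimensional.complete ℝ Mx

lemma d_mul {a b : E → Mx} (ha : ContDiff ℝ ∞ a) (hb : ContDiff ℝ ∞ b) (x X : E) :
    fderiv ℝ (fun y => a y * b y) x X = fderiv ℝ a x X * b x + a x * fderiv ℝ b x X :=
  d_bil (ContinuousLinearMap.mul ℝ Mx) ha hb x X

/-- Action on vectors. -/
noncomputable def mv : Mx →L[ℝ] V 7 →L[ℝ] V 7 :=
  LinearMap.toContinuousBilinearMap
    ((Matrix.toLin' (R := ℝ) (m := Fin 7) (n := Fin 7)).toLinearMap ∘ₗ mat.toLinearMap)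

lemma mat_mv (a : Mx) (v : V 7) : mat a *ᵥ v = mv a v := rfl
lemma mv_mul (a b : Mx) (v : V 7) : mv (a * b) v = mv a (mv b v) := by
  simp only [← mat_mv, mat_mul, Matrix.mulVec_mulVec]
lemma mv_one (v : V 7) : mv 1 v = v := by rw [← mat_mv, mat_one, Matrix.one_mulVec]

/-- Transposition. -/
noncomputable def tr : Mx →L[ℝ] Mx :=
  LinearMap.toContinuousLinearMap (mat.symm.toLinearMap ∘ₗ
    (Matrix.transposeLinearEquiv (Fin 7) (Fin 7) ℝ ℝ).toLinearMap ∘ₗ mat.toLinearMap)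

lemma mat_tr (a : Mx) : mat (tr a) = (mat a)ᵀ := mat.apply_symm_apply _

/-- The dot product. -/
noncomputable def dt (n : ℕ) : V n →L[ℝ] V n →L[ℝ] ℝ :=
  LinearMap.toContinuousBilinearMap (dotProductBilin ℝ ℝ)

lemma dt_apply {n : ℕ} (a v : V n) : dt n a v = a ⬝ᵥ v := rfl

/-- The outer product. -/
noncomputable def vv : V 7 →L[ℝ] V 7 →L[ℝ] Mx :=
  LinearMap.toContinuousBilinearMap
    ((LinearMap.mk₂ ℝ (fun a b => (vecMulVec a b : M7)) Matrix.add_vecMulVec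
      (fun c a b => Matrix.smul_vecMulVec c a b) Matrix.vecMulVec_add
      (fun c a b => Matrix.vecMulVec_smul c a b)).compr₂ mat.symm.toLinearMap)

lemma mat_vv (a b : V 7) : mat (vv a b) = vecMulVec a b := mat.apply_symm_apply _

lemma mv_vv (a b v : V 7) : mv (vv a b) v = (b ⬝ᵥ v) • a := by
  rw [← mat_mv, mat_vv, Matrix.vecMulVec_mulVec, op_smul_eq_smul]

lemma mul_vv (P : Mx) (a b : V 7) : P * vv a b = vv (mv P a) b :=
  mat.injective (by rw [mat_mul, mat_vv, mat_vv, Matrix.mul_vecMulVec, mat_mv])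

/-- A matrix entry. -/
noncomputable def en (i j : Fin 7) : Mx →L[ℝ] ℝ :=
  LinearMap.toContinuousLinearMap (Matrix.entryLinearMap ℝ ℝ i j ∘ₗ mat.toLinearMap)

lemma tr_tr (a : Mx) : tr (tr a) = a := mat.injective (by rw [mat_tr, mat_tr, transpose_transpose])
lemma tr_mul (a b : Mx) : tr (a * b) = tr b * tr a :=
  mat.injective (by simp only [mat_tr, mat_mul, transpose_mul])
lemma tr_one : tr 1 = 1 := mat.injective (by simp only [mat_tr, mat_one, transpose_one])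
lemma tr_vv (a b : V 7) : tr (vv a b) = vv b a :=
  mat.injective (by simp only [mat_tr, mat_vv, transpose_vecMulVec])
lemma dot_mv (P : Mx) (a b : V 7) : a ⬝ᵥ mv P b = mv (tr P) a ⬝ᵥ b := by
  rw [← mat_mv, ← mat_mv, mat_tr, Matrix.dotProduct_mulVec, Matrix.mulVec_transpose]
lemma mx_ext {a : Mx} (h : ∀ v w, w ⬝ᵥ mv a v = 0) : a = 0 := by
  refine mat.injective (Matrix.ext_iff_mulVec.2 fun v => ?_)
  rw [map_zero, Matrix.zero_mulVec]
  exact dotProduct_eq_zero _ fun w => by rw [dotProduct_comm]; exact h v w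

lemma sm_dt {n : ℕ} {a v : E → V n} (ha : ContDiff ℝ ∞ a) (hv : ContDiff ℝ ∞ v) :
    ContDiff ℝ ∞ fun y => a y ⬝ᵥ v y := sm_bil (dt n) ha hv

lemma d_dt {n : ℕ} {a v : E → V n} (ha : ContDiff ℝ ∞ a) (hv : ContDiff ℝ ∞ v) (x X : E) :
    fderiv ℝ (fun y => a y ⬝ᵥ v y) x X = fderiv ℝ a x X ⬝ᵥ v x + a x ⬝ᵥ fderiv ℝ v x X :=
  d_bil (dt n) ha hv x X

/-- The polarised Pfaffian on the normed algebra. -/
noncomputable def Pm (f : V 7) (a b c : Mx) : ℝ := Pi3 f (mat a) (mat b) (mat c)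

lemma Pm_def (f : V 7) (a b c : Mx) : Pm f a b c = ∑ σ : Perm (Fin 7),
    sg σ * (f (σ 0) * en (σ 1) (σ 2) a * en (σ 3) (σ 4) b * en (σ 5) (σ 6) c) := rfl

lemma sm_Pm {f : E → V 7} {a b c : E → Mx} (hf : ContDiff ℝ ∞ f) (ha : ContDiff ℝ ∞ a)
    (hb : ContDiff ℝ ∞ b) (hc : ContDiff ℝ ∞ c) :
    ContDiff ℝ ∞ fun y => Pm (f y) (a y) (b y) (c y) := by
  simp only [Pm_def]
  refine ContDiff.sum fun σ _ => contDiff_const.mul ?_
  exact (((contDiff_pi.1 hf _).mul ((en _ _).contDiff.comp ha)).mul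
    ((en _ _).contDiff.comp hb)).mul ((en _ _).contDiff.comp hc)

lemma d_Pm {f : E → V 7} {a b c : E → Mx} (hf : ContDiff ℝ ∞ f) (ha : ContDiff ℝ ∞ a)
    (hb : ContDiff ℝ ∞ b) (hc : ContDiff ℝ ∞ c) (x X : E) :
    fderiv ℝ (fun y => Pm (f y) (a y) (b y) (c y)) x X =
      Pm (fderiv ℝ f x X) (a x) (b x) (c x) + Pm (f x) (fderiv ℝ a x X) (b x) (c x) +
      Pm (f x) (a x) (fderiv ℝ b x X) (c x) + Pm (f x) (a x) (b x) (fderiv ℝ c x X) := by
  refine d_eq (sm_diff (sm_Pm hf ha hb hc) x) ?_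
  have hen : ∀ {a : E → Mx}, ContDiff ℝ ∞ a → ∀ i j,
      HasDerivAt (fun t : ℝ => en i j (a (x + t • X))) (en i j (fderiv ℝ a x X)) 0 :=
    fun ha i j => (en i j).hasFDerivAt.comp_hasDerivAt (0 : ℝ) (hd (sm_diff ha x) X)
  have h := HasDerivAt.fun_sum (u := Finset.univ) fun (σ : Perm (Fin 7)) _ =>
    ((((hasDerivAt_pi.1 (hd (sm_diff hf x) X) (σ 0)).fun_mul (hen ha (σ 1) (σ 2))).fun_mul
      (hen hb (σ 3) (σ 4))).fun_mul (hen hc (σ 5) (σ 6))).const_mul (sg σ)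
  refine h.congr_deriv ?_
  simp only [Pm_def, ← Finset.sum_add_distrib, zero_smul, add_zero]
  exact Finset.sum_congr rfl fun _ _ => by ring

lemma Pm_add0 (f g : V 7) (a b c : Mx) : Pm (f + g) a b c = Pm f a b c + Pm g a b c :=
  Pi3_add0 f g _ _ _
lemma Pm_add1 (f : V 7) (a a' b c : Mx) : Pm f (a + a') b c = Pm f a b c + Pm f a' b c := by
  simp only [Pm, map_add, Pi3_add1]
lemma Pm_add2 (f : V 7) (a b b' c : Mx) : Pm f a (b + b') c = Pm f a b c + Pm f a b' c := by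
  simp only [Pm, map_add, Pi3_add2]
lemma Pm_add3 (f : V 7) (a b c c' : Mx) : Pm f a b (c + c') = Pm f a b c + Pm f a b c' := by
  simp only [Pm, map_add, Pi3_add3]
lemma Pm_zero0 (a b c : Mx) : Pm 0 a b c = 0 := by simp [Pm_def]
lemma Pm_zero1 (f : V 7) (b c : Mx) : Pm f 0 b c = 0 := by simp [Pm_def]
lemma Pm_zero2 (f : V 7) (a c : Mx) : Pm f a 0 c = 0 := by simp [Pm_def]
lemma Pm_zero3 (f : V 7) (a b : Mx) : Pm f a b 0 = 0 := by simp [Pm_def]
lemma Pm_skew {B : Mx} (hB : tr B = -B) (f : V 7) (a b c : Mx) :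
    Pm (mv B f) a b c + Pm f (B * a - a * B) b c + Pm f a (B * b - b * B) c +
      Pm f a b (B * c - c * B) = 0 := by
  simp only [Pm, map_sub, mat_mul, ← mat_mv]
  exact Pi3_skew (by rw [← mat_tr, hB, map_neg]) f _ _ _

/-- The Pfaffian six-form on a frame. -/
noncomputable def Pf (f : V 7) (F : Fin 6 → Fin 6 → Mx) : ℝ :=
  ∑ π : Perm (Fin 6), sg π * Pm f (F (π 0) (π 1)) (F (π 2) (π 3)) (F (π 4) (π 5))

lemma Pf_eq (f : V 7) (F : Fin 6 → Fin 6 → Mx) : Pf f F = Pf6 f fun i j => mat (F i j) := rfl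

/-- The determinant. -/
noncomputable def dtm (P : Mx) : ℝ := (mat P).det

lemma Pf_conj (P : Mx) (f : V 7) (F : Fin 6 → Fin 6 → Mx) :
    Pf (mv P f) (fun i j => P * F i j * tr P) = dtm P * Pf f F := by
  simp only [Pf_eq, mat_mul, mat_tr, ← mat_mv]
  exact Pf6_conj _ f _

lemma Pf_std (f : V 7) (x : Fin 6 → V 7) :
    Pf f (fun i j => vv (x i) (x j) - vv (x j) (x i)) =
      5760 * (Matrix.of (Matrix.vecCons f x)).det := by
  simp only [Pf_eq, map_sub, mat_vv]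
  exact Pf6_std f x

lemma Pf_shear (f : V 7) (F : V 6 →ₗ[ℝ] V 6 →ₗ[ℝ] Mx) (hF : ∀ u v, F u v = -F v u)
    (H : Fin 6 → V 6) (hd : (Matrix.of H).det = 1)
    (hH : ∀ i j : Fin 6, i.val < 3 → ¬ j.val < 3 → F (H i) (H j) = 0) :
    Pf f (fun i j => F (Pi.single i 1) (Pi.single j 1)) = 0 :=
  Pf6_shear f (F.compr₂ mat.toLinearMap) (fun u v => by simp [hF u v]) H hd
    fun i j hi hj => by simp [hH i j hi hj]

lemma dtm_sq {P : Mx} (h : tr P * P = 1) : dtm P * dtm P = 1 := by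
  have h1 := congrArg (fun a => (mat a).det) h
  simp only [mat_mul, mat_tr, mat_one, Matrix.det_mul, Matrix.det_transpose, Matrix.det_one] at h1
  exact h1

lemma dtm_tr (P : Mx) : dtm (tr P) = dtm P := by rw [dtm, mat_tr, Matrix.det_transpose, dtm]
lemma dtm_one : dtm 1 = 1 := by rw [dtm, mat_one, Matrix.det_one]
lemma cont_dtm : Continuous dtm := by
  have : dtm = fun P => ∑ σ : Perm (Fin 7), sg σ * ∏ i, en (σ i) i P :=
    funext fun P => Matrix.det_apply' (mat P)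
  rw [this]
  fun_prop

lemma mul_tr_of {P : Mx} (h : tr P * P = 1) : P * tr P = 1 := by
  have h1 := congrArg mat h
  rw [mat_mul, mat_one] at h1
  exact mat.injective (by rw [mat_mul, mat_one]; exact mul_eq_one_comm.1 h1)

end Pool.Agent.P.MP_467c2e_gt
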