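import Pool.Agent.P.MP_467c2e_gt.Calc

/-! Symmetries of the curvature tensor and the algebraic consequence of nonnegative curvature. -/

open Matrix
open scoped ContDiff

namespace Pool.Agent.P.MP_467c2e_gt

lemma quad_nonneg {a b : ℝ} (h : ∀ e : ℝ, 0 ≤ a * e ^ 2 + b * e ^ 4) : 0 ≤ a := by
  by_contra ha
  push Not at ha
  have hb : 0 < |b| + 1 := by positivity
  have hd : 0 < -a / (|b| + 1) := div_pos (by linarith) hb
  have h1 := h (Real.sqrt (-a / (|b| + 1)))
  rw [show ∀ x : ℝ, x ^ 4 = x ^ 2 * x ^ 2 from fun x => by ring, Real.sq_sqrt hd.le] at h1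
  have h2 : -a / (|b| + 1) * (|b| + 1) = -a := div_mul_cancel₀ _ hb.ne'
  generalize -a / (|b| + 1) = d at hd h1 h2
  have h3 : 0 ≤ a + b * d := by
    by_contra h4
    push Not at h4
    nlinarith
  nlinarith [le_abs_self b]

lemma flat_alg {W : Type} [AddCommGroup W] [Module ℝ W] (R : W →ₗ[ℝ] W →ₗ[ℝ] W →ₗ[ℝ] W →ₗ[ℝ] ℝ)
    (h12 : ∀ a b c d, R a b c d = -R b a c d) (h34 : ∀ a b c d, R a b c d = -R a b d c)
    (hb : ∀ a b c d, R a b c d + R b c a d + R c a b d = 0) (pos : ∀ a b, 0 ≤ R a b b a)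
    (T N : W → Prop) (hT : ∀ a b, T a → T b → T (a + b)) (hN : ∀ a b, N a → N b → N (a + b))
    (hm : ∀ a b, T a → N b → R a b b a = 0) {X Y U S : W} (hX : T X) (hY : T Y) (hU : N U)
    (hS : N S) (h0 : R X Y Y X = 0) : R X Y U S = 0 := by
  have hp : ∀ a b c d, R a b c d = R c d a b := fun a b c d => by
    linarith [hb a b c d, hb b c d a, hb c d a b, hb d a b c, h34 b c d a, h34 c d b a,
      h34 d a c b, h34 a b d c, h12 a c d b, h34 c a d b, h12 b d a c, h34 d b a c]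
  have m1 : ∀ a, T a → R a U S a + R a S U a = 0 := fun a ha => by
    have := hm a (U + S) ha (hN _ _ hU hS)
    simp only [map_add, LinearMap.add_apply, hm a U ha hU, hm a S ha hS] at this
    linarith
  have m2 := m1 (X + Y) (hT _ _ hX hY)
  simp only [map_add, LinearMap.add_apply] at m2
  have k : ∀ s : ℝ, 0 ≤ s * (R S U Y X + R S Y U X + R X U Y S + R X Y U S) := fun s => by
    refine quad_nonneg (b := s ^ 2 * R S U U S) fun e => ?_
    have p1 := pos (X + e • S) (Y + (e * s) • U)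
    have p2 := pos (X + (-e) • S) (Y + (-e * s) • U)
    have q1 : R S Y Y S = 0 := by rw [h12, h34, hm Y S hY hS]; simp
    simp only [map_add, map_smul, LinearMap.add_apply, LinearMap.smul_apply, smul_eq_mul, h0, q1,
      hm X U hX hU] at p1 p2
    linarith
  have k1 := k 1
  have k2 := k (-1)
  linarith [m1 X hX, m1 Y hY, hb X Y U S, hp Y U X S, hp S U Y X, hp S Y U X, h12 U X Y S,
    h12 Y X S U, h34 X Y S U, h12 U X S Y, h34 X U S Y, h34 X S U Y, hp Y U S X, hp Y S U X,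
    h12 S X Y U, h34 X S Y U, h34 U X Y S]

/-- The four-linear form of an array. -/
noncomputable def Q4 (r : Ix → Ix → Ix → Ix → ℝ) :
    (Ix → ℝ) →ₗ[ℝ] (Ix → ℝ) →ₗ[ℝ] (Ix → ℝ) →ₗ[ℝ] (Ix → ℝ) →ₗ[ℝ] ℝ :=
  ∑ i, ∑ j, ∑ k, ∑ l, r i j k l • (LinearMap.proj i).smulRight
    ((LinearMap.proj j).smulRight ((LinearMap.proj k).smulRight (LinearMap.proj l)))

lemma Q4_apply (r : Ix → Ix → Ix → Ix → ℝ) (u v w t : Ix → ℝ) :
    Q4 r u v w t = ∑ i, ∑ j, ∑ k, ∑ l, u i * v j * w k * t l * r i j k l := by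
  simp only [Q4, LinearMap.sum_apply, LinearMap.smul_apply, LinearMap.smulRight_apply,
    LinearMap.proj_apply, smul_eq_mul]
  refine Finset.sum_congr rfl fun _ _ => Finset.sum_congr rfl fun _ _ =>
    Finset.sum_congr rfl fun _ _ => Finset.sum_congr rfl fun _ _ => by ring

lemma Q4_single (r : Ix → Ix → Ix → Ix → ℝ) (i j k l : Ix) :
    Q4 r (Pi.single i 1) (Pi.single j 1) (Pi.single k 1) (Pi.single l 1) = r i j k l := by
  simp only [Q4_apply, Pi.single_apply, ite_mul, mul_ite, one_mul, zero_mul, mul_zero, mul_one,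
    Finset.sum_ite_eq', Finset.mem_univ, if_true]

lemma Q4_12 {r : Ix → Ix → Ix → Ix → ℝ} (h : ∀ i j k l, r i j k l = -r j i k l) (a b c d : Ix → ℝ) :
    Q4 r a b c d = -Q4 r b a c d := by
  rw [Q4_apply, Q4_apply, Finset.sum_comm]
  simp only [← Finset.sum_neg_distrib]
  refine Finset.sum_congr rfl fun j _ => Finset.sum_congr rfl fun i _ =>
    Finset.sum_congr rfl fun _ _ => Finset.sum_congr rfl fun _ _ => by rw [h i j]; ring

lemma Q4_34 {r : Ix → Ix → Ix → Ix → ℝ} (h : ∀ i j k l, r i j k l = -r i j l k) (a b c d : Ix → ℝ) :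
    Q4 r a b c d = -Q4 r a b d c := by
  rw [Q4_apply, Q4_apply]
  simp only [← Finset.sum_neg_distrib]
  refine Finset.sum_congr rfl fun i _ => Finset.sum_congr rfl fun j _ => ?_
  rw [Finset.sum_comm]
  refine Finset.sum_congr rfl fun l _ => Finset.sum_congr rfl fun k _ => by rw [h i j k l]; ring

lemma Q4_cyc (r : Ix → Ix → Ix → Ix → ℝ) (a b c d : Ix → ℝ) :
    Q4 r b c a d = Q4 (fun i j k l => r j k i l) a b c d := by
  rw [Q4_apply, Q4_apply, eq_comm, Finset.sum_comm]
  refine Finset.sum_congr rfl fun j _ => ?_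
  rw [Finset.sum_comm]
  refine Finset.sum_congr rfl fun _ _ => Finset.sum_congr rfl fun _ _ =>
    Finset.sum_congr rfl fun _ _ => by ring

lemma Q4_b {r : Ix → Ix → Ix → Ix → ℝ} (h : ∀ i j k l, r i j k l + r j k i l + r k i j l = 0)
    (a b c d : Ix → ℝ) : Q4 r a b c d + Q4 r b c a d + Q4 r c a b d = 0 := by
  rw [Q4_cyc r b c a d, Q4_cyc r a b c d, Q4_cyc _ a b c d]
  simp only [Q4_apply, ← Finset.sum_add_distrib, ← mul_add, h, mul_zero, Finset.sum_const_zero]

variable {g : (Ix → ℝ) → Matrix Ix Ix ℝ}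

lemma sm_pd {h : (Ix → ℝ) → ℝ} (hh : ContDiff ℝ ∞ h) (i : Ix) : ContDiff ℝ ∞ (pd h i) := sm_d hh _

lemma sm_chr (hg : ∀ i j, ContDiff ℝ ∞ fun w => g w i j) (i j k : Ix) :
    ContDiff ℝ ∞ (chr g i j k) :=
  (((sm_pd (hg _ _) _).add (sm_pd (hg _ _) _)).sub (sm_pd (hg _ _) _)).div_const 2

lemma chr_symm (hs : ∀ w i j, g w i j = g w j i) (i j k : Ix) : chr g i j k = chr g j i k := by
  ext z
  rw [chr, chr, show (fun w => g w i j) = fun w => g w j i from funext fun w => hs w i j]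
  ring

lemma chr_add (hs : ∀ w i j, g w i j = g w j i) (i j k : Ix) (z : Ix → ℝ) :
    chr g i j k z + chr g i k j z = pd (fun w => g w j k) i z := by
  rw [chr, chr, show (fun w => g w k j) = fun w => g w j k from funext fun w => hs w k j]
  ring

lemma inv_symm (hs : ∀ w i j, g w i j = g w j i) (z : Ix → ℝ) (m n : Ix) :
    (g z)⁻¹ m n = (g z)⁻¹ n m := by
  have h : (g z)ᵀ = g z := Matrix.ext fun i j => hs z j i
  rw [← Matrix.transpose_apply (g z)⁻¹ n m, Matrix.transpose_nonsing_inv, h]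

lemma riem_12 (i j k l : Ix) (z : Ix → ℝ) : riem g i j k l z = -riem g j i k l z := by
  simp only [riem, neg_add, ← Finset.sum_neg_distrib, neg_sub]
  congr 1
  exact Finset.sum_congr rfl fun _ _ => Finset.sum_congr rfl fun _ _ => by ring

lemma riem_34 (hg : ∀ i j, ContDiff ℝ ∞ fun w => g w i j) (hs : ∀ w i j, g w i j = g w j i)
    (i j k l : Ix) (z : Ix → ℝ) : riem g i j k l z = -riem g i j l k z := by
  have h : ∀ i j, pd (chr g j k l) i z + pd (chr g j l k) i z =
      pd (pd (fun w => g w k l) j) i z := fun i j => by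
    rw [pd, pd, ← d_add (sm_diff (sm_chr hg _ _ _) z) (sm_diff (sm_chr hg _ _ _) z)]
    simp only [chr_add hs]
    rfl
  have h2 : pd (pd (fun w => g w k l) j) i z = pd (pd (fun w => g w k l) i) j z :=
    d_symm' (hg k l) z _ _
  have h3 : ∑ m, ∑ n, (g z)⁻¹ m n * (chr g i k m z * chr g j l n z - chr g j k m z * chr g i l n z)
      = -∑ m, ∑ n, (g z)⁻¹ m n *
        (chr g i l m z * chr g j k n z - chr g j l m z * chr g i k n z) := by
    rw [Finset.sum_comm]
    simp only [← Finset.sum_neg_distrib]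
    exact Finset.sum_congr rfl fun m _ => Finset.sum_congr rfl fun n _ => by
      rw [inv_symm hs z n m]; ring
  rw [riem, riem, h3]
  linarith [h i j, h j i]

lemma riem_b (hs : ∀ w i j, g w i j = g w j i) (i j k l : Ix) (z : Ix → ℝ) :
    riem g i j k l z + riem g j k i l z + riem g k i j l z = 0 := by
  simp only [riem, chr_symm hs k i, chr_symm hs j i, chr_symm hs k j, mul_sub,
    Finset.sum_sub_distrib]
  ring

end Pool.Agent.P.MP_467c2e_gt
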