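import Pool.Agent.P.MP_467c2e_gt.Conn
import Pool.Agent.P.MP_467c2e_gt.Ten

/-! The adapted chart along the zero section and its Christoffel symbols. -/

open Matrix Set Real Filter Topology
open scoped ContDiff

namespace Pool.Agent.P.MP_467c2e_gt

/-- Base coordinates. -/
noncomputable def pl : (Ix → ℝ) →L[ℝ] V 6 :=
  ContinuousLinearMap.pi fun i => ContinuousLinearMap.proj (Sum.inl i)

/-- The slice of the zero section. -/
noncomputable def il : V 6 →L[ℝ] (Ix → ℝ) :=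
  ContinuousLinearMap.pi (Sum.elim (fun i => ContinuousLinearMap.proj i) fun _ => 0)

/-- The fibre coordinate vectors. -/
def er (a : Fin 6) : Ix → ℝ := Pi.single (Sum.inr a) 1

@[simp] lemma pl_apply (Z : Ix → ℝ) (i : Fin 6) : pl Z i = Z (Sum.inl i) := rfl
@[simp] lemma il_inl (z : V 6) (i : Fin 6) : il z (Sum.inl i) = z i := rfl
@[simp] lemma il_inr (z : V 6) (i : Fin 6) : il z (Sum.inr i) = 0 := rfl
@[simp] lemma pl_il (z : V 6) : pl (il z) = z := rfl
@[simp] lemma pl_er (a : Fin 6) : pl (er a) = 0 := by ext i; simp [er]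
lemma il_ev (i : Fin 6) : (Pi.single (Sum.inl i) 1 : Ix → ℝ) = il (ev i) := by
  ext (j | j) <;> simp [ev, Pi.single_apply]
lemma er_inr (a b : Fin 6) : er a (Sum.inr b) = if b = a then 1 else 0 := by
  simp [er, Pi.single_apply]

variable (f : Bs → V 7) (J : Fin 6 → V 7)

/-- Local sections of the bundle. -/
noncomputable def sc (a : Fin 6) (z : V 6) : V 7 := prj f (sph z) (J a)

/-- The adapted chart. -/
noncomputable def cht (Z : Ix → ℝ) : Am := (sph (pl Z), ∑ a, Z (Sum.inr a) • sc f J a (pl Z))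

lemma cht_il (z : V 6) : cht f J (il z) = (sph z, 0) := by simp [cht]

variable {f} {G : Met}

lemma sm_sc (hf : ContDiff ℝ ∞ f) (a : Fin 6) : ContDiff ℝ ∞ (sc f J a) :=
  contDiff_const.sub ((sm_dt (hf.comp sm_sph) contDiff_const).smul (hf.comp sm_sph))

lemma sc_perp (h : SoulLike f G) (a : Fin 6) (z : V 6) : f (sph z) ⬝ᵥ sc f J a z = 0 := by
  simp [sc, prj, h.unit _ (on_sph z)]

lemma sm_cht (hf : ContDiff ℝ ∞ f) : ContDiff ℝ ∞ (cht f J) :=
  (sm_sph.comp pl.contDiff).prodMk (ContDiff.sum fun a _ =>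
    (contDiff_apply ℝ ℝ (Sum.inr a : Ix)).smul ((sm_sc J hf a).comp pl.contDiff))

lemma d_cht (hf : ContDiff ℝ ∞ f) (Z U : Ix → ℝ) : fderiv ℝ (cht f J) Z U =
    (fderiv ℝ sph (pl Z) (pl U), ∑ a, (U (Sum.inr a) • sc f J a (pl Z) +
      Z (Sum.inr a) • fderiv ℝ (sc f J a) (pl Z) (pl U))) := by
  refine d_eq (sm_diff (sm_cht J hf) Z) ?_
  simp only [cht, map_add, map_smul]
  refine (hd (sm_diff sm_sph _) _).prodMk (HasDerivAt.fun_sum fun a _ => ?_)
  have l : HasDerivAt (fun t : ℝ => (Z + t • U) (Sum.inr a)) (U (Sum.inr a)) 0 := by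
    simpa using ((hasDerivAt_id (0 : ℝ)).mul_const (U (Sum.inr a))).const_add (Z (Sum.inr a))
  refine (l.fun_smul (hd (sm_diff (sm_sc J hf a) _) _)).congr_deriv ?_
  simp [add_comm]

lemma d_cht_il (hf : ContDiff ℝ ∞ f) (z x : V 6) :
    fderiv ℝ (cht f J) (il z) (il x) = (fderiv ℝ sph z x, 0) := by simp [d_cht J hf]

lemma d_cht_er (hf : ContDiff ℝ ∞ f) (Z : Ix → ℝ) (a : Fin 6) :
    fderiv ℝ (cht f J) Z (er a) = (0, sc f J a (pl Z)) := by simp [d_cht J hf, er_inr]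

lemma gm_symm (h : SoulLike f G) (φ : (Ix → ℝ) → Am) (w : Ix → ℝ) (i j : Ix) :
    gm G φ w i j = gm G φ w j i := h.symm _ _ _

lemma sm_gm (h : SoulLike f G) (i j : Ix) : ContDiff ℝ ∞ fun w => gm G (cht f J) w i j :=
  ((h.smooth_G.comp (sm_cht J h.smooth_f)).clm_apply (sm_d (sm_cht J h.smooth_f) _)).clm_apply
    (sm_d (sm_cht J h.smooth_f) _)

lemma tan_sph (z x : V 6) : Tan (sph z) (fderiv ℝ sph z x) := tan_of sm_sph on_sph z x

lemma gm_tt (h : SoulLike f G) (z : V 6) (i j : Fin 6) :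
    gm G (cht f J) (il z) (Sum.inl i) (Sum.inl j) =
      G (sph z, 0) (fderiv ℝ sph z (ev i), 0) (fderiv ℝ sph z (ev j), 0) := by
  rw [gm, Matrix.of_apply, il_ev, il_ev, d_cht_il J h.smooth_f, d_cht_il J h.smooth_f, cht_il]

lemma gm_tn (h : SoulLike f G) (z : V 6) (i a : Fin 6) :
    gm G (cht f J) (il z) (Sum.inl i) (Sum.inr a) = 0 := by
  rw [gm, Matrix.of_apply, il_ev, d_cht_il J h.smooth_f, cht_il]
  exact (congrArg _ (d_cht_er J h.smooth_f _ a)).trans
    (h.normal _ _ _ (on_sph z) (tan_sph z _) (sc_perp J h a z))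

lemma gm_nn (h : SoulLike f G) (z : V 6) (a b : Fin 6) :
    gm G (cht f J) (il z) (Sum.inr a) (Sum.inr b) = sc f J a z ⬝ᵥ sc f J b z := by
  have h1 := d_cht_er J h.smooth_f (il z)
  simp only [er] at h1
  rw [gm, Matrix.of_apply, h1, h1, cht_il]
  exact h.fibre _ _ _ (on_sph z) (sc_perp J h a z) (sc_perp J h b z)

lemma pd_inl {k : (Ix → ℝ) → ℝ} (hk : ContDiff ℝ ∞ k) (i : Fin 6) (z : V 6) :
    pd k (Sum.inl i) (il z) = fderiv ℝ (fun z => k (il z)) z (ev i) := by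
  rw [pd, il_ev, d_comp (sm_diff hk _) il.differentiableAt, il.fderiv]

lemma pd_inr (h : SoulLike f G) (z : V 6) (j a b : Fin 6) :
    pd (fun w => gm G (cht f J) w (Sum.inl j) (Sum.inr b)) (Sum.inr a) (il z) =
      k0 f G (sph z) (fderiv ℝ sph z (ev j)) (sc f J a z) (sc f J b z) +
        sc f J b z ⬝ᵥ fderiv ℝ (sc f J a) z (ev j) := by
  have hf := h.smooth_f
  have hF : ContDiff ℝ ∞ fun z => f (sph z) := hf.comp sm_sph
  refine d_eq (sm_diff (sm_gm J h _ _) _) ?_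
  have e : ∀ t : ℝ, gm G (cht f J) (il z + t • Pi.single (Sum.inr a) 1) (Sum.inl j) (Sum.inr b) =
      G ((sph z, 0) + t • (0, sc f J a z)) (0, sc f J b z)
        ((fderiv ℝ sph z (ev j), 0) + t • (0, fderiv ℝ (sc f J a) z (ev j))) := fun t => by
    have h1 := d_cht_er J hf (il z + t • er a) b
    simp only [er] at h1
    rw [gm, Matrix.of_apply, h.symm, h1, il_ev, d_cht J hf]
    have h2 := pl_er a
    have h3 := er_inr a
    simp only [er] at h2 h3
    simp [cht, h2, h3]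
  simp only [e]
  have l : ∀ x y : Am, HasDerivAt (fun t : ℝ => x + t • y) y 0 := fun x y => by
    simpa using ((hasDerivAt_id (0 : ℝ)).smul_const y).const_add x
  refine (((hd (sm_diff h.smooth_G _) _).clm_apply (hasDerivAt_const _ _)).clm_apply
    (l _ _)).congr_deriv ?_
  have p1 := d_dt hF (sm_sc J hf a) z (ev j)
  simp only [sc_perp J h a] at p1
  rw [fderiv_fun_const, d_comp (sm_diff hf _) (sm_diff sm_sph z)] at p1
  have p2 : f (sph z) ⬝ᵥ prj f (sph z) (fderiv ℝ (sc f J a) z (ev j)) = 0 := by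
    simp [prj, h.unit _ (on_sph z)]
  have p3 := h.fibre _ _ _ (on_sph z) (sc_perp J h b z) p2
  have p4 := sc_perp J h b z
  rw [dotProduct_comm] at p4
  have p5 : ∀ u v : V 7, (((0 : Bs), u - v) : Am) = (0, u) - (0, v) := fun u v => by simp
  rw [prj, p5, mk_smul, map_sub, map_smul, dotProduct_sub, dotProduct_smul, p4,
    h.symm _ _ (0, f (sph z))] at p3
  simp only [Pi.zero_apply, _root_.zero_apply, smul_eq_mul, mul_zero, sub_zero] at p1 p3
  simp only [zero_smul, add_zero, map_zero, k0]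
  rw [← p3, eq_neg_of_add_eq_zero_left p1.symm]
  ring

lemma chr_tnn (h : SoulLike f G) (z : V 6) (j a b : Fin 6) :
    chr (gm G (cht f J)) (Sum.inl j) (Sum.inr a) (Sum.inr b) (il z) =
      sc f J b z ⬝ᵥ cov (pull sph (con f G)) (sc f J a) (ev j) z := by
  have hf := h.smooth_f
  rw [chr, pd_inr J h, pd_inr J h, pd_inl (sm_gm J h _ _)]
  simp only [gm_nn J h]
  rw [d_dt (sm_sc J hf a) (sm_sc J hf b), cov, dotProduct_add, pull_apply,
    con_dot f G _ _ (sc_perp J h a z) (sc_perp J h b z), dotProduct_comm (fderiv ℝ _ _ _)]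
  ring

/-- A frame of the fibre over `sph z`. -/
structure Fr (f : Bs → V 7) (J : Fin 6 → V 7) (z : V 6) : Prop where
  box : z ∈ Box
  perp : ∀ a, f (sph z) ⬝ᵥ J a = 0
  orth : ∀ a b, J a ⬝ᵥ J b = if a = b then 1 else 0
  comp : ∀ v w, v ⬝ᵥ w = (f (sph z) ⬝ᵥ v) * (f (sph z) ⬝ᵥ w) + ∑ a, (J a ⬝ᵥ v) * (J a ⬝ᵥ w)

variable {J} {z : V 6}

lemma Fr.sc_eq (F : Fr f J z) (a : Fin 6) : sc f J a z = J a := by simp [sc, prj, F.perp]

lemma is_chart (h : SoulLike f G) (F : Fr f J z) : IsChart f (cht f J) (il z) := by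
  refine ⟨sm_cht J h.smooth_f, Eventually.of_forall fun w => ⟨on_sph _, ?_⟩, ?_⟩
  · simp [cht, dotProduct_sum, sc_perp J h]
  · refine (injective_iff_map_eq_zero _).2 fun U hU => ?_
    rw [d_cht J h.smooth_f, Prod.mk_eq_zero] at hU
    have h1 := sph_inj F.box hU.1
    ext (i | b)
    · exact congrFun h1 i
    · have h2 := congrArg (fun v => v ⬝ᵥ J b) hU.2
      simpa [F.sc_eq, sum_dotProduct, F.orth] using h2

/-- The tangential block of the metric. -/
noncomputable def gT (G : Met) (z : V 6) : Matrix (Fin 6) (Fin 6) ℝ :=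
  Matrix.of fun i j => G (sph z, 0) (fderiv ℝ sph z (ev i), 0) (fderiv ℝ sph z (ev j), 0)

lemma sum_ev (x : V 6) : ∑ i, x i • ev i = x := by
  ext j; simp [ev, Finset.sum_apply, Pi.single_apply]

lemma gT_mulVec (G : Met) (z x : V 6) (i : Fin 6) :
    (gT G z *ᵥ x) i = G (sph z, 0) (fderiv ℝ sph z (ev i), 0) (fderiv ℝ sph z x, 0) := by
  have e : ∀ y, ((fderiv ℝ sph z y, (0 : V 7)) : Am) =
    ContinuousLinearMap.inl ℝ Bs (V 7) (fderiv ℝ sph z y) := fun _ => rfl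
  simp only [gT, e]
  conv_rhs => rw [← sum_ev x]
  simp only [map_sum, map_smul, Matrix.mulVec, dotProduct, Matrix.of_apply, smul_eq_mul, mul_comm]

lemma gT_dot (G : Met) (z x y : V 6) :
    x ⬝ᵥ gT G z *ᵥ y = G (sph z, 0) (fderiv ℝ sph z x, 0) (fderiv ℝ sph z y, 0) := by
  have e : ∀ y, ((fderiv ℝ sph z y, (0 : V 7)) : Am) =
    ContinuousLinearMap.inl ℝ Bs (V 7) (fderiv ℝ sph z y) := fun _ => rfl
  simp only [dotProduct, gT_mulVec, e]
  conv_rhs => rw [← sum_ev x]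
  simp only [map_sum, map_smul, _root_.sum_apply, _root_.smul_apply, smul_eq_mul]

lemma gT_unit (h : SoulLike f G) (hz : z ∈ Box) : IsUnit (gT G z).det := by
  refine isUnit_iff_ne_zero.2 fun h0 => ?_
  obtain ⟨x, hx, h1⟩ := Matrix.exists_mulVec_eq_zero_iff.2 h0
  have := h.pos _ _ (on_sph z) (tan_sph z x) fun e => hx (sph_inj hz e)
  rw [← gT_dot, h1, dotProduct_zero] at this
  exact lt_irrefl _ this

lemma gm_inv (h : SoulLike f G) (F : Fr f J z) :
    (gm G (cht f J) (il z))⁻¹ = Matrix.fromBlocks (gT G z)⁻¹ 0 0 1 := by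
  have : gm G (cht f J) (il z) = Matrix.fromBlocks (gT G z) 0 0 1 := by
    ext (i | i) (j | j)
    · exact gm_tt J h z i j
    · exact gm_tn J h z i j
    · rw [gm_symm h]; exact gm_tn J h z j i
    · rw [gm_nn J h, F.sc_eq, F.sc_eq, F.orth]; rfl
  rw [this]
  refine Matrix.inv_eq_right_inv ?_
  simp [Matrix.fromBlocks_multiply, Matrix.mul_nonsing_inv _ (gT_unit h F.box)]

lemma chr_ttn (h : SoulLike f G) (F : Fr f J z) (i j a : Fin 6) :
    chr (gm G (cht f J)) (Sum.inl i) (Sum.inl j) (Sum.inr a) (il z) = 0 := by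
  have := h.geod _ _ (is_chart h F) (fun _ => rfl)
    (Eventually.of_forall fun w hw => by simp [cht, hw]) i j a
  simpa [gm_inv h F, Fintype.sum_sum_type, Matrix.one_apply] using this

lemma chr_tnt (h : SoulLike f G) (F : Fr f J z) (i j a : Fin 6) :
    chr (gm G (cht f J)) (Sum.inl i) (Sum.inr a) (Sum.inl j) (il z) = 0 := by
  have := chr_add (gm_symm h (cht f J)) (Sum.inl i) (Sum.inl j) (Sum.inr a) (il z)
  rw [chr_ttn h F, pd_inl (sm_gm J h _ _), zero_add] at this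
  simpa [gm_tn J h] using this

lemma riem_ttnn (h : SoulLike f G) (F : Fr f J z) (i j a b : Fin 6) :
    riem (gm G (cht f J)) (Sum.inl i) (Sum.inl j) (Sum.inr a) (Sum.inr b) (il z) =
      J b ⬝ᵥ mv (curv (pull sph (con f G)) z (ev i) (ev j)) (J a) := by
  have hf := h.smooth_f
  have hB := sm_pull sm_sph (sm_con hf h.smooth_G)
  have hs : ∀ X, tr (pull sph (con f G) z X) = -pull sph (con f G) z X := fun X => con_skew _ _ _ _
  have hp : ∀ a X, f (sph z) ⬝ᵥ cov (pull sph (con f G)) (sc f J a) X z = 0 := fun a X => by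
    have p1 := d_dt (a := fun z => f (sph z)) (hf.comp sm_sph) (sm_sc J hf a) z X
    simp only [sc_perp J h a] at p1
    have p2 := con_par G hf h.unit z X
    rw [cov] at p2
    rw [cov, dotProduct_add, dot_mv, hs, map_neg, _root_.neg_apply,
      ← eq_neg_of_add_eq_zero_left p2, add_comm, ← p1]
    simp
  rw [riem, pd_inl (sm_chr (sm_gm J h) _ _ _), pd_inl (sm_chr (sm_gm J h) _ _ _)]
  simp only [chr_tnn J h, gm_inv h F, Fintype.sum_sum_type, chr_tnt h F]
  rw [ricci hB (sm_sc J hf a) (sm_sc J hf b) z hs, F.comp (cov _ _ (ev i) z),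
    F.comp (cov _ _ (ev j) z)]
  simp only [hp, F.sc_eq, Matrix.fromBlocks_apply₂₂, Matrix.fromBlocks_apply₁₂,
    Matrix.fromBlocks_apply₂₁, Matrix.one_apply, Matrix.zero_apply, zero_mul, mul_zero, sub_self,
    Finset.sum_const_zero, ite_mul, one_mul, Finset.sum_ite_eq, Finset.mem_univ, if_true, zero_add,
    add_zero, Finset.sum_sub_distrib]
  simp only [mul_comm (J _ ⬝ᵥ cov _ (sc f J b) _ z)]
  ring

lemma Q4_sec (g : (Ix → ℝ) → Matrix Ix Ix ℝ) (w u v : Ix → ℝ) :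
    Q4 (fun i j k l => riem g i j k l w) u v v u = secNum g w u v := by rw [Q4_apply, secNum]

lemma Q4_zero (h : SoulLike f G) (F : Fr f J z) (x y : V 6)
    (H : secNum (gm G (cht f J)) (il z) (il x) (il y) = 0) (a b : Fin 6) :
    Q4 (fun i j k l => riem (gm G (cht f J)) i j k l (il z)) (il x) (il y) (er a) (er b) = 0 := by
  have hf := h.smooth_f
  refine flat_alg _ (Q4_12 fun i j k l => riem_12 i j k l _)
    (Q4_34 fun i j k l => riem_34 (sm_gm J h) (gm_symm h _) i j k l _)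
    (Q4_b fun i j k l => riem_b (gm_symm h _) i j k l _)
    (fun u v => by rw [Q4_sec]; exact h.sec _ _ (is_chart h F) (by rw [cht_il]) u v)
    (fun u => ∃ x, u = il x) (fun u => pl u = 0) ?_ (fun u v hu hv => by simp [hu, hv]) ?_
    ⟨x, rfl⟩ ⟨y, rfl⟩ (pl_er a) (pl_er b) (by rw [Q4_sec]; exact H)
  · rintro _ _ ⟨u, rfl⟩ ⟨v, rfl⟩
    exact ⟨u + v, (map_add _ _ _).symm⟩
  · rintro _ v ⟨u, rfl⟩ hv
    rw [Q4_sec]
    refine h.mixed (sph z) (fderiv ℝ sph z u) (∑ a, v (Sum.inr a) • J a) (on_sph z) (tan_sph z u)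
      (by simp [dotProduct_sum, F.perp]) _ _ _ _ (is_chart h F) (cht_il _ _ _)
      (d_cht_il J hf _ _) ?_
    simp [d_cht J hf, hv, F.sc_eq]

lemma bil_sum (R : (Ix → ℝ) →ₗ[ℝ] (Ix → ℝ) →ₗ[ℝ] (Ix → ℝ) →ₗ[ℝ] (Ix → ℝ) →ₗ[ℝ] ℝ)
    (C : V 6 →ₗ[ℝ] V 6 →ₗ[ℝ] Mx) (p q : Ix → ℝ) (u v : V 7)
    (e : ∀ i j, R (il (ev i)) (il (ev j)) p q = u ⬝ᵥ mv (C (ev i) (ev j)) v) (x y : V 6) :
    R (il x) (il y) p q = u ⬝ᵥ mv (C x y) v := by
  rw [← sum_ev x, ← sum_ev y]
  simp only [map_sum, map_smul, LinearMap.sum_apply, LinearMap.smul_apply, _root_.sum_apply,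
    _root_.smul_apply, dotProduct_sum, dotProduct_smul, e]

lemma Q4_ev (r : Ix → Ix → Ix → Ix → ℝ) (i j a b : Fin 6) :
    Q4 r (il (ev i)) (il (ev j)) (er a) (er b) =
      r (Sum.inl i) (Sum.inl j) (Sum.inr a) (Sum.inr b) := by
  rw [← il_ev, ← il_ev, er, er, Q4_single]

lemma Q4_curv (h : SoulLike f G) (F : Fr f J z) (x y : V 6) (a b : Fin 6) :
    Q4 (fun i j k l => riem (gm G (cht f J)) i j k l (il z)) (il x) (il y) (er a) (er b) =
      J b ⬝ᵥ mv (curv (pull sph (con f G)) z x y) (J a) :=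
  bil_sum _ _ _ _ _ _ (fun i j => (Q4_ev _ i j a b).trans (riem_ttnn h F i j a b)) x y

theorem curv_zero (h : SoulLike f G) (hz : z ∈ Box) (x y : V 6)
    (H : ∀ J, Fr f J z → secNum (gm G (cht f J)) (il z) (il x) (il y) = 0) :
    curv (pull sph (con f G)) z x y = 0 := by
  have hf := h.smooth_f
  have hB := sm_pull sm_sph (sm_con hf h.smooth_G)
  obtain ⟨J, j1, j2, j3⟩ := exists_frame (h.unit _ (on_sph z))
  have F : Fr f J z := ⟨hz, j1, j2, j3⟩
  have k2 : ∀ a b, J b ⬝ᵥ mv (curv (pull sph (con f G)) z x y) (J a) = 0 := fun a b => by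
    rw [← Q4_curv h F, Q4_zero h F x y (H J F)]
  have hs : ∀ z X, tr (pull sph (con f G) z X) = -pull sph (con f G) z X :=
    fun z X => con_skew _ _ _ _
  have k3 : ∀ w, w ⬝ᵥ mv (curv (pull sph (con f G)) z x y) (f (sph z)) = 0 := fun w => by
    have := ricci (a := fun z => f (sph z)) (b := fun _ => w) hB (hf.comp sm_sph) contDiff_const z
      (hs z) x y
    simpa [con_par G hf h.unit] using this.symm
  have k4 : ∀ w, f (sph z) ⬝ᵥ mv (curv (pull sph (con f G)) z x y) w = 0 := fun w => by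
    rw [dot_mv, curv_skew hB hs, map_neg, _root_.neg_apply, neg_dotProduct, dotProduct_comm, k3,
      neg_zero]
  refine mx_ext fun v w => ?_
  rw [j3, k4, mul_zero, zero_add]
  refine Finset.sum_eq_zero fun b _ => mul_eq_zero_of_right _ ?_
  rw [dot_mv, j3, dotProduct_comm (f _), ← dot_mv]
  simp only [dotProduct_comm (J _) (mv (tr _) _), ← dot_mv, k2, k3]
  simp

end Pool.Agent.P.MP_467c2e_gt
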