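import Pool.Agent.P.MP_467c2e_gt.Frm

/-! The normal connection of the zero section, extended so that `f` is parallel. -/

open Matrix Set Real
open scoped ContDiff

namespace Pool.Agent.P.MP_467c2e_gt

/-- Projection to the orthogonal complement of `f q`. -/
noncomputable def prj (f : Bs → V 7) (q : Bs) (a : V 7) : V 7 := a - (f q ⬝ᵥ a) • f q

lemma prj_add (f : Bs → V 7) (q : Bs) (a b : V 7) : prj f q (a + b) = prj f q a + prj f q b := by
  simp only [prj, dotProduct_add, add_smul]; abel
lemma prj_smul (f : Bs → V 7) (q : Bs) (c : ℝ) (a : V 7) : prj f q (c • a) = c • prj f q a := by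
  simp only [prj, dotProduct_smul, smul_sub, smul_smul, smul_eq_mul]

lemma mk_add (a b : V 7) : (((0 : Bs), a + b) : Am) = (0, a) + (0, b) := by simp
lemma mk_smul (c : ℝ) (a : V 7) : (((0 : Bs), c • a) : Am) = c • (0, a) := by simp
lemma mk_add' (a b : Bs) : ((a + b, (0 : V 7)) : Am) = (a, 0) + (b, 0) := by simp
lemma mk_smul' (c : ℝ) (a : Bs) : ((c • a, (0 : V 7)) : Am) = c • (a, 0) := by simp

/-- The first order part of the metric that enters the normal connection. -/
noncomputable def k0 (f : Bs → V 7) (G : Met) (q X : Bs) (a b : V 7) : ℝ :=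
  fderiv ℝ G (q, 0) (0, a) (0, b) (X, 0) - (fderiv ℝ f q X ⬝ᵥ a) * G (q, 0) (0, f q) (0, b)

/-- The skew form of the difference between the normal and the standard connection. -/
noncomputable def kb (f : Bs → V 7) (G : Met) (q X : Bs) : V 7 →ₗ[ℝ] V 7 →ₗ[ℝ] ℝ :=
  LinearMap.mk₂ ℝ
    (fun w v => (k0 f G q X (prj f q v) (prj f q w) - k0 f G q X (prj f q w) (prj f q v)) / 2)
    (fun _ _ _ => by
      simp only [k0, prj_add, mk_add, map_add, _root_.add_apply, dotProduct_add]; ring)
    (fun _ _ _ => by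
      simp only [k0, prj_smul, mk_smul, map_smul, _root_.smul_apply, dotProduct_smul, smul_eq_mul]
      ring)
    (fun _ _ _ => by
      simp only [k0, prj_add, mk_add, map_add, _root_.add_apply, dotProduct_add]; ring)
    (fun _ _ _ => by
      simp only [k0, prj_smul, mk_smul, map_smul, _root_.smul_apply, dotProduct_smul, smul_eq_mul]
      ring)

lemma kb_apply (f : Bs → V 7) (G : Met) (q X : Bs) (w v : V 7) : kb f G q X w v =
    (k0 f G q X (prj f q v) (prj f q w) - k0 f G q X (prj f q w) (prj f q v)) / 2 := rfl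

/-- The difference between the normal and the standard connection. -/
noncomputable def kap (f : Bs → V 7) (G : Met) (q : Bs) : Bs →L[ℝ] Mx :=
  LinearMap.toContinuousLinearMap
    { toFun := fun X => mat.symm (LinearMap.toMatrix₂' ℝ (kb f G q X))
      map_add' := fun X Y => by
        rw [← map_add, ← map_add]
        congr 2
        refine LinearMap.ext₂ fun w v => ?_
        simp only [LinearMap.add_apply, kb_apply, k0, mk_add', map_add, add_dotProduct]
        ring
      map_smul' := fun c X => by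
        rw [RingHom.id_apply, ← map_smul, ← map_smul]
        congr 2
        refine LinearMap.ext₂ fun w v => ?_
        simp only [LinearMap.smul_apply, kb_apply, k0, mk_smul', map_smul, smul_dotProduct,
          smul_eq_mul]
        ring }

lemma mat_kap (f : Bs → V 7) (G : Met) (q X : Bs) :
    mat (kap f G q X) = LinearMap.toMatrix₂' ℝ (kb f G q X) := mat.apply_symm_apply _

lemma dot_kap (f : Bs → V 7) (G : Met) (q X : Bs) (w v : V 7) :
    w ⬝ᵥ mv (kap f G q X) v = kb f G q X w v := by
  rw [← mat_mv, mat_kap, ← Matrix.toLinearMap₂'_apply', Matrix.toLinearMap₂'_toMatrix']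

lemma kap_skew (f : Bs → V 7) (G : Met) (q X : Bs) : tr (kap f G q X) = -kap f G q X := by
  refine mat.injective (Matrix.ext fun i j => ?_)
  rw [mat_tr, map_neg, mat_kap, Matrix.transpose_apply, Matrix.neg_apply,
    LinearMap.toMatrix₂'_apply, LinearMap.toMatrix₂'_apply, kb_apply, kb_apply]
  ring

lemma sm_kap {f : Bs → V 7} {G : Met} (hf : ContDiff ℝ ∞ f) (hG : ContDiff ℝ ∞ G) :
    ContDiff ℝ ∞ (kap f G) := by
  refine contDiff_clm_apply_iff.2 fun X => ?_
  let L : (Fin 7 → Fin 7 → ℝ) →L[ℝ] Mx := LinearMap.toContinuousLinearMap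
    (mat.symm.toLinearMap ∘ₗ (Matrix.ofLinearEquiv ℝ).toLinearMap)
  have hp : ∀ a, ContDiff ℝ ∞ fun q => prj f q a := fun a =>
    contDiff_const.sub ((sm_dt hf contDiff_const).smul hf)
  have h0 : ContDiff ℝ ∞ fun q : Bs => ((q, 0) : Am) := contDiff_id.prodMk contDiff_const
  have hk : ∀ a b, ContDiff ℝ ∞ fun q => k0 f G q X (prj f q a) (prj f q b) := fun a b =>
    (sm_app ((((sm_fd hG).comp h0).clm_apply (contDiff_const.prodMk (hp a))).clm_apply
      (contDiff_const.prodMk (hp b))) _).sub ((sm_dt (sm_d hf X) (hp a)).mul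
      (((hG.comp h0).clm_apply (contDiff_const.prodMk hf)).clm_apply
        (contDiff_const.prodMk (hp b))))
  have : (fun q => kap f G q X) =
      fun q => L fun i j => kb f G q X (Pi.single i 1) (Pi.single j 1) := rfl
  rw [this]
  exact L.contDiff.comp (contDiff_pi.2 fun i => contDiff_pi.2 fun j =>
    ((hk _ _).sub (hk _ _)).div_const 2)

/-- The normal connection. -/
noncomputable def con (f : Bs → V 7) (G : Met) (q : Bs) : Bs →L[ℝ] Mx := std f q + kap f G q

lemma con_apply (f : Bs → V 7) (G : Met) (q X : Bs) :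
    con f G q X = std f q X + kap f G q X := rfl

lemma sm_con {f : Bs → V 7} {G : Met} (hf : ContDiff ℝ ∞ f) (hG : ContDiff ℝ ∞ G) :
    ContDiff ℝ ∞ (con f G) := (sm_std hf).add (sm_kap hf hG)

lemma con_skew (f : Bs → V 7) (G : Met) (q X : Bs) : tr (con f G q X) = -con f G q X := by
  rw [con_apply, map_add, std_skew, kap_skew, neg_add]

lemma con_par {f : Bs → V 7} (G : Met) (hf : ContDiff ℝ ∞ f) (hu : ∀ q, OnS q → f q ⬝ᵥ f q = 1)
    (z X : V 6) : cov (pull sph (con f G)) (fun z => f (sph z)) X z = 0 := by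
  have h1 := cov_std (f := fun z => f (sph z)) (hf.comp sm_sph) (fun z => hu _ (on_sph z)) z X
  rw [← pull_std sm_sph hf, cov, pull_apply] at h1
  have h2 : mv (kap f G (sph z) (fderiv ℝ sph z X)) (f (sph z)) = 0 := by
    refine dotProduct_eq_zero _ fun w => ?_
    have : prj f (sph z) (f (sph z)) = 0 := by simp [prj, hu _ (on_sph z)]
    rw [dotProduct_comm, dot_kap, kb_apply, this]
    simp [k0, Prod.mk_zero_zero]
  rw [cov, pull_apply, con_apply, map_add, _root_.add_apply, h2, add_zero, h1]

lemma con_dot (f : Bs → V 7) (G : Met) (q X : Bs) {v w : V 7} (hv : f q ⬝ᵥ v = 0)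
    (hw : f q ⬝ᵥ w = 0) :
    w ⬝ᵥ mv (con f G q X) v = (k0 f G q X v w - k0 f G q X w v) / 2 := by
  have h1 : prj f q v = v := by simp [prj, hv]
  have h2 : prj f q w = w := by simp [prj, hw]
  rw [con_apply, map_add, _root_.add_apply, dotProduct_add, dot_kap, kb_apply, h1, h2, std_apply]
  simp [mv_vv, hv, dotProduct_comm w (f q), hw]

end Pool.Agent.P.MP_467c2e_gt
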