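import Pool.Agent.P.MP_467c2e_gt.Form
import Pool.Agent.P.MP_e5acfa_ag.CFlow

/-! Parallel transport along the first coordinate depends smoothly on all variables. -/

open Matrix Set
open scoped ContDiff

namespace Pool.Agent.P.MP_467c2e_gt

lemma orth_bdd : ∃ C : ℝ, ∀ Q : Mx, tr Q * Q = 1 → ‖Q‖ ≤ C := by
  let L : (Fin 7 → Fin 7 → ℝ) →L[ℝ] Mx := LinearMap.toContinuousLinearMap
    (mat.symm.toLinearMap ∘ₗ (Matrix.ofLinearEquiv ℝ).toLinearMap)
  refine ⟨‖L‖ * 1, fun Q hQ => ?_⟩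
  have h1 : L (fun i j => mat Q i j) = Q := mat.symm_apply_apply Q
  rw [← h1]
  refine L.le_of_opNorm_le_of_le le_rfl ((pi_norm_le_iff_of_nonneg zero_le_one).2 fun i =>
    (pi_norm_le_iff_of_nonneg zero_le_one).2 fun j => ?_)
  have h2 := congrFun (congrFun (congrArg mat hQ) j) j
  rw [mat_mul, mat_tr, mat_one, Matrix.mul_apply, Matrix.one_apply_eq] at h2
  have h3 := Finset.single_le_sum (f := fun k => (mat Q)ᵀ j k * mat Q k j)
    (fun k _ => mul_self_nonneg _) (Finset.mem_univ i)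
  rw [h2] at h3
  exact abs_le_one_iff_mul_self_le_one.2 h3

variable {K : Type} [NormedAddCommGroup K] [NormedSpace ℝ K] [FiniteDimensional ℝ K]

theorem exists_transport {a : ℝ × K → Mx} (ha : ContDiff ℝ ∞ a) (hs : ∀ w, tr (a w) = -a w)
    (R : ℝ) (hR : 0 < R) : ∃ P : ℝ × K → Mx, ContDiff ℝ ∞ P ∧ (∀ w, tr (P w) * P w = 1) ∧
      (∀ v, P (0, v) = 1) ∧ ∀ w, ‖w‖ < R → fderiv ℝ P w (1, 0) = -(a w * P w) := by
  obtain ⟨C, hC⟩ := orth_bdd
  have : CompleteSpace K := FiniteDimensional.complete ℝ K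
  let χ : ContDiffBump (0 : (ℝ × K) × Mx) :=
    ⟨max R C, max R C + 1, lt_max_of_lt_left hR, by linarith⟩
  let U : (ℝ × K) × Mx → (ℝ × K) × Mx := fun p => χ p • ((1, 0), -(a p.1 * p.2))
  have hU : ContDiff ℝ ∞ U := χ.contDiff.smul
    (contDiff_const.prodMk ((ha.comp contDiff_fst).mul contDiff_snd).neg)
  have hc : HasCompactSupport U := χ.hasCompactSupport.smul_right
  obtain ⟨fl, h1, h2, h3, -⟩ := Pool.Agent.P.MP_e5acfa_ag.PkgC.exists_flow hU hc
  have hP : ContDiff ℝ ∞ fun w : ℝ × K => (fl (w.1, ((0, w.2), 1))).2 :=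
    contDiff_snd.comp (h1.comp (contDiff_fst.prodMk
      ((contDiff_const.prodMk contDiff_snd).prodMk contDiff_const)))
  have dQ : ∀ x t, HasDerivAt (fun s => (fl (s, x)).2)
      (χ (fl (t, x)) • -(a (fl (t, x)).1 * (fl (t, x)).2)) t := fun x t =>
    (ContinuousLinearMap.snd ℝ (ℝ × K) Mx).hasFDerivAt.comp_hasDerivAt t (h3 x t)
  have dr : ∀ x t, HasDerivAt (fun s => (fl (s, x)).1.1) (χ (fl (t, x)) • (1 : ℝ)) t := fun x t =>
    ((ContinuousLinearMap.fst ℝ ℝ K).comp (ContinuousLinearMap.fst ℝ (ℝ × K) Mx)).hasFDerivAt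
      |>.comp_hasDerivAt t (h3 x t)
  have dv : ∀ x t, HasDerivAt (fun s => (fl (s, x)).1.2) (χ (fl (t, x)) • (0 : K)) t := fun x t =>
    ((ContinuousLinearMap.snd ℝ ℝ K).comp (ContinuousLinearMap.fst ℝ (ℝ × K) Mx)).hasFDerivAt
      |>.comp_hasDerivAt t (h3 x t)
  have ho : ∀ (v : K) t, tr (fl (t, ((0, v), 1))).2 * (fl (t, ((0, v), 1))).2 = 1 := by
    intro v t
    have d : ∀ t, HasDerivAt
        (fun s => tr (fl (s, ((0, v), 1))).2 * (fl (s, ((0, v), 1))).2) 0 t := fun t => by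
      refine ((tr.hasFDerivAt.comp_hasDerivAt t (dQ _ t)).mul (dQ _ t)).congr_deriv ?_
      simp only [Function.comp, map_smul, map_neg, tr_mul, hs, smul_mul_assoc, mul_smul_comm,
        ← smul_add]
      rw [smul_eq_zero]
      right
      noncomm_ring
    have := is_const_of_deriv_eq_zero (fun t => (d t).differentiableAt) (fun t => (d t).deriv) t 0
    rw [this, h2, tr_one, mul_one]
  have hv : ∀ (v : K) t, (fl (t, ((0, v), 1))).1.2 = v := by
    intro v t
    have := is_const_of_deriv_eq_zero (fun t => (dv ((0, v), 1) t).differentiableAt)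
      (fun t => by rw [(dv _ t).deriv, smul_zero]) t 0
    rw [this, h2]
  have hr : ∀ (v : K) t, ‖(fl (t, ((0, v), 1))).1.1‖ ≤ ‖t‖ := by
    intro v t
    have := convex_univ.norm_image_sub_le_of_norm_hasDerivWithin_le (C := 1)
      (fun t _ => (dr ((0, v), 1) t).hasDerivWithinAt)
      (fun t _ => by
        rw [smul_eq_mul, mul_one, Real.norm_of_nonneg χ.nonneg]; exact χ.le_one)
      (mem_univ 0) (mem_univ t)
    simpa [h2] using this
  have h1χ : ∀ (v : K) t, ‖v‖ < R → ‖t‖ < R → χ (fl (t, ((0, v), 1))) = 1 := by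
    intro v t h4 h5
    refine χ.one_of_mem_closedBall ?_
    rw [mem_closedBall_zero_iff, Prod.norm_def, Prod.norm_def, hv]
    exact max_le_max (max_le ((hr v t).trans h5.le) h4.le) (hC _ (ho v t))
  have ht : ∀ (v : K) t, ‖v‖ < R → ‖t‖ < R → (fl (t, ((0, v), 1))).1.1 = t := by
    intro v t h4 h5
    have := (convex_ball (0 : ℝ) R).norm_image_sub_le_of_norm_hasDerivWithin_le (C := 0)
      (f' := fun _ => 0)
      (fun s hs => (((dr ((0, v), 1) s).sub (hasDerivAt_id s)).congr_deriv (by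
        rw [h1χ v s h4 (mem_ball_zero_iff.1 hs)]; simp)).hasDerivWithinAt)
      (fun _ _ => by simp) (Metric.mem_ball_self hR) (mem_ball_zero_iff.2 h5)
    simpa [h2, sub_eq_zero] using this
  refine ⟨_, hP, fun w => ho _ _, fun v => by simp only [h2], fun w hw => ?_⟩
  have h4 : ‖w.2‖ < R := (norm_snd_le w).trans_lt hw
  have h5 : ‖w.1‖ < R := (norm_fst_le w).trans_lt hw
  refine d_eq (sm_diff hP w) ?_
  have d := dQ ((0, w.2), 1) w.1
  rw [h1χ _ _ h4 h5, one_smul,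
    show (fl (w.1, ((0, w.2), 1))).1 = w from Prod.ext (ht _ _ h4 h5) (hv _ _)] at d
  have d2 := HasDerivAt.comp_const_add w.1 0 (by rwa [add_zero])
  simpa using d2

end Pool.Agent.P.MP_467c2e_gt
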