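import Pool.Agent.P.MP_467c2e_gt.Sph
import Pool.Agent.P.MP_467c2e_gt.Ode

/-! The bundle theorem: a connection that is flat on the meridian planes forces degree zero. -/

open Matrix Set Real Filter Topology MeasureTheory
open scoped ContDiff

namespace Pool.Agent.P.MP_467c2e_gt

section
variable {E : Type} [NormedAddCommGroup E] [NormedSpace ℝ E]
variable {K : Type} [NormedAddCommGroup K] [NormedSpace ℝ K]

lemma cov_pull {τ : K → E} (B : E → E →L[ℝ] Mx) {a : E → V 7} (hτ : ContDiff ℝ ∞ τ)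
    (ha : ContDiff ℝ ∞ a) (X z : K) :
    cov (pull τ B) (fun z => a (τ z)) X z = cov B a (fderiv ℝ τ z X) (τ z) := by
  rw [cov, cov, pull_apply, d_comp (sm_diff ha _) (sm_diff hτ z)]

lemma cov_gauge {P : E → Mx} (B : E → E →L[ℝ] Mx) {a : E → V 7} (hP : ContDiff ℝ ∞ P)
    (ho : ∀ x, tr (P x) * P x = 1) (ha : ContDiff ℝ ∞ a) (X x : E) :
    cov (gauge P B) (fun y => mv (tr (P y)) (a y)) X x = mv (tr (P x)) (cov B a X x) := by
  rw [cov, cov, d_bil mv (sm_tr hP) ha, d_clm tr (sm_diff hP x), d_orth hP ho, gauge_apply,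
    ← mv_mul, mul_add, add_mul, mul_assoc (tr (P x)) (B x X * P x), mul_assoc (B x X),
    mul_tr_of (ho x), mul_one]
  simp only [map_add, map_neg, _root_.add_apply, _root_.neg_apply, mv_mul]
  abel

lemma eq_of_d {F : Type} [NormedAddCommGroup F] [NormedSpace ℝ F] [CompleteSpace F] {φ : ℝ → F}
    (hc : Continuous φ) {a b : ℝ} (hab : a ≤ b) (h : ∀ t ∈ Ioo a b, HasDerivAt φ 0 t) :
    φ b = φ a := by
  have := intervalIntegral.integral_eq_sub_of_hasDerivAt_of_le hab hc.continuousOn h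
    (intervalIntegrable_const (c := (0 : F)))
  rw [intervalIntegral.integral_zero] at this
  exact (sub_eq_zero.1 this.symm)

lemma hd_fst {F : Type} [NormedAddCommGroup F] [NormedSpace ℝ F] {h : ℝ × K → F}
    (hh : ContDiff ℝ ∞ h) (v : K) (t : ℝ) :
    HasDerivAt (fun s => h (s, v)) (fderiv ℝ h (t, v) (1, 0)) t :=
  (sm_diff hh (t, v)).hasFDerivAt.comp_hasDerivAt t
    ((hasDerivAt_id t).prodMk (hasDerivAt_const t v))

end

/-- Setting the height. -/
noncomputable def up (z : V 6) (r : ℝ) : V 6 := z + (r - z 0) • ev 0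

lemma up_zero (z : V 6) (r : ℝ) : up z r 0 = r := by simp [up, ev]
lemma nu_up (z : V 6) (r : ℝ) : nu (up z r) = nu z := nu_shift _ z
lemma tau_up (z : V 6) (r : ℝ) : tau (up z r) = (r, nu z) := by rw [tau, up_zero, nu_up]
lemma d_nu_up (z : V 6) (r : ℝ) : fderiv ℝ nu (up z r) = fderiv ℝ nu z := fd_shift (nu_shift _) z

lemma norm_unit {n : ℕ} {u : V n} (h : u ⬝ᵥ u = 1) : ‖u‖ ≤ 1 :=
  (pi_norm_le_iff_of_nonneg zero_le_one).2 fun i => abs_le_one_iff_mul_self_le_one.2 <| by
    rw [← h]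
    exact Finset.single_le_sum (f := fun k => u k * u k) (fun k _ => mul_self_nonneg _)
      (Finset.mem_univ i)

lemma norm_tau {z : V 6} (h : |z 0| < 4) : ‖tau z‖ < 4 :=
  max_lt h (max_lt ((norm_unit (s2_unit _ _)).trans_lt (by norm_num))
    ((norm_unit (pt_unit _ (s2_unit _ _))).trans_lt (by norm_num)))

lemma abs_lt_four {r : ℝ} (h0 : 0 ≤ r) (h1 : r ≤ π) : |r| < 4 := by
  rw [abs_of_nonneg h0]; exact h1.trans_lt pi_lt_four

/-- The open coordinate box. -/
def Box : Set (V 6) := Set.pi univ fun i => Ioo 0 (top i)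

theorem core {f : Bs → V 7} {Γ : Bs → Bs →L[ℝ] Mx} (hf : ContDiff ℝ ∞ f) (hΓ : ContDiff ℝ ∞ Γ)
    (hu : ∀ q, OnS q → f q ⬝ᵥ f q = 1) (hs : ∀ q X, tr (Γ q X) = -Γ q X)
    (hp : ∀ z X, cov (pull sph Γ) (fun z => f (sph z)) X z = 0)
    (hF : ∀ z ∈ Box, ∀ j : Fin 6, ¬ j.val < 3 → ∃ α β : ℝ, ∀ r ∈ Ioo 0 π,
      curv (pull sph Γ) (up z r) (ev 0) (ev j + α • ev 1 + β • ev 2) = 0) : degInt f = 0 := by
  have hF0 : ContDiff ℝ ∞ fun z => f (sph z) := hf.comp sm_sph
  have st1 : IPf top sph (std f) (fun z => f (sph z)) = IPf top sph Γ fun z => f (sph z) :=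
    hom sm_sph (sm_std hf) hΓ hF0 top top_pos (std_skew f) hs
      (fun z _ j => by rw [pull_std sm_sph hf]; exact cov_std hF0 (fun z => hu _ (on_sph z)) _ _)
      (fun z _ j => hp z _) (faces_sph _ _ f)
  have hB := sm_pull sm_sig hΓ
  have hBs : ∀ w X, tr (pull sig Γ w X) = -pull sig Γ w X := fun w X => hs _ _
  obtain ⟨P, hP, ho, hP0, hP1⟩ := exists_transport (sm_app hB (1, 0)) (fun w => hBs w _) 4 four_pos
  set A := gauge P (pull sig Γ) with hAd
  have hA : ContDiff ℝ ∞ A := sm_gauge hP hB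
  have hAs : ∀ w X, tr (A w X) = -A w X := fun w X => gauge_skew hP ho w X (hBs w X)
  have hA1 : ∀ w, ‖w‖ < 4 → A w (1, 0) = 0 := fun w hw => by
    rw [hAd, gauge_apply, hP1 w hw, add_neg_cancel, mul_zero]
  have hps : pull tau (pull sig Γ) = pull sph Γ := by
    ext1 z
    ext1 X
    rw [pull_apply, pull_apply, pull_apply, d_sph, sph_eq]
  have hC : ∀ z X Y, curv A (tau z) (fderiv ℝ tau z X) (fderiv ℝ tau z Y) =
      tr (P (tau z)) * curv (pull sph Γ) z X Y * P (tau z) := fun z X Y => by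
    rw [hAd, curv_gauge hP hB ho, ← curv_pull sm_tau hB, hps]
  have hfs : ContDiff ℝ ∞ fun w => f (sig w) := hf.comp sm_sig
  have hft : ContDiff ℝ ∞ fun w => mv (tr (P w)) (f (sig w)) := sm_bil mv (sm_tr hP) hfs
  have hpar : ∀ z X, cov A (fun w => mv (tr (P w)) (f (sig w))) (fderiv ℝ tau z X) (tau z) = 0 :=
    fun z X => by
      rw [hAd, cov_gauge _ hP ho hfs, ← cov_pull _ sm_tau hfs, hps]
      rw [show (fun z => f (sig (tau z))) = fun z => f (sph z) from rfl, hp, map_zero]
  have hdet : ∀ w, dtm (P w) = 1 := by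
    intro w
    have hc0 : Continuous fun t : ℝ => P (t, w.2) :=
      hP.continuous.comp (continuous_id.prodMk continuous_const)
    have hc : Continuous fun t : ℝ => dtm (P (t, w.2)) := cont_dtm.comp' hc0
    rcases isPreconnected_univ.eq_one_or_eq_neg_one_of_sq_eq hc.continuousOn
      (fun t _ => by simpa [sq] using dtm_sq (ho (t, w.2))) with h | h
    · exact h (mem_univ w.1)
    · have := h (mem_univ 0)
      simp only [hP0, dtm_one, Pi.neg_apply, Pi.one_apply] at this
      norm_num at this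
  have hg2 : ContDiff ℝ ∞ fun w : ℝ × (V 3 × V 4) => f (sig (0, w.2)) :=
    hfs.comp (contDiff_const.prodMk contDiff_snd)
  have hg : ContDiff ℝ ∞ fun z => f (sig (0, (tau z).2)) := hg2.comp sm_tau
  have hgf : ∀ z : V 6, |z 0| < 4 →
      mv (tr (P (tau z))) (f (sig (tau z))) = f (sig (0, (tau z).2)) := by
    intro z hz
    have := (convex_ball (0 : ℝ) 4).norm_image_sub_le_of_norm_hasDerivWithin_le (C := 0)
      (f' := fun _ => 0) (f := fun s => mv (tr (P (s, nu z))) (f (sig (s, nu z))))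
      (fun s hs => ((hd_fst hft (nu z) s).congr_deriv (by
        have h1 := hpar (up z s) (ev 0)
        have h2 : ‖tau (up z s)‖ < 4 := norm_tau (by rw [up_zero]; exact mem_ball_zero_iff.1 hs)
        rw [d_tau, d_nu_zero, cov, show ev (0 : Fin 6) 0 = 1 from rfl, hA1 _ h2, tau_up] at h1
        simpa using h1)).hasDerivWithinAt)
      (fun _ _ => by simp) (Metric.mem_ball_self four_pos) (mem_ball_zero_iff.2 hz)
    rw [zero_mul, norm_le_zero_iff, sub_eq_zero, hP0, tr_one, mv_one] at this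
    exact this
  have st2 : IPf top tau A (fun z => f (sig (0, (tau z).2))) =
      IPf top sph Γ fun z => f (sph z) := by
    refine setIntegral_congr_fun measurableSet_Icc fun z hz => ?_
    have h1 := Pf_conj (tr (P (tau z))) (f (sph z)) fun i j => curv (pull sph Γ) z (ev i) (ev j)
    rw [dtm_tr, hdet, one_mul, tr_tr] at h1
    simp only [hC, ← curv_pull sm_sph hΓ]
    rw [← h1, ← hgf z (abs_lt_four (hz.1 0) (hz.2 0)), sph_eq]
  have hPar : ∀ z : V 6, |z 0| < 4 → ∀ X,
      cov (pull tau A) (fun z => f (sig (0, (tau z).2))) X z = 0 := by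
    intro z hz X
    have h1 := hpar z X
    rw [← cov_pull _ sm_tau hft, cov] at h1
    have h2 : (fun z => mv (tr (P (tau z))) (f (sig (tau z)))) =ᶠ[𝓝 z]
        fun z => f (sig (0, (tau z).2)) := by
      filter_upwards [(isOpen_lt (sm_co 0).continuous.abs continuous_const).mem_nhds hz] with y hy
      exact hgf y hy
    rw [h2.fderiv_eq, hgf z hz] at h1
    exact h1
  have hι : ∀ c : ℝ, ContDiff ℝ ∞ fun v : V 3 × V 4 => (c, v) :=
    fun c => contDiff_const.prodMk contDiff_id
  have dι : ∀ (c : ℝ) (v ξ : V 3 × V 4), fderiv ℝ (fun v : V 3 × V 4 => (c, v)) v ξ = (0, ξ) :=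
    fun c v ξ => by rw [(hasFDerivAt_prodMk_right c v).fderiv]; rfl
  set Ac := fun c : ℝ => pull (fun v : V 3 × V 4 => (c, v)) A with hAc
  have sAc : ∀ c, ContDiff ℝ ∞ (Ac c) := fun c => sm_pull (hι c) hA
  have aAc : ∀ c v ξ, Ac c v ξ = A (c, v) (0, ξ) := fun c v ξ => by
    rw [hAc]; simp only [pull_apply, dι]
  have hA' := sm_itp π⁻¹ (sAc 0) (sAc π)
  have hParc : ∀ c, |c| < 4 → ∀ z X, mv (Ac c (nu z) (fderiv ℝ nu z X)) (f (sig (0, nu z))) =
      -fderiv ℝ (fun z => f (sig (0, (tau z).2))) z X := by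
    intro c hc z X
    have h1 := hPar (up z c) (by rwa [up_zero]) X
    have h2 : ‖tau (up z c)‖ < 4 := norm_tau (by rwa [up_zero])
    have h3 : fderiv ℝ (fun z => f (sig (0, (tau z).2))) (up z c) =
        fderiv ℝ (fun z => f (sig (0, (tau z).2))) z :=
      fd_shift (fun x => by simp only [tau, nu_shift]) z
    have h4 : ((X 0, fderiv ℝ nu z X) : ℝ × (V 3 × V 4)) =
        X 0 • (1, 0) + (0, fderiv ℝ nu z X) := by simp
    rw [cov, pull_apply, d_tau, d_nu_up, h3, h4, map_add, map_smul, hA1 _ h2, smul_zero, zero_add,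
      tau_up] at h1
    rw [aAc]
    exact eq_neg_of_add_eq_zero_right h1
  have st3 : IPf top tau A (fun z => f (sig (0, (tau z).2))) =
      IPf top tau (itp π⁻¹ (Ac 0) (Ac π)) fun z => f (sig (0, (tau z).2)) := by
    refine hom sm_tau hA hA' hg top top_pos hAs (fun w X => ?_)
      (fun z hz j => hPar z (abs_lt_four (hz 0 trivial).1.le (hz 0 trivial).2.le) _)
      (fun z _ j => ?_) (faces_tau _ _ (fun w => f (sig (0, w.2))) ⟨Or.inr ?_, Or.inr ?_⟩)
    · simp only [itp_apply, aAc, map_add, map_smul, map_sub, hAs]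
      module
    · rw [cov, pull_apply, itp_apply, d_tau]
      simp only [map_add, map_smul, map_sub, _root_.add_apply, _root_.smul_apply, _root_.sub_apply]
      have e0 := hParc 0 (by simp) z (ev j)
      have e1 := hParc π (abs_lt_four pi_pos.le le_rfl) z (ev j)
      rw [show (tau z).2 = nu z from rfl, e0, e1]
      simp
    · intro z hz j hj
      rw [itp_apply, d_tau, aAc, tau, hz]
      simp [ev, hj.symm]
    · intro z hz j hj
      rw [itp_apply, d_tau, aAc, aAc, tau, hz]
      simp [ev, hj.symm, pi_ne_zero]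
  have st4 : IPf top tau (itp π⁻¹ (Ac 0) (Ac π)) (fun z => f (sig (0, (tau z).2))) = 0 := by
    rw [IPf, volume_pi, ← setIntegral_congr_set Measure.univ_pi_Ioo_ae_eq_Icc]
    refine setIntegral_eq_zero_of_forall_eq_zero fun z hz => ?_
    simp only [← curv_pull sm_tau hA']
    choose! α β hαβ using hF z hz
    let H : Fin 6 → V 6 := fun j => if j.val < 3 then ev j else ev j + α j • ev 1 + β j • ev 2
    refine Pf_shear _ _ (curv_anti _ _) H ?_ fun i j hi hj => ?_
    · rw [Matrix.det_of_isLowerTriangular]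
      · simp [H, Fin.prod_univ_six, ev]
      · intro i j hij
        fin_cases i <;> fin_cases j <;> first | exact absurd hij (by decide) | simp [H, ev]
    have hHi : H i = ev i := if_pos hi
    have hHj : H j = ev j + α j • ev 1 + β j • ev 2 := if_neg hj
    have hj0 : H j 0 = 0 := by
      have : (0 : Fin 6) ≠ j := fun e => hj (by rw [← e]; decide)
      simp [hHj, ev, this]
    have hβ : Ac π (nu z) (fderiv ℝ nu z (H j)) - Ac 0 (nu z) (fderiv ℝ nu z (H j)) = 0 := by
      rw [aAc, aAc, sub_eq_zero]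
      refine eq_of_d (φ := fun s => A (s, nu z) (0, fderiv ℝ nu z (H j)))
        ((sm_app hA _).continuous.comp (by fun_prop)) pi_pos.le fun r hr => ?_
      refine (hd_fst (sm_app hA _) (nu z) r).congr_deriv ?_
      have h2 : ‖tau (up z r)‖ < 4 :=
        norm_tau (by rw [up_zero]; exact abs_lt_four hr.1.le hr.2.le)
      have h1 := hC (up z r) (ev 0) (H j)
      rw [hHj, hαβ j hj r hr, ← hHj, mul_zero, zero_mul, d_tau, d_tau, d_nu_zero, d_nu_up, hj0,
        show ev (0 : Fin 6) 0 = 1 from rfl, curv_eq hA, hA1 _ h2] at h1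
      have h3 : (fun w => A w (1, 0)) =ᶠ[𝓝 (tau (up z r))] fun _ => 0 := by
        filter_upwards [(isOpen_lt continuous_norm continuous_const).mem_nhds h2] with y hy
        exact hA1 y hy
      rw [h3.fderiv_eq, tau_up] at h1
      simpa using h1
    have hc : ∀ c, sin c = 0 →
        curv (Ac c) (nu z) (fderiv ℝ nu z (H i)) (fderiv ℝ nu z (H j)) = 0 := by
      intro c hc
      by_cases h0 : i = 0
      · rw [hHi, h0, d_nu_zero]; simp
      have hi0 : H i 0 = 0 := by simp [hHi, ev, Ne.symm h0]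
      have h1 := hC (up z c) (H i) (H j)
      have h2 : fderiv ℝ sph (up z c) (H i) = 0 := by
        rw [hHi]
        have h12 : i = 1 ∨ i = 2 := by omega
        rcases h12 with rfl | rfl
        · exact sph_d0 _ (by rwa [up_zero])
        · exact sph_d0' _ (by rwa [up_zero])
      rw [curv_pull sm_sph hΓ, h2, d_tau, d_tau, d_nu_up, hi0, hj0, tau_up] at h1
      rw [hAc, curv_pull (hι c) hA, dι, dι, h1]
      simp
    rw [curv_pull sm_tau hA', curv_itp _ (sAc 0) (sAc π), d_tau, d_tau]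
    simp only [show (tau z).2 = nu z from rfl, hβ, hc 0 sin_zero, hc π sin_pi, hj0]
    simp
  have := IPf_std hf hu
  rw [st1, ← st2, st3, st4] at this
  linarith

end Pool.Agent.P.MP_467c2e_gt
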