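import Mathlib

/-!
Definitions for MP_467c2e_gt: the bundles `E_f = f^* T S^6` over `S^3 x S^3`, Riemannian metrics
near the zero section, their curvature in charts, and the degree integral of `f`.
-/

open Matrix Filter Topology Real
open scoped ContDiff

namespace Pool.Agent.P.MP_467c2e_gt

/-- Euclidean `n`-space; the inner product is the dot product. -/
abbrev V (n : ℕ) : Type := Fin n → ℝ

/-- The ambient space of `S^3 x S^3`. -/
abbrev Bs : Type := V 4 × V 4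

/-- The ambient space of the total space of `E_f`. -/
abbrev Am : Type := Bs × V 7

/-- Chart coordinates: six along the base and six along the fibre. -/
abbrev Ix : Type := Fin 6 ⊕ Fin 6

/-- A field of bilinear forms on the ambient space; only its values on tangent vectors of the
total space matter. -/
abbrev Met : Type := Am → Am →L[ℝ] Am →L[ℝ] ℝ

/-- The point `q` lies on `S^3 x S^3`. -/
def OnS (q : Bs) : Prop := q.1 ⬝ᵥ q.1 = 1 ∧ q.2 ⬝ᵥ q.2 = 1

/-- The vector `X` is tangent to `S^3 x S^3` at `q`. -/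
def Tan (q X : Bs) : Prop := q.1 ⬝ᵥ X.1 = 0 ∧ q.2 ⬝ᵥ X.2 = 0

/-- The total space of `E_f`: pairs `(q, v)` with `v` orthogonal to `f q`. -/
def Tot (f : Bs → V 7) : Set Am := {m | OnS m.1 ∧ f m.1 ⬝ᵥ m.2 = 0}

/-- A smooth parametrisation of the 12-dimensional total space, regular at `z`. -/
def IsChart (f : Bs → V 7) (φ : (Ix → ℝ) → Am) (z : Ix → ℝ) : Prop :=
  ContDiff ℝ ∞ φ ∧ (∀ᶠ w in 𝓝 z, φ w ∈ Tot f) ∧ Function.Injective (fderiv ℝ φ z)

/-- The derivative along the `i`-th coordinate. -/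
noncomputable def pd (h : (Ix → ℝ) → ℝ) (i : Ix) (z : Ix → ℝ) : ℝ :=
  fderiv ℝ h z (Pi.single i 1)

/-- The coefficients `g_ij` of the metric in the parametrisation `φ`. -/
noncomputable def gm (G : Met) (φ : (Ix → ℝ) → Am) (z : Ix → ℝ) : Matrix Ix Ix ℝ :=
  Matrix.of fun i j => G (φ z) (fderiv ℝ φ z (Pi.single i 1)) (fderiv ℝ φ z (Pi.single j 1))

/-- Christoffel symbols of the first kind, `g(D_i e_j, e_k)`. -/
noncomputable def chr (g : (Ix → ℝ) → Matrix Ix Ix ℝ) (i j k : Ix) (z : Ix → ℝ) : ℝ :=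
  (pd (fun w => g w j k) i z + pd (fun w => g w i k) j z - pd (fun w => g w i j) k z) / 2

/-- The curvature tensor `g(R(e_i, e_j) e_k, e_l)`, that is
`e_i g(D_j e_k, e_l) - g(D_j e_k, D_i e_l) - e_j g(D_i e_k, e_l) + g(D_i e_k, D_j e_l)`. -/
noncomputable def riem (g : (Ix → ℝ) → Matrix Ix Ix ℝ) (i j k l : Ix) (z : Ix → ℝ) : ℝ :=
  pd (chr g j k l) i z - pd (chr g i k l) j z +
    ∑ m, ∑ n, (g z)⁻¹ m n * (chr g i k m z * chr g j l n z - chr g j k m z * chr g i l n z)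

/-- `g(R(u, v) v, u)`, the numerator of the sectional curvature of the plane of `u` and `v`. -/
noncomputable def secNum (g : (Ix → ℝ) → Matrix Ix Ix ℝ) (z u v : Ix → ℝ) : ℝ :=
  ∑ i, ∑ j, ∑ k, ∑ l, u i * v j * v k * u l * riem g i j k l z

/-- The plane spanned by the tangent vectors `ξ, η` at `m` has sectional curvature zero. -/
def Flat (f : Bs → V 7) (G : Met) (m ξ η : Am) : Prop :=
  ∀ φ z u v, IsChart f φ z → φ z = m → fderiv ℝ φ z u = ξ → fderiv ℝ φ z v = η →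
    secNum (gm G φ) z u v = 0

/-- The local geometry along a soul.  `f` is a smooth map from `S^3 x S^3` to `S^6`; `G` is a
Riemannian metric along the zero section of `E_f`, whose normal spaces are the fibres with their
Euclidean metric; the zero section is totally geodesic (the symbols `Γ^α_ij` vanish in adapted
charts); sectional curvature is nonnegative at its points and zero on mixed planes. -/
structure SoulLike (f : Bs → V 7) (G : Met) : Prop where
  smooth_f : ContDiff ℝ ∞ f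
  unit : ∀ q, OnS q → f q ⬝ᵥ f q = 1
  smooth_G : ContDiff ℝ ∞ G
  symm : ∀ m ξ η, G m ξ η = G m η ξ
  pos : ∀ q X, OnS q → Tan q X → X ≠ 0 → 0 < G (q, 0) (X, 0) (X, 0)
  normal : ∀ q X v, OnS q → Tan q X → f q ⬝ᵥ v = 0 → G (q, 0) (X, 0) (0, v) = 0
  fibre : ∀ q v w, OnS q → f q ⬝ᵥ v = 0 → f q ⬝ᵥ w = 0 → G (q, 0) (0, v) (0, w) = v ⬝ᵥ w
  geod : ∀ φ z, IsChart f φ z → (∀ α, z (Sum.inr α) = 0) →
    (∀ᶠ w in 𝓝 z, (∀ α, w (Sum.inr α) = 0) → (φ w).2 = 0) →
    ∀ i j α, ∑ n, (gm G φ z)⁻¹ (Sum.inr α) n * chr (gm G φ) (Sum.inl i) (Sum.inl j) n z = 0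
  sec : ∀ φ z, IsChart f φ z → (φ z).2 = 0 → ∀ u v, 0 ≤ secNum (gm G φ) z u v
  mixed : ∀ q X v, OnS q → Tan q X → f q ⬝ᵥ v = 0 → Flat f G (q, 0) (X, 0) (0, v)

/-- The point of `S^3` at angle `r` from the pole on the meridian through `u`. -/
noncomputable def pt (r : ℝ) (u : V 3) : V 4 := Matrix.vecCons (cos r) (sin r • u)

/-- The unit tangent of the meridian. -/
noncomputable def dpt (r : ℝ) (u : V 3) : V 4 := Matrix.vecCons (-sin r) (cos r • u)

/-- Planes through the meridian direction of the first factor are flat along a complement of the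
first factor that does not depend on the height `r`. -/
def MerFlat (f : Bs → V 7) (G : Met) : Prop :=
  ∀ (u : V 3) (y Y : V 4), u ⬝ᵥ u = 1 → y ⬝ᵥ y = 1 → y ⬝ᵥ Y = 0 → ∃ w : V 3, u ⬝ᵥ w = 0 ∧
    ∀ r ∈ Set.Ioo 0 π, Flat f G ((pt r u, y), 0) ((dpt r u, 0), 0)
      ((Matrix.vecCons 0 (sin r • w), Y), 0)

/-- The metric of the zero section has the meridian field dual to `ψ(r) dr`, and the vectors
`(sin r • w, Y)` are dual to covectors of the second factor that do not depend on `r`. -/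
def MerForm (G : Met) : Prop :=
  (∃ ψ : ℝ → ℝ, ∀ r ∈ Set.Ioo 0 π, ∀ (u : V 3) (y : V 4) (X : Bs), u ⬝ᵥ u = 1 → y ⬝ᵥ y = 1 →
    Tan (pt r u, y) X → G ((pt r u, y), 0) ((dpt r u, 0), 0) (X, 0) = ψ r * (dpt r u ⬝ᵥ X.1)) ∧
  ∀ (u : V 3) (y Y : V 4), u ⬝ᵥ u = 1 → y ⬝ᵥ y = 1 → y ⬝ᵥ Y = 0 →
    ∃ (w : V 3) (b : V 4 → ℝ), u ⬝ᵥ w = 0 ∧ ∀ r ∈ Set.Ioo 0 π, ∀ X : Bs, Tan (pt r u, y) X →
      G ((pt r u, y), 0) ((Matrix.vecCons 0 (sin r • w), Y), 0) (X, 0) = b X.2

/-- The rotation field of the skew matrix `a` on the first sphere; it fixes both poles. -/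
def rot (a : Matrix (Fin 3) (Fin 3) ℝ) (x : V 4) : V 4 :=
  Matrix.vecCons 0 (a *ᵥ Matrix.vecTail x)

/-- The metric `g` of the zero section is a Cheeger deformation of a product `g0 = g1 + g2`:
`g (X + Σ g0(X, Z_i) Z_i, X') = g0 (X, X')` for fields `Z_i = (a_i x, b_i y)`, where the `a_i` are
rotations fixing the poles, the `b_i` are any tangent fields of the second sphere, `g2` is any
metric and the meridian field is dual to `ψ(r) dr` for `g1`. -/
def Cheeger (G : Met) : Prop :=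
  ∃ (k : ℕ) (a : Fin k → Matrix (Fin 3) (Fin 3) ℝ) (b : Fin k → V 4 → V 4)
    (g1 g2 : V 4 → V 4 →ₗ[ℝ] V 4 →ₗ[ℝ] ℝ) (ψ : ℝ → ℝ),
    (∀ i, (a i)ᵀ = -a i) ∧ (∀ i y, y ⬝ᵥ y = 1 → y ⬝ᵥ b i y = 0) ∧
    (∀ y Y Y', g2 y Y Y' = g2 y Y' Y) ∧
    (∀ y Y, y ⬝ᵥ y = 1 → y ⬝ᵥ Y = 0 → Y ≠ 0 → 0 < g2 y Y Y) ∧
    (∀ r ∈ Set.Ioo 0 π, ∀ (u : V 3) (X : V 4), u ⬝ᵥ u = 1 → pt r u ⬝ᵥ X = 0 →
      g1 (pt r u) (dpt r u) X = ψ r * (dpt r u ⬝ᵥ X)) ∧
    ∀ q X X' : Bs, OnS q → Tan q X → Tan q X' →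
      G (q, 0) (X + ∑ i, (g1 q.1 X.1 (rot (a i) q.1) + g2 q.2 X.2 (b i q.2)) •
        (rot (a i) q.1, b i q.2), 0) (X', 0) = g1 q.1 X.1 X'.1 + g2 q.2 X.2 X'.2

/-- Spherical coordinates on `S^2`. -/
noncomputable def s2 (a b : ℝ) : V 3 := ![cos a, sin a * cos b, sin a * sin b]

/-- Spherical coordinates on `S^3 x S^3`. -/
noncomputable def sph (z : V 6) : Bs := (pt (z 0) (s2 (z 1) (z 2)), pt (z 3) (s2 (z 4) (z 5)))

/-- The upper corner of the coordinate box. -/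
noncomputable def top : V 6 := ![π, π, 2 * π, π, π, 2 * π]

/-- The integral over `S^3 x S^3` of the pull-back by `f` of the volume form of `S^6`, in spherical
coordinates; it equals the degree of `f` times the volume of `S^6`, up to orientation. -/
noncomputable def degInt (f : Bs → V 7) : ℝ :=
  ∫ z in Set.Icc (0 : V 6) top, Matrix.det (Matrix.of (Matrix.vecCons (f (sph z))
    fun j : Fin 6 => fderiv ℝ (fun w => f (sph w)) z (Pi.single j 1)))

end Pool.Agent.P.MP_467c2e_gt
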