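import Pool.Agent.P.MP_467c2e_gt.Calc

/-! Curvature of endomorphism valued one-forms: pull-back, gauge, Bianchi, interpolation. -/

open Matrix Equiv
open scoped ContDiff

namespace Pool.Agent.P.MP_467c2e_gt

variable {E : Type} [NormedAddCommGroup E] [NormedSpace ℝ E]
variable {K : Type} [NormedAddCommGroup K] [NormedSpace ℝ K]

/-- The curvature `dB + B ∧ B`. -/
noncomputable def curv (B : E → E →L[ℝ] Mx) (x : E) : E →ₗ[ℝ] E →ₗ[ℝ] Mx :=
  LinearMap.mk₂ ℝ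
    (fun X Y => fderiv ℝ B x X Y - fderiv ℝ B x Y X + (B x X * B x Y - B x Y * B x X))
    (fun X X' Y => by simp only [map_add, _root_.add_apply, add_mul, mul_add]; abel)
    (fun c X Y => by
      simp only [map_smul, _root_.smul_apply, smul_mul_assoc, mul_smul_comm,
        smul_add, smul_sub])
    (fun X Y Y' => by simp only [map_add, _root_.add_apply, add_mul, mul_add]; abel)
    (fun c X Y => by
      simp only [map_smul, _root_.smul_apply, smul_mul_assoc, mul_smul_comm,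
        smul_add, smul_sub])

lemma curv_apply (B : E → E →L[ℝ] Mx) (x X Y : E) : curv B x X Y =
    fderiv ℝ B x X Y - fderiv ℝ B x Y X + (B x X * B x Y - B x Y * B x X) := rfl

lemma curv_anti (B : E → E →L[ℝ] Mx) (x X Y : E) : curv B x X Y = -curv B x Y X := by
  rw [curv_apply, curv_apply]; abel

lemma sm_app {F : Type} [NormedAddCommGroup F] [NormedSpace ℝ F] {B : E → K →L[ℝ] F}
    (hB : ContDiff ℝ ∞ B) (X : K) : ContDiff ℝ ∞ fun y => B y X := hB.clm_apply contDiff_const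

lemma curv_eq {B : E → E →L[ℝ] Mx} (hB : ContDiff ℝ ∞ B) (x X Y : E) : curv B x X Y =
    fderiv ℝ (fun y => B y Y) x X - fderiv ℝ (fun y => B y X) x Y +
      (B x X * B x Y - B x Y * B x X) := by
  rw [d_app (sm_diff hB x), d_app (sm_diff hB x), curv_apply]

lemma sm_curv {B : E → E →L[ℝ] Mx} (hB : ContDiff ℝ ∞ B) (X Y : E) :
    ContDiff ℝ ∞ fun x => curv B x X Y := by
  simp only [curv_apply]
  exact ((sm_app (sm_d hB X) Y).sub (sm_app (sm_d hB Y) X)).add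
    (((sm_app hB X).mul (sm_app hB Y)).sub ((sm_app hB Y).mul (sm_app hB X)))

lemma d_curv {B : E → E →L[ℝ] Mx} (hB : ContDiff ℝ ∞ B) (x X Y Z : E) :
    fderiv ℝ (fun y => curv B y Y Z) x X =
      fderiv ℝ (fderiv ℝ B) x X Y Z - fderiv ℝ (fderiv ℝ B) x X Z Y +
      ((fderiv ℝ B x X Y * B x Z + B x Y * fderiv ℝ B x X Z) -
        (fderiv ℝ B x X Z * B x Y + B x Z * fderiv ℝ B x X Y)) := by
  simp only [curv_apply]
  have h1 := fun U W => sm_diff (sm_app (sm_d hB U) W) x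
  have h2 := fun U W => sm_diff ((sm_app hB U).mul (sm_app hB W)) x
  rw [d_add ((h1 _ _).fun_sub (h1 _ _)) ((h2 _ _).fun_sub (h2 _ _)), d_sub (h1 _ _) (h1 _ _),
    d_sub (h2 _ _) (h2 _ _), d_mul (sm_app hB _) (sm_app hB _), d_mul (sm_app hB _) (sm_app hB _)]
  simp only [d_app (sm_diff hB x), d_app (sm_diff (sm_d hB _) x), d_app (sm_diff (sm_fd hB) x)]

/-- The covariant derivative of the curvature. -/
noncomputable def dcv (B : E → E →L[ℝ] Mx) (x X Y Z : E) : Mx :=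
  fderiv ℝ (fun y => curv B y Y Z) x X + (B x X * curv B x Y Z - curv B x Y Z * B x X)

lemma bianchi {B : E → E →L[ℝ] Mx} (hB : ContDiff ℝ ∞ B) (x X Y Z : E) :
    dcv B x X Y Z + dcv B x Y Z X + dcv B x Z X Y = 0 := by
  simp only [dcv, d_curv hB]
  simp only [curv_apply]
  rw [d_symm hB x Y X, d_symm hB x Z X, d_symm hB x Z Y]
  noncomm_ring

/-- Pull-back of a one-form. -/
noncomputable def pull (τ : K → E) (B : E → E →L[ℝ] Mx) (z : K) : K →L[ℝ] Mx :=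
  (B (τ z)).comp (fderiv ℝ τ z)

lemma pull_apply (τ : K → E) (B : E → E →L[ℝ] Mx) (z X : K) :
    pull τ B z X = B (τ z) (fderiv ℝ τ z X) := rfl

lemma sm_pull {τ : K → E} {B : E → E →L[ℝ] Mx} (hτ : ContDiff ℝ ∞ τ) (hB : ContDiff ℝ ∞ B) :
    ContDiff ℝ ∞ (pull τ B) := (hB.comp hτ).clm_comp (sm_fd hτ)

lemma curv_pull {τ : K → E} {B : E → E →L[ℝ] Mx} (hτ : ContDiff ℝ ∞ τ) (hB : ContDiff ℝ ∞ B)
    (z X Y : K) : curv (pull τ B) z X Y = curv B (τ z) (fderiv ℝ τ z X) (fderiv ℝ τ z Y) := by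
  rw [curv_eq (sm_pull hτ hB), curv_apply]
  simp only [pull_apply]
  have h := fun U W => d_capp (B := fun y => B (τ y)) (sm_diff (hB.comp hτ) z)
    (sm_diff (sm_d hτ U) z) W
  rw [h, h, d_comp (sm_diff hB _) (sm_diff hτ z), d_comp (sm_diff hB _) (sm_diff hτ z),
    d_symm' hτ z X Y]
  abel

/-- Gauge transform by an orthogonal field. -/
noncomputable def gauge (P : E → Mx) (B : E → E →L[ℝ] Mx) (x : E) : E →L[ℝ] Mx :=
  (ContinuousLinearMap.mul ℝ Mx (tr (P x))).comp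
    (((ContinuousLinearMap.mul ℝ Mx).flip (P x)).comp (B x) + fderiv ℝ P x)

lemma gauge_apply (P : E → Mx) (B : E → E →L[ℝ] Mx) (x X : E) :
    gauge P B x X = tr (P x) * (B x X * P x + fderiv ℝ P x X) := rfl

lemma sm_tr {P : E → Mx} (hP : ContDiff ℝ ∞ P) : ContDiff ℝ ∞ fun x => tr (P x) :=
  tr.contDiff.comp hP

lemma sm_gauge {P : E → Mx} {B : E → E →L[ℝ] Mx} (hP : ContDiff ℝ ∞ P) (hB : ContDiff ℝ ∞ B) :
    ContDiff ℝ ∞ (gauge P B) :=
  ((ContinuousLinearMap.mul ℝ Mx).contDiff.comp (sm_tr hP)).clm_comp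
    (((((ContinuousLinearMap.mul ℝ Mx).flip).contDiff.comp hP).clm_comp hB).add (sm_fd hP))

lemma d_orth {P : E → Mx} (hP : ContDiff ℝ ∞ P) (ho : ∀ x, tr (P x) * P x = 1) (x X : E) :
    tr (fderiv ℝ P x X) = -(tr (P x) * fderiv ℝ P x X * tr (P x)) := by
  have h := d_mul (sm_tr hP) hP x X
  simp only [ho] at h
  rw [d_clm tr (sm_diff hP x), fderiv_fun_const] at h
  have h2 : tr (fderiv ℝ P x X) * P x = -(tr (P x) * fderiv ℝ P x X) :=
    eq_neg_of_add_eq_zero_left h.symm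
  calc tr (fderiv ℝ P x X) = tr (fderiv ℝ P x X) * P x * tr (P x) := by
        rw [mul_assoc, mul_tr_of (ho x), mul_one]
    _ = _ := by rw [h2, neg_mul]

lemma gauge_skew {P : E → Mx} {B : E → E →L[ℝ] Mx} (hP : ContDiff ℝ ∞ P)
    (ho : ∀ x, tr (P x) * P x = 1) (x X : E) (hs : tr (B x X) = -B x X) :
    tr (gauge P B x X) = -gauge P B x X := by
  rw [gauge_apply, tr_mul, tr_tr, map_add, tr_mul, hs, d_orth hP ho, add_mul, neg_mul,
    mul_assoc _ (tr (P x)), ho x]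
  noncomm_ring

lemma curv_gauge {P : E → Mx} {B : E → E →L[ℝ] Mx} (hP : ContDiff ℝ ∞ P) (hB : ContDiff ℝ ∞ B)
    (ho : ∀ x, tr (P x) * P x = 1) (x X Y : E) :
    curv (gauge P B) x X Y = tr (P x) * curv B x X Y * P x := by
  rw [curv_eq (sm_gauge hP hB), curv_eq hB]
  simp only [gauge_apply]
  have h : ∀ U W, fderiv ℝ (fun y => tr (P y) * (B y U * P y + fderiv ℝ P y U)) x W =
      -(tr (P x) * fderiv ℝ P x W * tr (P x)) * (B x U * P x + fderiv ℝ P x U) +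
      tr (P x) * (fderiv ℝ (fun y => B y U) x W * P x + B x U * fderiv ℝ P x W +
        fderiv ℝ (fun y => fderiv ℝ P y U) x W) := by
    intro U W
    rw [d_mul (sm_tr hP) (((sm_app hB U).mul hP).add (sm_d hP U)), d_clm tr (sm_diff hP x),
      d_orth hP ho, d_add (sm_diff ((sm_app hB U).mul hP) x) (sm_diff (sm_d hP U) x),
      d_mul (sm_app hB U) hP]
  rw [h, h, d_symm' hP x X Y]
  have e : ∀ a b : Mx, a * P x * (tr (P x) * b) = a * b := fun a b => by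
    rw [mul_assoc, ← mul_assoc (P x), mul_tr_of (ho x), one_mul]
  simp only [mul_add, add_mul, ← mul_assoc, mul_sub, sub_mul, neg_mul]
  simp only [mul_assoc _ (tr (P x))]
  simp only [e]
  noncomm_ring

/-- Linear interpolation of two forms, as a form on the product with a line. -/
noncomputable def itp (c : ℝ) (B0 B1 : E → E →L[ℝ] Mx) (p : ℝ × E) : ℝ × E →L[ℝ] Mx :=
  (B0 p.2 + (c * p.1) • (B1 p.2 - B0 p.2)).comp (ContinuousLinearMap.snd ℝ ℝ E)

lemma itp_apply (c : ℝ) (B0 B1 : E → E →L[ℝ] Mx) (p ξ : ℝ × E) :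
    itp c B0 B1 p ξ = B0 p.2 ξ.2 + (c * p.1) • (B1 p.2 ξ.2 - B0 p.2 ξ.2) := rfl

lemma sm_itp (c : ℝ) {B0 B1 : E → E →L[ℝ] Mx} (h0 : ContDiff ℝ ∞ B0) (h1 : ContDiff ℝ ∞ B1) :
    ContDiff ℝ ∞ (itp c B0 B1) :=
  ((h0.comp contDiff_snd).add ((contDiff_const.mul contDiff_fst).smul
    ((h1.comp contDiff_snd).sub (h0.comp contDiff_snd)))).clm_comp contDiff_const

lemma curv_itp (c : ℝ) {B0 B1 : E → E →L[ℝ] Mx} (h0 : ContDiff ℝ ∞ B0) (h1 : ContDiff ℝ ∞ B1)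
    (p ξ η : ℝ × E) : curv (itp c B0 B1) p ξ η =
      (1 - c * p.1) • curv B0 p.2 ξ.2 η.2 + (c * p.1) • curv B1 p.2 ξ.2 η.2 -
      ((c * p.1) * (1 - c * p.1)) • ((B1 p.2 ξ.2 - B0 p.2 ξ.2) * (B1 p.2 η.2 - B0 p.2 η.2) -
        (B1 p.2 η.2 - B0 p.2 η.2) * (B1 p.2 ξ.2 - B0 p.2 ξ.2)) +
      (c * ξ.1) • (B1 p.2 η.2 - B0 p.2 η.2) - (c * η.1) • (B1 p.2 ξ.2 - B0 p.2 ξ.2) := by
  rw [curv_eq (sm_itp c h0 h1), curv_apply, curv_apply]
  simp only [itp_apply]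
  have s : ∀ {B : E → E →L[ℝ] Mx}, ContDiff ℝ ∞ B → ∀ U : E,
      ContDiff ℝ ∞ fun y : ℝ × E => B y.2 U := fun hB U => sm_app (hB.comp contDiff_snd) U
  have d : ∀ {B : E → E →L[ℝ] Mx}, ContDiff ℝ ∞ B → ∀ (U : E) (W : ℝ × E),
      fderiv ℝ (fun y : ℝ × E => B y.2 U) p W = fderiv ℝ B p.2 W.2 U := by
    intro B hB U W
    rw [d_app (B := fun y : ℝ × E => B y.2) (sm_diff (hB.comp contDiff_snd) p),
      d_comp (sm_diff hB _) differentiableAt_snd, fderiv_snd]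
    rfl
  have sc : ContDiff ℝ ∞ fun y : ℝ × E => c * y.1 := contDiff_const.mul contDiff_fst
  have dc : ∀ W : ℝ × E, fderiv ℝ (fun y : ℝ × E => c * y.1) p W = c * W.1 := fun W => by
    rw [fderiv_const_mul differentiableAt_fst, fderiv_fst]; rfl
  have h : ∀ (U : E) (W : ℝ × E),
      fderiv ℝ (fun y : ℝ × E => B0 y.2 U + (c * y.1) • (B1 y.2 U - B0 y.2 U)) p W =
      fderiv ℝ B0 p.2 W.2 U + ((c * W.1) • (B1 p.2 U - B0 p.2 U) +
        (c * p.1) • (fderiv ℝ B1 p.2 W.2 U - fderiv ℝ B0 p.2 W.2 U)) := by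
    intro U W
    rw [d_add (sm_diff (s h0 U) p) ((sm_diff sc p).fun_smul (sm_diff ((s h1 U).sub (s h0 U)) p)),
      d_smul (sm_diff sc p) (sm_diff ((s h1 U).sub (s h0 U)) p),
      d_sub (sm_diff (s h1 U) p) (sm_diff (s h0 U) p), d h0, d h1, dc]
  rw [h, h]
  simp only [mul_add, add_mul, mul_sub, sub_mul, smul_mul_assoc, mul_smul_comm]
  module

/-- Covariant derivative of a vector valued function. -/
noncomputable def cov (B : E → E →L[ℝ] Mx) (a : E → V 7) (X x : E) : V 7 :=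
  fderiv ℝ a x X + mv (B x X) (a x)

lemma sm_cov {B : E → E →L[ℝ] Mx} {a : E → V 7} (hB : ContDiff ℝ ∞ B) (ha : ContDiff ℝ ∞ a)
    (X : E) : ContDiff ℝ ∞ (cov B a X) := (sm_d ha X).add (sm_bil mv (sm_app hB X) ha)

lemma ricci {B : E → E →L[ℝ] Mx} {a b : E → V 7} (hB : ContDiff ℝ ∞ B) (ha : ContDiff ℝ ∞ a)
    (hb : ContDiff ℝ ∞ b) (x : E) (hs : ∀ X, tr (B x X) = -B x X) (X Y : E) :
    fderiv ℝ (fun y => b y ⬝ᵥ cov B a Y y) x X - fderiv ℝ (fun y => b y ⬝ᵥ cov B a X y) x Y =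
      b x ⬝ᵥ mv (curv B x X Y) (a x) + cov B b X x ⬝ᵥ cov B a Y x - cov B b Y x ⬝ᵥ cov B a X x := by
  have h : ∀ U W, fderiv ℝ (cov B a U) x W = fderiv ℝ (fun y => fderiv ℝ a y U) x W +
      (mv (fderiv ℝ B x W U) (a x) + mv (B x U) (fderiv ℝ a x W)) := by
    intro U W
    have := d_add (sm_diff (sm_d ha U) x) (sm_diff (sm_bil mv (sm_app hB U) ha) x) W
    rw [d_bil mv (sm_app hB U) ha, d_app (sm_diff hB x)] at this
    exact this
  have e : ∀ U v, mv (B x U) (b x) ⬝ᵥ v = -(b x ⬝ᵥ mv (B x U) v) := fun U v => by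
    rw [dot_mv, hs]; simp
  rw [d_dt hb (sm_cov hB ha Y), d_dt hb (sm_cov hB ha X), h, h, d_symm' ha x X Y, curv_apply]
  simp only [cov, add_dotProduct, dotProduct_add, dotProduct_sub, e, map_add,
    _root_.add_apply, _root_.sub_apply, map_sub, mv_mul]
  ring

lemma curv_skew {B : E → E →L[ℝ] Mx} (hB : ContDiff ℝ ∞ B) (hs : ∀ x X, tr (B x X) = -B x X)
    (x X Y : E) : tr (curv B x X Y) = -curv B x X Y := by
  have h : ∀ U W, tr (fderiv ℝ (fun y => B y U) x W) = -fderiv ℝ (fun y => B y U) x W := by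
    intro U W
    rw [← d_clm tr (sm_diff (sm_app hB U) x)]
    simp only [hs]
    rw [fderiv_fun_neg]; rfl
  rw [curv_eq hB]
  simp only [map_add, map_sub, tr_mul, h, hs]
  noncomm_ring

end Pool.Agent.P.MP_467c2e_gt
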