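import Pool.Agent.P.MP_467c2e_gt.Core

/-! Explicit derivatives of the spherical coordinates, and orthonormal frames. -/

open Matrix Set Real
open scoped ContDiff

namespace Pool.Agent.P.MP_467c2e_gt

/-- The derivative of `s2` in the direction `(y, w)`. -/
noncomputable def ds2 (b c y w : ℝ) : V 3 :=
  ![-sin b * y, cos b * y * cos c - sin b * sin c * w, cos b * y * sin c + sin b * cos c * w]

/-- The derivative of spherical coordinates on `S^3` in the direction `(x, y, w)`. -/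
noncomputable def dp3 (a b c x y w : ℝ) : V 4 :=
  x • dpt a (s2 b c) + Matrix.vecCons 0 (sin a • ds2 b c y w)

lemma hd_p3 (a b c x y w : ℝ) :
    HasDerivAt (fun t : ℝ => pt (a + t * x) (s2 (b + t * y) (c + t * w))) (dp3 a b c x y w) 0 := by
  have l : ∀ a x : ℝ, HasDerivAt (fun t : ℝ => a + t * x) x 0 := fun a x => by
    simpa using ((hasDerivAt_id (0 : ℝ)).mul_const x).const_add a
  refine hasDerivAt_pi.2 fun i => ?_
  fin_cases i
  · exact (l a x).cos.congr_deriv (by simp [dp3, dpt, mul_comm])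
  · exact ((l a x).sin.fun_mul (l b y).cos).congr_deriv (by simp [dp3, dpt, ds2, s2]; ring)
  · exact ((l a x).sin.fun_mul ((l b y).sin.fun_mul (l c w).cos)).congr_deriv
      (by simp [dp3, dpt, ds2, s2]; ring)
  · exact ((l a x).sin.fun_mul ((l b y).sin.fun_mul (l c w).sin)).congr_deriv
      (by simp [dp3, dpt, ds2, s2]; ring)

lemma d_sph_eq (z X : V 6) : fderiv ℝ sph z X =
    (dp3 (z 0) (z 1) (z 2) (X 0) (X 1) (X 2), dp3 (z 3) (z 4) (z 5) (X 3) (X 4) (X 5)) :=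
  d_eq (sm_diff sm_sph z) ((hd_p3 _ _ _ _ _ _).prodMk (hd_p3 _ _ _ _ _ _))

lemma dp3_sq (a b c x y w : ℝ) : dp3 a b c x y w ⬝ᵥ dp3 a b c x y w =
    x ^ 2 + sin a ^ 2 * (y ^ 2 + sin b ^ 2 * w ^ 2) := by
  simp only [dp3, dpt, ds2, s2, dotProduct, Fin.sum_univ_four, Pi.add_apply,
    smul_eq_mul, Matrix.cons_val, Matrix.smul_cons]
  have ha := sin_sq_add_cos_sq a
  have hb := sin_sq_add_cos_sq b
  have hc := sin_sq_add_cos_sq c
  linear_combination x ^ 2 * ha + (x ^ 2 * cos a ^ 2 + sin a ^ 2 * y ^ 2) * hb +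
    ((x * cos a * sin b + sin a * cos b * y) ^ 2 + sin a ^ 2 * sin b ^ 2 * w ^ 2) * hc

lemma dp3_inj {a b c x y w : ℝ} (ha : sin a ≠ 0) (hb : sin b ≠ 0) (h : dp3 a b c x y w = 0) :
    x = 0 ∧ y = 0 ∧ w = 0 := by
  have h1 := dp3_sq a b c x y w
  rw [h, zero_dotProduct] at h1
  have h2 : 0 < sin a ^ 2 := by positivity
  have h3 : 0 < sin b ^ 2 := by positivity
  have h4 : 0 ≤ y ^ 2 + sin b ^ 2 * w ^ 2 := by positivity
  have h5 : y ^ 2 + sin b ^ 2 * w ^ 2 = 0 := by nlinarith [sq_nonneg x]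
  have h6 : w ^ 2 = 0 := by nlinarith [sq_nonneg y, sq_nonneg w]
  refine ⟨?_, ?_, pow_eq_zero_iff two_ne_zero |>.1 h6⟩
  · rw [h5] at h1; exact pow_eq_zero_iff two_ne_zero |>.1 (by linarith)
  · rw [h6] at h5; exact pow_eq_zero_iff two_ne_zero |>.1 (by linarith)

lemma box_sin {z : V 6} (hz : z ∈ Box) :
    0 < sin (z 0) ∧ 0 < sin (z 1) ∧ 0 < sin (z 3) ∧ 0 < sin (z 4) :=
  ⟨sin_pos_of_mem_Ioo (hz 0 trivial), sin_pos_of_mem_Ioo (hz 1 trivial),
    sin_pos_of_mem_Ioo (hz 3 trivial), sin_pos_of_mem_Ioo (hz 4 trivial)⟩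

lemma sph_inj {z : V 6} (hz : z ∈ Box) {X : V 6} (h : fderiv ℝ sph z X = 0) : X = 0 := by
  obtain ⟨h0, h1, h3, h4⟩ := box_sin hz
  rw [d_sph_eq, Prod.mk_eq_zero] at h
  obtain ⟨a0, a1, a2⟩ := dp3_inj h0.ne' h1.ne' h.1
  obtain ⟨a3, a4, a5⟩ := dp3_inj h3.ne' h4.ne' h.2
  ext i
  fin_cases i <;> assumption

lemma ds2_onto {b : ℝ} (hb : sin b ≠ 0) (c : ℝ) {v : V 3} (hv : s2 b c ⬝ᵥ v = 0) :
    ∃ y w, ds2 b c y w = v := by
  refine ⟨-v 0 / sin b, (cos c * v 2 - sin c * v 1) / sin b, ?_⟩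
  simp only [s2, dotProduct, Fin.sum_univ_three, Matrix.cons_val] at hv
  have hc := sin_sq_add_cos_sq c
  ext i
  fin_cases i
  · simp [ds2]; field_simp
  · simp [ds2]; field_simp; linear_combination -cos c * hv + sin b * v 1 * hc
  · simp [ds2]; field_simp; linear_combination -sin c * hv + sin b * v 2 * hc

lemma up_mem {z : V 6} (hz : z ∈ Box) {r : ℝ} (hr : r ∈ Ioo 0 π) : up z r ∈ Box := fun i _ => by
  by_cases h : i = 0
  · subst h; rw [up_zero]; exact hr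
  · have : up z r i = z i := by simp [up, ev, h]
    rw [this]; exact hz i trivial

lemma up_ne (z : V 6) (r : ℝ) {i : Fin 6} (h : i ≠ 0) : up z r i = z i := by simp [up, ev, h]

lemma exists_frame {f : V 7} (hf : f ⬝ᵥ f = 1) : ∃ J : Fin 6 → V 7, (∀ a, f ⬝ᵥ J a = 0) ∧
    (∀ a b, J a ⬝ᵥ J b = if a = b then 1 else 0) ∧
    ∀ v w, v ⬝ᵥ w = (f ⬝ᵥ v) * (f ⬝ᵥ w) + ∑ a, (J a ⬝ᵥ v) * (J a ⬝ᵥ w) := by
  have h : ∃ S : M7, S * Sᵀ = 1 ∧ S 0 = f := by
    obtain ⟨b, hb⟩ := Orthonormal.exists_orthonormalBasis_extension_of_card_eq (𝕜 := ℝ)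
      (E := EuclideanSpace ℝ (Fin 7)) (ι := Fin 7) (by simp)
      (v := fun _ => WithLp.toLp 2 f) (s := {0}) (by
        rw [orthonormal_iff_ite]
        rintro ⟨i, rfl⟩ ⟨j, rfl⟩
        rw [if_pos rfl]
        exact (EuclideanSpace.inner_toLp_toLp f f).trans (by simpa using hf))
    refine ⟨Matrix.of fun i => (b i).ofLp, ?_, by
      have := hb 0 rfl
      exact congrArg WithLp.ofLp this⟩
    ext i j
    have := orthonormal_iff_ite.1 b.orthonormal i j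
    rw [Matrix.one_apply, ← this, EuclideanSpace.inner_eq_star_dotProduct]
    simp [Matrix.mul_apply, dotProduct, mul_comm]
  obtain ⟨S, h1, rfl⟩ := h
  have h2 : ∀ i j, S i ⬝ᵥ S j = if i = j then 1 else 0 := fun i j => by
    rw [← Matrix.one_apply, ← h1]; rfl
  refine ⟨fun a => S a.succ, fun a => by rw [h2, if_neg (Fin.succ_ne_zero a).symm],
    fun a b => by simp only [h2, Fin.succ_inj], fun v w => ?_⟩
  have h3 : (S *ᵥ v) ⬝ᵥ (S *ᵥ w) = v ⬝ᵥ w := by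
    rw [Matrix.dotProduct_mulVec, Matrix.vecMul_mulVec, mul_eq_one_comm.1 h1, Matrix.vecMul_one]
  rw [← h3, dotProduct, Fin.sum_univ_succ]
  rfl

end Pool.Agent.P.MP_467c2e_gt
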