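import Pool.Agent.P.MP_467c2e_gt.Form

/-! The Pfaffian form is closed; its integral is unchanged along a segment of connections. -/

open Matrix Equiv MeasureTheory Set
open scoped ContDiff

namespace Pool.Agent.P.MP_467c2e_gt

variable {E : Type} [NormedAddCommGroup E] [NormedSpace ℝ E]

lemma sum_cyc {n : ℕ} (c : Perm (Fin n)) (hc : sg c = 1) (T : Perm (Fin n) → ℝ)
    (h : ∀ σ, T σ + T (σ * c) + T (σ * c * c) = 0) : ∑ σ, sg σ * T σ = 0 := by
  have h1 : ∀ S : Perm (Fin n) → ℝ, ∑ σ, sg σ * S (σ * c) = ∑ σ, sg σ * S σ := fun S => by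
    rw [← Equiv.sum_comp (Equiv.mulRight c) fun σ => sg σ * S σ]
    exact Finset.sum_congr rfl fun σ _ => by simp [sg_mul, hc]
  have h2 := h1 T
  have h3 := h1 fun σ => T (σ * c)
  have h4 : ∑ σ, sg σ * T σ + ∑ σ, sg σ * T (σ * c) + ∑ σ, sg σ * T (σ * c * c) = 0 := by
    rw [← Finset.sum_add_distrib, ← Finset.sum_add_distrib]
    exact Finset.sum_eq_zero fun σ _ => by rw [← mul_add, ← mul_add, h, mul_zero]
  linarith

/-- One term of the Pfaffian on six of seven directions. -/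
noncomputable def trm (B : E → E →L[ℝ] Mx) (g : E → V 7) (e : Fin 7 → E) (σ : Perm (Fin 7))
    (y : E) : ℝ :=
  Pm (g y) (curv B y (e (σ 1)) (e (σ 2))) (curv B y (e (σ 3)) (e (σ 4)))
    (curv B y (e (σ 5)) (e (σ 6)))

lemma sm_trm {B : E → E →L[ℝ] Mx} {g : E → V 7} (hB : ContDiff ℝ ∞ B) (hg : ContDiff ℝ ∞ g)
    (e : Fin 7 → E) (σ : Perm (Fin 7)) : ContDiff ℝ ∞ (trm B g e σ) :=
  sm_Pm hg (sm_curv hB _ _) (sm_curv hB _ _) (sm_curv hB _ _)

lemma closed {B : E → E →L[ℝ] Mx} {g : E → V 7} (hB : ContDiff ℝ ∞ B) (hg : ContDiff ℝ ∞ g)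
    (e : Fin 7 → E) (x : E) (hs : ∀ X, tr (B x X) = -B x X) (hp : ∀ i, cov B g (e i) x = 0) :
    ∑ σ : Perm (Fin 7), sg σ * fderiv ℝ (trm B g e σ) x (e (σ 0)) = 0 := by
  have h : ∀ σ : Perm (Fin 7), fderiv ℝ (trm B g e σ) x (e (σ 0)) =
      Pm (g x) (dcv B x (e (σ 0)) (e (σ 1)) (e (σ 2))) (curv B x (e (σ 3)) (e (σ 4)))
        (curv B x (e (σ 5)) (e (σ 6))) +
      Pm (g x) (curv B x (e (σ 1)) (e (σ 2))) (dcv B x (e (σ 0)) (e (σ 3)) (e (σ 4)))
        (curv B x (e (σ 5)) (e (σ 6))) +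
      Pm (g x) (curv B x (e (σ 1)) (e (σ 2))) (curv B x (e (σ 3)) (e (σ 4)))
        (dcv B x (e (σ 0)) (e (σ 5)) (e (σ 6))) := by
    intro σ
    have h1 := d_Pm hg (sm_curv hB (e (σ 1)) (e (σ 2))) (sm_curv hB (e (σ 3)) (e (σ 4)))
      (sm_curv hB (e (σ 5)) (e (σ 6))) x (e (σ 0))
    have h2 := Pm_skew (hs (e (σ 0))) (g x) (curv B x (e (σ 1)) (e (σ 2)))
      (curv B x (e (σ 3)) (e (σ 4))) (curv B x (e (σ 5)) (e (σ 6)))
    have h3 := congrArg (fun v => Pm v (curv B x (e (σ 1)) (e (σ 2)))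
      (curv B x (e (σ 3)) (e (σ 4))) (curv B x (e (σ 5)) (e (σ 6)))) (hp (σ 0))
    simp only [cov, Pm_add0, Pm_zero0] at h3
    simp only [dcv, Pm_add1, Pm_add2, Pm_add3]
    unfold trm
    linarith
  simp only [h, mul_add, Finset.sum_add_distrib]
  rw [sum_cyc (swap 0 1 * swap 1 2) (by rw [sg_mul, sg_swap (by decide), sg_swap (by decide)]; simp),
    sum_cyc (swap 0 3 * swap 3 4) (by rw [sg_mul, sg_swap (by decide), sg_swap (by decide)]; simp),
    sum_cyc (swap 0 5 * swap 5 6) (by rw [sg_mul, sg_swap (by decide), sg_swap (by decide)]; simp)]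
  · simp
  · intro σ
    have := congrArg (Pm (g x) (curv B x (e (σ 1)) (e (σ 2))) (curv B x (e (σ 3)) (e (σ 4))))
      (bianchi hB x (e (σ 0)) (e (σ 5)) (e (σ 6)))
    rw [Pm_add3, Pm_add3, Pm_zero3] at this
    exact this
  · intro σ
    have := congrArg (fun a => Pm (g x) (curv B x (e (σ 1)) (e (σ 2))) a
      (curv B x (e (σ 5)) (e (σ 6)))) (bianchi hB x (e (σ 0)) (e (σ 3)) (e (σ 4)))
    simp only [Pm_add2, Pm_zero2] at this
    exact this
  · intro σ
    have := congrArg (fun a => Pm (g x) a (curv B x (e (σ 3)) (e (σ 4)))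
      (curv B x (e (σ 5)) (e (σ 6)))) (bianchi hB x (e (σ 0)) (e (σ 1)) (e (σ 2)))
    simp only [Pm_add1, Pm_zero1] at this
    exact this

/-- The coordinate vectors. -/
def ev {n : ℕ} (i : Fin n) : V n := Pi.single i 1

/-- The flux of the Pfaffian through the faces orthogonal to the direction `p`. -/
noncomputable def flx (B : V 7 → V 7 →L[ℝ] Mx) (g : V 7 → V 7) (p : Fin 7) (y : V 7) : ℝ :=
  ∑ σ ∈ Finset.univ.filter (fun σ : Perm (Fin 7) => σ 0 = p), sg σ * trm B g ev σ y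

lemma stokes {B : V 7 → V 7 →L[ℝ] Mx} {g : V 7 → V 7} (hB : ContDiff ℝ ∞ B) (hg : ContDiff ℝ ∞ g)
    (a b : V 7) (hab : a ≤ b) (hs : ∀ x X, tr (B x X) = -B x X)
    (hp : ∀ x ∈ Set.pi univ fun i => Ioo (a i) (b i), ∀ i, cov B g (ev i) x = 0) :
    ∑ p : Fin 7, ((∫ x in Icc (a ∘ p.succAbove) (b ∘ p.succAbove), flx B g p (p.insertNth (b p) x))
      - ∫ x in Icc (a ∘ p.succAbove) (b ∘ p.succAbove), flx B g p (p.insertNth (a p) x)) = 0 := by
  have hf : ∀ p, ContDiff ℝ ∞ (flx B g p) := fun p =>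
    ContDiff.sum fun σ _ => contDiff_const.mul (sm_trm hB hg ev σ)
  rw [← integral_divergence_of_hasFDerivAt_off_countable' a b hab (flx B g)
    (fun p => fderiv ℝ (flx B g p)) ∅ countable_empty (fun p => (hf p).continuous.continuousOn)
    (fun x _ p => (sm_diff (hf p) x).hasFDerivAt)
    ((continuous_finsetSum _ fun p _ => (sm_d (hf p) _).continuous).continuousOn.integrableOn_compact
      isCompact_Icc)]
  rw [volume_pi, ← setIntegral_congr_set Measure.univ_pi_Ioo_ae_eq_Icc]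
  refine setIntegral_eq_zero_of_forall_eq_zero fun x hx => ?_
  rw [← closed hB hg ev x (hs x) (hp x hx),
    ← Finset.sum_fiberwise Finset.univ (fun σ : Perm (Fin 7) => σ 0)]
  refine Finset.sum_congr rfl fun p _ => ?_
  unfold flx
  rw [fderiv_fun_sum fun σ _ => sm_diff (contDiff_const.mul (sm_trm hB hg ev σ)) x,
    _root_.sum_apply]
  refine Finset.sum_congr rfl fun σ hσ => ?_
  rw [fderiv_const_mul (sm_diff (sm_trm hB hg ev σ) x), (Finset.mem_filter.1 hσ).2]
  rfl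

lemma flx_zero (B : V 7 → V 7 →L[ℝ] Mx) (g : V 7 → V 7) (y : V 7) :
    flx B g 0 y = Pf (g y) fun i j => curv B y (ev i.succ) (ev j.succ) := by
  rw [flx, Finset.sum_filter, ← Equiv.sum_comp Perm.decomposeFin.symm, Fintype.sum_prod_type,
    Fin.sum_univ_succ]
  simp only [Perm.decomposeFin_symm_apply_zero, Fin.succ_ne_zero, if_false, Finset.sum_const_zero,
    add_zero, if_true]
  refine Finset.sum_congr rfl fun π _ => ?_
  have e : ∀ i : Fin 6, Perm.decomposeFin.symm ((0 : Fin 7), π) i.succ = (π i).succ := fun i => by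
    rw [Perm.decomposeFin_symm_apply_succ]; simp
  have s : sg (Perm.decomposeFin.symm ((0 : Fin 7), π)) = sg π := by
    rw [sg, Perm.decomposeFin.symm_sign]; simp [sg]
  rw [s]
  simp only [← e]
  rfl

lemma flx_deg (B : V 7 → V 7 →L[ℝ] Mx) (g : V 7 → V 7) (p k : Fin 7) (y : V 7) (hk : k ≠ p)
    (h : ∀ j, j ≠ p → curv B y (ev k) (ev j) = 0) : flx B g p y = 0 := by
  refine Finset.sum_eq_zero fun σ hσ => ?_
  have h0 := (Finset.mem_filter.1 hσ).2
  have hne : ∀ r, r ≠ 0 → σ r ≠ p := fun r hr e => hr (σ.injective (e.trans h0.symm))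
  obtain ⟨r, rfl⟩ := σ.surjective k
  have h' : ∀ j, j ≠ p → curv B y (ev j) (ev (σ r)) = 0 := fun j hj => by
    rw [curv_anti, h j hj, neg_zero]
  rw [trm]
  fin_cases r
  · exact absurd h0 hk
  · rw [show curv B y (ev (σ 1)) (ev (σ 2)) = 0 from h _ (hne 2 (by decide)), Pm_zero1, mul_zero]
  · rw [show curv B y (ev (σ 1)) (ev (σ 2)) = 0 from h' _ (hne 1 (by decide)), Pm_zero1, mul_zero]
  · rw [show curv B y (ev (σ 3)) (ev (σ 4)) = 0 from h _ (hne 4 (by decide)), Pm_zero2, mul_zero]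
  · rw [show curv B y (ev (σ 3)) (ev (σ 4)) = 0 from h' _ (hne 3 (by decide)), Pm_zero2, mul_zero]
  · rw [show curv B y (ev (σ 5)) (ev (σ 6)) = 0 from h _ (hne 6 (by decide)), Pm_zero3, mul_zero]
  · rw [show curv B y (ev (σ 5)) (ev (σ 6)) = 0 from h' _ (hne 5 (by decide)), Pm_zero3, mul_zero]

lemma flx_congr (B : V 7 → V 7 →L[ℝ] Mx) (g : V 7 → V 7) (p : Fin 7) (y y' : V 7)
    (hg : g y = g y') (h : ∀ U W, curv B y U W = curv B y' U W) : flx B g p y = flx B g p y' := by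
  simp only [flx, trm, hg, h]

/-- Splitting off the first coordinate. -/
noncomputable def lam : V 7 →L[ℝ] ℝ × V 6 :=
  (ContinuousLinearMap.proj 0).prod
    (ContinuousLinearMap.pi fun j : Fin 6 => ContinuousLinearMap.proj j.succ)

lemma lam_apply (y : V 7) : lam y = (y 0, fun j => y j.succ) := rfl
lemma lam_zero : lam (ev 0) = (1, 0) := by
  rw [lam_apply]; ext j <;> simp [ev]
lemma lam_succ (i : Fin 6) : lam (ev i.succ) = (0, ev i) := by
  rw [lam_apply]; ext j <;> simp [ev, Pi.single_apply]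

/-- The integral of the Pfaffian form over the coordinate box. -/
noncomputable def IPf (b : V 6) (τ : V 6 → E) (B : E → E →L[ℝ] Mx) (g : V 6 → V 7) : ℝ :=
  ∫ z in Icc (0 : V 6) b,
    Pf (g z) fun i j => curv B (τ z) (fderiv ℝ τ z (ev i)) (fderiv ℝ τ z (ev j))

/-- A face on which the flux vanishes. -/
def Dg (τ : V 6 → E) (B0 B1 : E → E →L[ℝ] Mx) (i : Fin 6) (c : ℝ) : Prop :=
  (∃ k, k ≠ i ∧ ∀ z, z i = c → fderiv ℝ τ z (ev k) = 0) ∨
  ∀ z, z i = c → ∀ j, j ≠ i → B0 (τ z) (fderiv ℝ τ z (ev j)) = B1 (τ z) (fderiv ℝ τ z (ev j))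

/-- Opposite faces that are glued. -/
def Per (τ : V 6 → E) (g : V 6 → V 7) (i : Fin 6) (c : ℝ) : Prop :=
  ∀ z z' : V 6, z i = c → z' i = 0 → (∀ j, j ≠ i → z j = z' j) →
    g z = g z' ∧ τ z = τ z' ∧ fderiv ℝ τ z = fderiv ℝ τ z'

theorem hom {τ : V 6 → E} {B0 B1 : E → E →L[ℝ] Mx} {g : V 6 → V 7} (hτ : ContDiff ℝ ∞ τ)
    (h0 : ContDiff ℝ ∞ B0) (h1 : ContDiff ℝ ∞ B1) (hg : ContDiff ℝ ∞ g) (b : V 6) (hb : 0 ≤ b)
    (s0 : ∀ x X, tr (B0 x X) = -B0 x X) (s1 : ∀ x X, tr (B1 x X) = -B1 x X)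
    (p0 : ∀ z ∈ Set.pi univ fun i => Ioo 0 (b i), ∀ j, cov (pull τ B0) g (ev j) z = 0)
    (p1 : ∀ z ∈ Set.pi univ fun i => Ioo 0 (b i), ∀ j, cov (pull τ B1) g (ev j) z = 0)
    (hf : ∀ i, (Dg τ B0 B1 i 0 ∧ Dg τ B0 B1 i (b i)) ∨ Per τ g i (b i)) :
    IPf b τ B0 g = IPf b τ B1 g := by
  have c0 := sm_pull hτ h0
  have c1 := sm_pull hτ h1
  have hI := sm_itp 1 c0 c1
  set B := pull lam (itp 1 (pull τ B0) (pull τ B1)) with hBd
  have hB : ContDiff ℝ ∞ B := sm_pull lam.contDiff hI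
  have hg2 : ContDiff ℝ ∞ fun p : ℝ × V 6 => g p.2 := hg.comp contDiff_snd
  have hG : ContDiff ℝ ∞ fun y => g (lam y).2 := hg2.comp lam.contDiff
  have hBa : ∀ y U, B y U = pull τ B0 (lam y).2 (lam U).2 +
      y 0 • (pull τ B1 (lam y).2 (lam U).2 - pull τ B0 (lam y).2 (lam U).2) := fun y U => by
    rw [hBd, pull_apply, lam.fderiv, itp_apply, one_mul]; rfl
  have hC : ∀ y U W, curv B y U W =
      curv (itp 1 (pull τ B0) (pull τ B1)) (lam y) (lam U) (lam W) := fun y U W => by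
    rw [hBd, curv_pull lam.contDiff hI, lam.fderiv]
  have st := stokes hB hG 0 (Matrix.vecCons 1 b)
    (fun i => Fin.cases (by simp) (fun i => by simpa using hb i) i)
    (fun y U => by
      rw [hBa]
      simp only [pull_apply, map_add, map_smul, map_sub, s0, s1]
      module)
    (fun y hy i => by
      have hz : (lam y).2 ∈ Set.pi univ fun i => Ioo 0 (b i) := fun j _ => by
        simpa [lam_apply] using hy j.succ trivial
      have hd : fderiv ℝ (fun y => g (lam y).2) y (ev i) = fderiv ℝ g (lam y).2 (lam (ev i)).2 := by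
        rw [d_comp (a := fun p : ℝ × V 6 => g p.2) (sm_diff hg2 _) lam.differentiableAt, lam.fderiv,
          d_comp (sm_diff hg _) differentiableAt_snd, fderiv_snd]
        rfl
      rw [cov, hd, hBa]
      refine Fin.cases ?_ (fun i => ?_) i
      · simp [lam_zero]
      · have q0 := p0 _ hz i
        have q1 := p1 _ hz i
        rw [cov] at q0 q1
        simp only [lam_succ, map_add, map_smul, map_sub, _root_.add_apply, _root_.smul_apply,
          _root_.sub_apply]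
        rw [eq_neg_of_add_eq_zero_right q0, eq_neg_of_add_eq_zero_right q1]
        simp)
  have hD : ∀ (i : Fin 6) (c : ℝ), Dg τ B0 B1 i c → ∀ y : V 7, y i.succ = c →
      flx B (fun y => g (lam y).2) i.succ y = 0 := by
    intro i c hD y hy
    rcases hD with ⟨k, hk, hD⟩ | hD
    · refine flx_deg _ _ _ k.succ y (fun e => hk (Fin.succ_injective _ e)) fun j _ => ?_
      have := hD (lam y).2 hy
      rw [hC, curv_itp 1 c0 c1, curv_pull hτ h0, curv_pull hτ h1, lam_succ]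
      simp [pull_apply, this]
    · refine flx_deg _ _ _ 0 y (Fin.succ_ne_zero i).symm fun j hj => ?_
      rw [hC, curv_itp 1 c0 c1, lam_zero]
      rcases Fin.eq_zero_or_eq_succ j with rfl | ⟨j, rfl⟩
      · simp [lam_zero]
      · have := hD (lam y).2 hy j fun e => hj (congrArg Fin.succ e)
        simp [lam_succ, pull_apply, this]
  rw [Fin.sum_univ_succ, Finset.sum_eq_zero, add_zero] at st
  · have e1 : ∀ (s : ℝ) (x : V 6), lam (Fin.insertNth (α := fun _ => ℝ) 0 s x) = (s, x) := by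
      intro s x
      rw [lam_apply]; simp
    simp only [flx_zero, hC, e1, lam_succ, curv_itp 1 c0 c1, curv_pull hτ h0, curv_pull hτ h1] at st
    have e2 : (Matrix.vecCons 1 b ∘ Fin.succAbove 0 : V 6) = b := by ext j; simp
    have e3 : ((0 : V 7) ∘ Fin.succAbove 0 : V 6) = 0 := rfl
    rw [e2, e3] at st
    simp only [Matrix.cons_val_zero, Pi.zero_apply, mul_one, sub_self, zero_smul, one_smul,
      zero_add, mul_zero, sub_zero, add_zero] at st
    rw [IPf, IPf]
    linarith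
  · intro i _
    rcases hf i with ⟨d0, d1⟩ | hP
    · have z0 : ∀ x, flx B (fun y => g (lam y).2) i.succ
          (Fin.insertNth i.succ ((0 : V 7) i.succ) x) = 0 := fun x => hD i _ d0 _ (by simp)
      have z1 : ∀ x, flx B (fun y => g (lam y).2) i.succ
          (Fin.insertNth i.succ (Matrix.vecCons 1 b i.succ) x) = 0 := fun x => hD i _ d1 _ (by simp)
      simp only [z0, z1, sub_self]
    · rw [sub_eq_zero]
      refine congrArg _ (funext fun x => ?_)
      have hj : ∀ j, j ≠ i.succ → Fin.insertNth (α := fun _ => ℝ) i.succ (b i) x j =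
          Fin.insertNth (α := fun _ => ℝ) i.succ 0 x j := fun j hj => by
        obtain ⟨l, rfl⟩ := Fin.exists_succAbove_eq hj
        simp
      obtain ⟨q1, q2, q3⟩ := hP (lam (Fin.insertNth (α := fun _ => ℝ) i.succ (b i) x)).2
        (lam (Fin.insertNth (α := fun _ => ℝ) i.succ 0 x)).2 (by simp [lam_apply])
        (by simp [lam_apply]) fun j hji => hj j.succ fun e => hji (Fin.succ_injective _ e)
      have q4 : (lam (Fin.insertNth (α := fun _ => ℝ) i.succ (b i) x)).1 =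
          (lam (Fin.insertNth (α := fun _ => ℝ) i.succ 0 x)).1 := hj 0 (Fin.succ_ne_zero i).symm
      refine flx_congr _ _ _ _ _ q1 fun U W => ?_
      simp only [hC, curv_itp 1 c0 c1, curv_pull hτ h0, curv_pull hτ h1, pull_apply,
        Matrix.cons_val_succ, Pi.zero_apply, q2, q3, q4]

end Pool.Agent.P.MP_467c2e_gt
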