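import Pool.Agent.P.MP_467c2e_gt.Cht

/-! The three forms of the meridian hypothesis, and the main theorem. -/

open Matrix Set Real Filter Topology
open scoped ContDiff

namespace Pool.Agent.P.MP_467c2e_gt

lemma open_box : IsOpen Box := isOpen_set_pi finite_univ fun _ _ => isOpen_Ioo

lemma line_box {z : V 6} (hz : z ∈ Box) (X : V 6) : ∀ᶠ t : ℝ in 𝓝 0, z + t • X ∈ Box := by
  have : ContinuousAt (fun t : ℝ => z + t • X) 0 := by fun_prop
  exact this.eventually (open_box.mem_nhds (by simpa using hz))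

/-- First kind symbols of a field of six by six matrices. -/
noncomputable def ct (A : V 6 → Matrix (Fin 6) (Fin 6) ℝ) (i j k : Fin 6) (z : V 6) : ℝ :=
  (fderiv ℝ (fun w => A w j k) z (ev i) + fderiv ℝ (fun w => A w i k) z (ev j) -
    fderiv ℝ (fun w => A w i j) z (ev k)) / 2

lemma form_calc {A : V 6 → Matrix (Fin 6) (Fin 6) ℝ} (hA : ∀ i j, ContDiff ℝ ∞ fun w => A w i j)
    (hs : ∀ w i j, A w i j = A w j i) {ψ : ℝ → ℝ}
    (h0 : ∀ w ∈ Box, ∀ i, A w 0 i = if i = 0 then ψ (w 0) else 0) {z H : V 6} (hz : z ∈ Box)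
    (hu : IsUnit (A z).det) (H0 : H 0 = 0) {c : V 6}
    (hc : ∀ t : ℝ, z + t • ev 0 ∈ Box → A (z + t • ev 0) *ᵥ H = c) :
    ∑ j, ∑ k, H j * H k * (fderiv ℝ (ct A j k 0) z (ev 0) - fderiv ℝ (ct A 0 k 0) z (ev j) +
      ∑ m, ∑ n, (A z)⁻¹ m n * (ct A 0 k m z * ct A j 0 n z - ct A j k m z * ct A 0 0 n z)) = 0 := by
  have sct : ∀ i j k, ContDiff ℝ ∞ (ct A i j k) := fun i j k =>
    (((sm_d (hA _ _) _).add (sm_d (hA _ _) _)).sub (sm_d (hA _ _) _)).div_const 2
  have p1 : ∀ w ∈ Box, ∀ i j, i ≠ 0 ∨ j ≠ 0 → fderiv ℝ (fun w => A w 0 i) w (ev j) = 0 := by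
    intro w hw i j hij
    refine d_eq (sm_diff (hA _ _) w) ((hasDerivAt_const (0 : ℝ) (A w 0 i)).congr_of_eventuallyEq ?_)
    filter_upwards [line_box hw (ev j)] with t ht
    rw [h0 _ ht, h0 _ hw]
    rcases hij with h | h
    · simp [h]
    · simp [ev, h.symm]
  have p2 : ∀ w ∈ Box, ∀ i j, i ≠ 0 ∨ j ≠ 0 → fderiv ℝ (fun w => A w i 0) w (ev j) = 0 := by
    simpa only [hs _ _ 0] using p1
  have p3 : ∀ t : ℝ, z + t • ev 0 ∈ Box → ∀ m,
      ∑ k, H k * fderiv ℝ (fun w => A w m k) (z + t • ev 0) (ev 0) = 0 := by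
    intro t ht m
    have h1 := HasDerivAt.fun_sum (u := Finset.univ) fun k _ =>
      (hd (sm_diff (hA m k) (z + t • ev 0)) (ev 0)).const_mul (H k)
    refine h1.unique ((hasDerivAt_const (0 : ℝ) (c m)).congr_of_eventuallyEq ?_)
    filter_upwards [line_box ht (ev 0)] with s hs'
    rw [add_assoc, ← add_smul] at hs' ⊢
    rw [← hc _ hs']
    simp [Matrix.mulVec, dotProduct, mul_comm]
  have p4 : ∀ w ∈ Box, ∀ j k, H j * H k * ct A j k 0 w =
      -(H j * (H k * fderiv ℝ (fun w => A w j k) w (ev 0))) / 2 := by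
    intro w hw j k
    by_cases hj : j = 0
    · simp [hj, H0]
    rw [ct, p2 w hw k j (Or.inr hj), p2 w hw j k (Or.inl hj)]
    ring
  have p5 : ∀ t : ℝ, z + t • ev 0 ∈ Box → ∑ j, ∑ k, H j * H k * ct A j k 0 (z + t • ev 0) = 0 := by
    intro t ht
    refine Finset.sum_eq_zero fun j _ => ?_
    simp only [p4 _ ht, ← Finset.sum_div, Finset.sum_neg_distrib, ← Finset.mul_sum, p3 t ht]
    simp
  have t1 : ∑ j, ∑ k, H j * H k * fderiv ℝ (ct A j k 0) z (ev 0) = 0 := by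
    have h1 := HasDerivAt.fun_sum (u := Finset.univ) fun j _ =>
      HasDerivAt.fun_sum (u := Finset.univ) fun k _ =>
        (hd (sm_diff (sct j k 0) z) (ev 0)).const_mul (H j * H k)
    refine h1.unique ((hasDerivAt_const (0 : ℝ) (0 : ℝ)).congr_of_eventuallyEq ?_)
    filter_upwards [line_box hz (ev 0)] with t ht
    exact p5 t ht
  have t2 : ∀ j k, H j * H k * fderiv ℝ (ct A 0 k 0) z (ev j) = 0 := by
    intro j k
    by_cases hk : k = 0
    · simp [hk, H0]
    refine mul_eq_zero_of_right _ (d_eq (sm_diff (sct _ _ _) z)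
      ((hasDerivAt_const (0 : ℝ) (0 : ℝ)).congr_of_eventuallyEq ?_))
    filter_upwards [line_box hz (ev j)] with t ht
    rw [ct, p2 _ ht k 0 (Or.inl hk), p1 _ ht 0 k (Or.inr hk), p1 _ ht k 0 (Or.inl hk)]
    simp
  have hz0 : z + (0 : ℝ) • ev 0 ∈ Box := by simpa using hz
  have t3 : ∀ m, ∑ k, H k * ct A 0 k m z = 0 := by
    intro m
    have h1 := p3 0 hz0 m
    simp only [zero_smul, add_zero] at h1
    have h2 : ∀ k, H k * ct A 0 k m z = H k * fderiv ℝ (fun w => A w m k) z (ev 0) / 2 := by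
      intro k
      by_cases hk : k = 0
      · simp [hk, H0]
      rw [ct, p1 z hz m k (Or.inr hk), p1 z hz k m (Or.inl hk)]
      simp only [hs _ k m]
      ring
    simp only [h2, ← Finset.sum_div, h1, zero_div]
  have t4 : ∀ m n, (A z)⁻¹ m n * ((∑ j, ∑ k, H j * H k * ct A j k m z) * ct A 0 0 n z) = 0 := by
    intro m n
    by_cases hm : m = 0
    · have := p5 0 hz0
      simp only [zero_smul, add_zero] at this
      rw [hm, this]; simp
    by_cases hn : n = 0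
    · have h1 := Matrix.nonsing_inv_mul _ hu
      have h2 : ∀ i, (A z)⁻¹ i 0 * ψ (z 0) = (1 : Matrix (Fin 6) (Fin 6) ℝ) i 0 := fun i => by
        rw [← h1, Matrix.mul_apply]
        simp [hs z _ 0, h0 z hz]
      have h3 : ψ (z 0) ≠ 0 := fun e => by simpa [e] using h2 0
      have h4 : (A z)⁻¹ m 0 = 0 := by simpa [hm, h3] using h2 m
      rw [hn, h4, zero_mul]
    · rw [ct, p1 z hz n 0 (Or.inl hn), p1 z hz 0 n (Or.inr hn)]; simp
  have t5 : ∑ j, ∑ k, H j * H k * ∑ m, ∑ n, (A z)⁻¹ m n *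
      (ct A 0 k m z * ct A j 0 n z - ct A j k m z * ct A 0 0 n z) =
      ∑ m, ∑ n, ((A z)⁻¹ m n * ((∑ k, H k * ct A 0 k m z) * ∑ j, H j * ct A j 0 n z) -
        (A z)⁻¹ m n * ((∑ j, ∑ k, H j * H k * ct A j k m z) * ct A 0 0 n z)) := by
    simp only [Finset.mul_sum, Finset.sum_mul, ← Finset.sum_sub_distrib]
    rw [Finset.sum_congr rfl fun j _ => Finset.sum_comm, Finset.sum_comm]
    refine Finset.sum_congr rfl fun m _ => ?_
    rw [Finset.sum_congr rfl fun j _ => Finset.sum_comm, Finset.sum_comm]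
    refine Finset.sum_congr rfl fun n _ => ?_
    exact Finset.sum_congr rfl fun _ _ => Finset.sum_congr rfl fun _ _ => by ring
  simp only [mul_add, mul_sub, Finset.sum_add_distrib, Finset.sum_sub_distrib, t1, t2] at t5 ⊢
  simp only [t3, t4] at t5
  simpa using t5

variable {f : Bs → V 7} {G : Met}

lemma dp3_r (a b c : ℝ) : dp3 a b c 1 0 0 = dpt a (s2 b c) := by
  ext i; fin_cases i <;> simp [dp3, ds2]
lemma dp3_zero (a b c : ℝ) : dp3 a b c 0 0 0 = 0 := by
  ext i; fin_cases i <;> simp [dp3, ds2]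
lemma dp3_ang (a b c y w : ℝ) : dp3 a b c 0 y w = Matrix.vecCons 0 (sin a • ds2 b c y w) := by
  simp [dp3]

lemma d_sph_0 (z : V 6) : fderiv ℝ sph z (ev 0) = (dpt (z 0) (s2 (z 1) (z 2)), 0) := by
  simp [d_sph_eq, ev, dp3_r, dp3_zero]

lemma d_sph_H (z : V 6) (r : ℝ) {j : Fin 6} (hj : ¬ j.val < 3) (α β : ℝ) :
    fderiv ℝ sph (up z r) (ev j + α • ev 1 + β • ev 2) =
      (Matrix.vecCons 0 (sin r • ds2 (z 1) (z 2) α β), (fderiv ℝ sph z (ev j)).2) := by
  have h0 : (0 : Fin 6) ≠ j := fun e => hj (by rw [← e]; decide)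
  have h1 : (1 : Fin 6) ≠ j := fun e => hj (by rw [← e]; decide)
  have h2 : (2 : Fin 6) ≠ j := fun e => hj (by rw [← e]; decide)
  simp [d_sph_eq, ev, h0, h1, h2, dp3_ang, up_zero, up_ne]

lemma sph_up (z : V 6) (r : ℝ) : sph (up z r) = (pt r (s2 (z 1) (z 2)), (sph z).2) := by
  rw [sph_eq, tau_up]; rfl

theorem of_flat (h : SoulLike f G) (hm : MerFlat f G) : degInt f = 0 := by
  refine core h.smooth_f (sm_con h.smooth_f h.smooth_G) h.unit (con_skew f G)
    (con_par G h.smooth_f h.unit) fun z hz j hj => ?_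
  obtain ⟨w, hw, hfl⟩ := hm (s2 (z 1) (z 2)) (sph z).2 (fderiv ℝ sph z (ev j)).2 (s2_unit _ _)
    (on_sph z).2 (tan_sph z _).2
  obtain ⟨α, β, rfl⟩ := ds2_onto (box_sin hz).2.1.ne' (z 2) hw
  refine ⟨α, β, fun r hr => curv_zero h (up_mem hz hr) _ _ fun J F => ?_⟩
  refine hfl r hr _ _ _ _ (is_chart h F) (by rw [cht_il, sph_up]) ?_ ?_
  · rw [d_cht_il J h.smooth_f, d_sph_0, up_zero, up_ne _ _ (by decide), up_ne _ _ (by decide)]
  · rw [d_cht_il J h.smooth_f, d_sph_H _ _ hj]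

lemma sm_gT (h : SoulLike f G) (i j : Fin 6) : ContDiff ℝ ∞ fun w => gT G w i j :=
  ((h.smooth_G.comp (sm_sph.prodMk contDiff_const)).clm_apply
    ((sm_d sm_sph _).prodMk contDiff_const)).clm_apply ((sm_d sm_sph _).prodMk contDiff_const)

lemma chr_ttt (h : SoulLike f G) (J : Fin 6 → V 7) (i j k : Fin 6) (z : V 6) :
    chr (gm G (cht f J)) (Sum.inl i) (Sum.inl j) (Sum.inl k) (il z) = ct (gT G) i j k z := by
  rw [chr, pd_inl (sm_gm J h _ _), pd_inl (sm_gm J h _ _), pd_inl (sm_gm J h _ _)]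
  simp only [gm_tt J h]
  rfl

lemma sec_tt (g : (Ix → ℝ) → Matrix Ix Ix ℝ) (w : Ix → ℝ) (H : V 6) :
    secNum g w (il (ev 0)) (il H) =
      ∑ j, ∑ k, H j * H k * riem g (Sum.inl 0) (Sum.inl j) (Sum.inl k) (Sum.inl 0) w := by
  rw [secNum, ← il_ev]
  simp only [Pi.single_apply, ite_mul, mul_ite, one_mul, zero_mul, mul_zero, mul_one,
    Finset.sum_ite_eq', Finset.mem_univ, if_true, Finset.sum_ite_irrel, Finset.sum_const_zero]
  simp only [Fintype.sum_sum_type, il_inl, il_inr, zero_mul, mul_zero, Finset.sum_const_zero,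
    add_zero]

lemma dpt_dp3 (a b c x y w : ℝ) : dpt a (s2 b c) ⬝ᵥ dp3 a b c x y w = x := by
  simp only [dp3, dpt, ds2, s2, dotProduct, Fin.sum_univ_four, Pi.add_apply, smul_eq_mul,
    Matrix.cons_val, Matrix.smul_cons]
  linear_combination x * sin_sq_add_cos_sq a + x * cos a ^ 2 * sin_sq_add_cos_sq b +
    cos a * sin b * (x * cos a * sin b + sin a * cos b * y) * sin_sq_add_cos_sq c

theorem of_form (h : SoulLike f G) (hm : MerForm G) : degInt f = 0 := by
  refine core h.smooth_f (sm_con h.smooth_f h.smooth_G) h.unit (con_skew f G)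
    (con_par G h.smooth_f h.unit) fun z hz j hj => ?_
  obtain ⟨⟨ψ, hψ⟩, hm⟩ := hm
  obtain ⟨w, b, hw, hb⟩ := hm (s2 (z 1) (z 2)) (sph z).2 (fderiv ℝ sph z (ev j)).2 (s2_unit _ _)
    (on_sph z).2 (tan_sph z _).2
  obtain ⟨α, β, rfl⟩ := ds2_onto (box_sin hz).2.1.ne' (z 2) hw
  refine ⟨α, β, fun r hr => curv_zero h (up_mem hz hr) _ _ fun J F => ?_⟩
  have h0 : (0 : Fin 6) ≠ j := fun e => hj (by rw [← e]; decide)
  rw [sec_tt, ← form_calc (sm_gT h) (fun w i j => h.symm _ _ _) (ψ := ψ) (fun w hw i => ?_) F.box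
    (gT_unit h F.box) (H := ev j + α • ev 1 + β • ev 2) (by simp [ev, h0])
    (c := fun i => b (fderiv ℝ sph z (ev i)).2) fun t ht => ?_]
  · refine Finset.sum_congr rfl fun j _ => Finset.sum_congr rfl fun k _ => congrArg _ ?_
    rw [riem, pd_inl (sm_chr (sm_gm J h) _ _ _), pd_inl (sm_chr (sm_gm J h) _ _ _)]
    simp only [chr_ttt h, gm_inv h F, Fintype.sum_sum_type, chr_ttn h F, mul_zero, zero_mul,
      sub_self, Finset.sum_const_zero, add_zero, Matrix.fromBlocks_apply₁₁]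
  · have := hψ (w 0) (hw 0 trivial) (s2 (w 1) (w 2)) (sph w).2 _ (s2_unit _ _) (on_sph w).2
      (tan_sph w (ev i))
    rw [gT, Matrix.of_apply, d_sph_0]
    refine this.trans ?_
    rw [d_sph_eq, dpt_dp3]
    simp [ev, Pi.single_apply, eq_comm]
  · have e : up z r + t • ev 0 = up z (r + t) := by
      rw [up, up, add_assoc, ← add_smul]; congr 2; ring
    rw [e] at ht ⊢
    have hr' : r + t ∈ Ioo 0 π := by
      have := ht 0 trivial
      rwa [up_zero] at this
    ext i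
    have h1 := tan_sph (up z (r + t)) (ev i)
    rw [sph_up] at h1
    rw [gT_mulVec, h.symm, d_sph_H _ _ hj, sph_up, hb _ hr' _ h1]
    simp [d_sph_eq, up_ne]

lemma skew_dot {a : Matrix (Fin 3) (Fin 3) ℝ} (ha : aᵀ = -a) (u : V 3) : u ⬝ᵥ a *ᵥ u = 0 := by
  have := Matrix.dotProduct_mulVec u a u
  rw [← Matrix.mulVec_transpose, ha, Matrix.neg_mulVec, neg_dotProduct, dotProduct_comm _ u] at this
  linarith

theorem form_of_cheeger (hc : Cheeger G) : MerForm G := by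
  obtain ⟨k, a, b, g1, g2, ψ, ha, hb, -, hp, h1, hG⟩ := hc
  have hrot : ∀ i r u, rot (a i) (pt r u) = Matrix.vecCons 0 (sin r • (a i *ᵥ u)) := fun i r u => by
    simp [rot, pt, Matrix.mulVec_smul]
  refine ⟨⟨ψ, fun r hr u y X hu hy hX => ?_⟩, fun u y Y hu hy hY => ?_⟩
  · have h2 : pt r u ⬝ᵥ dpt r u = 0 := by simp [pt, dpt, hu, mul_comm]
    have h3 : ∀ i, g1 (pt r u) (dpt r u) (rot (a i) (pt r u)) = 0 := fun i => by
      rw [h1 r hr u _ hu] <;> rw [hrot] <;> simp [pt, dpt, skew_dot (ha i)]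
    have := hG (pt r u, y) (dpt r u, 0) X ⟨pt_unit r hu, hy⟩ ⟨h2, by simp⟩ hX
    simp only [h3, map_zero, LinearMap.zero_apply, add_zero, zero_smul,
      Finset.sum_const_zero] at this
    rw [this, h1 r hr u _ hu hX.1]
  · let T : Submodule ℝ (V 4) := LinearMap.ker (dt 4 y).toLinearMap
    let L : V 4 →ₗ[ℝ] V 4 := LinearMap.id + ∑ i, ((g2 y).flip (b i y)).smulRight (b i y)
    have hL : ∀ Y, L Y = Y + ∑ i, g2 y Y (b i y) • b i y := fun Y => by
      simp [L, LinearMap.sum_apply]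
    have hT : ∀ Y ∈ T, L Y ∈ T := fun Y hY => by
      rw [hL]
      exact T.add_mem hY (T.sum_mem fun i _ => T.smul_mem _ (hb i y hy))
    have hinj : Function.Injective (L.restrict hT) := by
      refine (injective_iff_map_eq_zero _).2 fun Y hY => Subtype.ext ?_
      by_contra hne
      have h2 := hp y Y hy Y.2 hne
      have h3 : L Y = 0 := congrArg Subtype.val hY
      have h4 := congrArg (g2 y Y) h3
      rw [hL, map_add, map_sum, map_zero] at h4
      have h5 : 0 ≤ ∑ i, g2 y Y (g2 y Y (b i y) • b i y) :=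
        Finset.sum_nonneg fun i _ => by rw [map_smul]; exact mul_self_nonneg _
      linarith
    obtain ⟨Y0, hY0⟩ := LinearMap.surjective_of_injective hinj ⟨Y, hY⟩
    have h6 : L Y0 = Y := congrArg Subtype.val hY0
    refine ⟨∑ i, g2 y Y0 (b i y) • (a i *ᵥ u), fun Y' => g2 y Y0 Y', by
      simp [dotProduct_sum, skew_dot (ha _)], fun r hr X hX => ?_⟩
    have := hG (pt r u, y) (0, Y0) X ⟨pt_unit r hu, hy⟩ ⟨by simp, Y0.2⟩ hX
    simp only [map_zero, LinearMap.zero_apply, zero_add] at this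
    refine Eq.trans ?_ this
    congr 3
    refine Prod.ext ?_ ?_
    · simp only [Prod.fst_add, Prod.fst_sum, Prod.smul_fst, hrot, zero_add]
      ext i
      refine Fin.cases ?_ (fun i => ?_) i
      · simp [Finset.sum_apply]
      · simp [Finset.sum_apply, Finset.mul_sum, mul_left_comm]
    · simp only [Prod.snd_add, Prod.snd_sum, Prod.smul_snd]
      rw [← hL, h6]

theorem main (h : SoulLike f G) (hm : MerFlat f G ∨ MerForm G ∨ Cheeger G) : degInt f = 0 :=
  hm.elim (of_flat h) fun hm => of_form h (hm.elim id form_of_cheeger)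

end Pool.Agent.P.MP_467c2e_gt
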