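import Pool.Agent.P.MP_467c2e_gt.Hom

/-! Spherical coordinates: smoothness, faces of the box, and the standard connection. -/

open Matrix Set Real
open scoped ContDiff

namespace Pool.Agent.P.MP_467c2e_gt

variable {E : Type} [NormedAddCommGroup E] [NormedSpace ℝ E]
variable {F : Type} [NormedAddCommGroup F] [NormedSpace ℝ F]

lemma d_const {h : E → F} (hh : ContDiff ℝ ∞ h) {x X : E} (H : ∀ t : ℝ, h (x + t • X) = h x) :
    fderiv ℝ h x X = 0 :=
  d_eq (sm_diff hh x) (by simp only [H]; exact hasDerivAt_const _ _)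

lemma fd_shift {h : E → F} {c : E} (H : ∀ x, h (x + c) = h x) (x : E) :
    fderiv ℝ h (x + c) = fderiv ℝ h x := by
  rw [← fderiv_comp_add_right]; simp only [H]

lemma sm_pt {r : E → ℝ} {u : E → V 3} (hr : ContDiff ℝ ∞ r) (hu : ContDiff ℝ ∞ u) :
    ContDiff ℝ ∞ fun x => pt (r x) (u x) := by
  refine contDiff_pi.2 fun i => Fin.cases ?_ (fun i => ?_) i
  · exact hr.cos
  · exact hr.sin.mul (contDiff_pi.1 hu i)

lemma sm_s2 {a b : E → ℝ} (ha : ContDiff ℝ ∞ a) (hb : ContDiff ℝ ∞ b) :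
    ContDiff ℝ ∞ fun x => s2 (a x) (b x) := by
  refine contDiff_pi.2 fun i => ?_
  fin_cases i
  · exact ha.cos
  · exact ha.sin.mul hb.cos
  · exact ha.sin.mul hb.sin

lemma s2_unit (a b : ℝ) : s2 a b ⬝ᵥ s2 a b = 1 := by
  simp only [s2, dotProduct, Fin.sum_univ_three, Matrix.cons_val]
  linear_combination sin a ^ 2 * sin_sq_add_cos_sq b + sin_sq_add_cos_sq a

lemma pt_unit (r : ℝ) {u : V 3} (hu : u ⬝ᵥ u = 1) : pt r u ⬝ᵥ pt r u = 1 := by
  simp only [pt, Matrix.cons_dotProduct_cons, smul_dotProduct, dotProduct_smul, hu, smul_eq_mul]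
  linear_combination sin_sq_add_cos_sq r

/-- Polar coordinates on the first factor. -/
noncomputable def sig (w : ℝ × (V 3 × V 4)) : Bs := (pt w.1 w.2.1, w.2.2)

/-- The angular part of the coordinates. -/
noncomputable def nu (z : V 6) : V 3 × V 4 := (s2 (z 1) (z 2), pt (z 3) (s2 (z 4) (z 5)))

/-- Height and angular part. -/
noncomputable def tau (z : V 6) : ℝ × (V 3 × V 4) := (z 0, nu z)

lemma sph_eq (z : V 6) : sph z = sig (tau z) := rfl

lemma sm_co (i : Fin 6) : ContDiff ℝ ∞ fun z : V 6 => z i := contDiff_apply ℝ ℝ i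

lemma sm_sig : ContDiff ℝ ∞ sig :=
  (sm_pt contDiff_fst (contDiff_fst.comp contDiff_snd)).prodMk (contDiff_snd.comp contDiff_snd)
lemma sm_nu : ContDiff ℝ ∞ nu :=
  (sm_s2 (sm_co 1) (sm_co 2)).prodMk (sm_pt (sm_co 3) (sm_s2 (sm_co 4) (sm_co 5)))
lemma sm_tau : ContDiff ℝ ∞ tau := (sm_co 0).prodMk sm_nu
lemma sm_sph : ContDiff ℝ ∞ sph := sm_sig.comp sm_tau

lemma d_sph (z X : V 6) : fderiv ℝ sph z X = fderiv ℝ sig (tau z) (fderiv ℝ tau z X) :=
  d_comp (sm_diff sm_sig _) (sm_diff sm_tau z) X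

lemma d_tau (z X : V 6) : fderiv ℝ tau z X = (X 0, fderiv ℝ nu z X) := by
  refine d_eq (sm_diff sm_tau z) (HasDerivAt.prodMk ?_ (hd (sm_diff sm_nu z) X))
  simpa using ((hasDerivAt_id (0 : ℝ)).mul_const (X 0)).const_add (z 0)

lemma nu_shift (c : ℝ) (z : V 6) : nu (z + c • ev 0) = nu z := by simp [nu, ev]

lemma d_nu_zero (z : V 6) : fderiv ℝ nu z (ev 0) = 0 := d_const sm_nu fun t => nu_shift t z

lemma on_sph (z : V 6) : OnS (sph z) := ⟨pt_unit _ (s2_unit _ _), pt_unit _ (s2_unit _ _)⟩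

lemma dot_d {n : ℕ} {a : E → V n} (ha : ContDiff ℝ ∞ a) (h : ∀ x, a x ⬝ᵥ a x = 1) (x X : E) :
    a x ⬝ᵥ fderiv ℝ a x X = 0 := by
  have := d_dt ha ha x X
  simp only [h] at this
  rw [fderiv_fun_const, dotProduct_comm] at this
  simp only [Pi.zero_apply, _root_.zero_apply] at this
  linarith

lemma tan_of {Q : E → Bs} (hQ : ContDiff ℝ ∞ Q) (h : ∀ x, OnS (Q x)) (x X : E) :
    Tan (Q x) (fderiv ℝ Q x X) := by
  have h1 := dot_d (contDiff_fst.comp hQ) (fun x => (h x).1) x X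
  have h2 := dot_d (contDiff_snd.comp hQ) (fun x => (h x).2) x X
  have e1 := d_clm (ContinuousLinearMap.fst ℝ (V 4) (V 4)) (sm_diff hQ x) X
  have e2 := d_clm (ContinuousLinearMap.snd ℝ (V 4) (V 4)) (sm_diff hQ x) X
  exact ⟨by rw [← h1]; exact congrArg _ e1.symm, by rw [← h2]; exact congrArg _ e2.symm⟩

lemma per_of {τ : V 6 → E} (G : E → V 7) (i : Fin 6) (c : ℝ) (H : ∀ z, τ (z + c • ev i) = τ z) :
    Per τ (fun z => G (τ z)) i c := by
  intro z z' h1 h2 h3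
  have : z = z' + c • ev i := by
    ext j
    by_cases hj : j = i
    · subst hj; simp [ev, h1, h2]
    · simp [ev, h3 j hj, hj]
  subst this
  exact ⟨congrArg G (H _), H _, fd_shift H _⟩

lemma tau_per2 (z : V 6) : tau (z + top 2 • ev 2) = tau z := by simp [tau, nu, s2, ev, top]
lemma tau_per5 (z : V 6) : tau (z + top 5 • ev 5) = tau z := by simp [tau, nu, s2, ev, top]

lemma tau_d1 (z : V 6) (h : sin (z 1) = 0) : fderiv ℝ tau z (ev 2) = 0 :=
  d_const sm_tau fun t => by simp [tau, nu, s2, ev, h]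
lemma tau_d3 (z : V 6) (h : sin (z 3) = 0) : fderiv ℝ tau z (ev 4) = 0 :=
  d_const sm_tau fun t => by simp [tau, nu, pt, ev, h]
lemma tau_d4 (z : V 6) (h : sin (z 4) = 0) : fderiv ℝ tau z (ev 5) = 0 :=
  d_const sm_tau fun t => by simp [tau, nu, s2, ev, h]
lemma sph_d0 (z : V 6) (h : sin (z 0) = 0) : fderiv ℝ sph z (ev 1) = 0 :=
  d_const sm_sph fun t => by simp [sph, pt, ev, h]
lemma sph_d0' (z : V 6) (h : sin (z 0) = 0) : fderiv ℝ sph z (ev 2) = 0 :=
  d_const sm_sph fun t => by simp [sph, pt, ev, h]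

lemma top_pos : (0 : V 6) ≤ top := fun i => by
  fin_cases i <;> simp [top] <;> positivity

lemma faces_tau (B0 B1 : ℝ × (V 3 × V 4) → ℝ × (V 3 × V 4) →L[ℝ] Mx) (G : ℝ × (V 3 × V 4) → V 7)
    (h0 : Dg tau B0 B1 0 0 ∧ Dg tau B0 B1 0 π) (i : Fin 6) :
    (Dg tau B0 B1 i 0 ∧ Dg tau B0 B1 i (top i)) ∨ Per tau (fun z => G (tau z)) i (top i) := by
  fin_cases i
  · exact Or.inl h0
  · exact Or.inl ⟨Or.inl ⟨2, by decide, fun z h => tau_d1 z (by rw [show z 1 = 0 from h, sin_zero])⟩,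
      Or.inl ⟨2, by decide, fun z h => tau_d1 z (by rw [show z 1 = π from h, sin_pi])⟩⟩
  · exact Or.inr (per_of G _ _ tau_per2)
  · exact Or.inl ⟨Or.inl ⟨4, by decide, fun z h => tau_d3 z (by rw [show z 3 = 0 from h, sin_zero])⟩,
      Or.inl ⟨4, by decide, fun z h => tau_d3 z (by rw [show z 3 = π from h, sin_pi])⟩⟩
  · exact Or.inl ⟨Or.inl ⟨5, by decide, fun z h => tau_d4 z (by rw [show z 4 = 0 from h, sin_zero])⟩,
      Or.inl ⟨5, by decide, fun z h => tau_d4 z (by rw [show z 4 = π from h, sin_pi])⟩⟩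
  · exact Or.inr (per_of G _ _ tau_per5)

lemma faces_sph (B0 B1 : Bs → Bs →L[ℝ] Mx) (G : Bs → V 7) (i : Fin 6) :
    (Dg sph B0 B1 i 0 ∧ Dg sph B0 B1 i (top i)) ∨ Per sph (fun z => G (sph z)) i (top i) := by
  have k : ∀ z j, fderiv ℝ tau z (ev j) = 0 → fderiv ℝ sph z (ev j) = 0 := fun z j h => by
    rw [d_sph, h, map_zero]
  fin_cases i
  · exact Or.inl ⟨Or.inl ⟨1, by decide, fun z h => sph_d0 z (by rw [show z 0 = 0 from h, sin_zero])⟩,
      Or.inl ⟨1, by decide, fun z h => sph_d0 z (by rw [show z 0 = π from h, sin_pi])⟩⟩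
  · exact Or.inl ⟨Or.inl ⟨2, by decide, fun z h =>
        k _ _ (tau_d1 z (by rw [show z 1 = 0 from h, sin_zero]))⟩,
      Or.inl ⟨2, by decide, fun z h => k _ _ (tau_d1 z (by rw [show z 1 = π from h, sin_pi]))⟩⟩
  · exact Or.inr (per_of G 2 (top 2) fun z => by rw [sph_eq, sph_eq, tau_per2])
  · exact Or.inl ⟨Or.inl ⟨4, by decide, fun z h =>
        k _ _ (tau_d3 z (by rw [show z 3 = 0 from h, sin_zero]))⟩,
      Or.inl ⟨4, by decide, fun z h => k _ _ (tau_d3 z (by rw [show z 3 = π from h, sin_pi]))⟩⟩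
  · exact Or.inl ⟨Or.inl ⟨5, by decide, fun z h =>
        k _ _ (tau_d4 z (by rw [show z 4 = 0 from h, sin_zero]))⟩,
      Or.inl ⟨5, by decide, fun z h => k _ _ (tau_d4 z (by rw [show z 4 = π from h, sin_pi]))⟩⟩
  · exact Or.inr (per_of G 5 (top 5) fun z => by rw [sph_eq, sph_eq, tau_per5])

/-- The standard connection that makes `f` parallel. -/
noncomputable def std (f : E → V 7) (q : E) : E →L[ℝ] Mx :=
  (vv (f q) - vv.flip (f q)).comp (fderiv ℝ f q)

lemma std_apply (f : E → V 7) (q X : E) :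
    std f q X = vv (f q) (fderiv ℝ f q X) - vv (fderiv ℝ f q X) (f q) := rfl

lemma sm_std {f : E → V 7} (hf : ContDiff ℝ ∞ f) : ContDiff ℝ ∞ (std f) :=
  ((vv.contDiff.comp hf).sub (vv.flip.contDiff.comp hf)).clm_comp (sm_fd hf)

lemma std_skew (f : E → V 7) (q X : E) : tr (std f q X) = -std f q X := by
  rw [std_apply, map_sub, tr_vv, tr_vv, neg_sub]

lemma pull_std {τ : F → E} {f : E → V 7} (hτ : ContDiff ℝ ∞ τ) (hf : ContDiff ℝ ∞ f) :
    pull τ (std f) = std fun z => f (τ z) := by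
  ext1 z
  ext1 X
  rw [pull_apply, std_apply, std_apply, d_comp (sm_diff hf _) (sm_diff hτ z)]

lemma cov_std {f : E → V 7} (hf : ContDiff ℝ ∞ f) (h : ∀ x, f x ⬝ᵥ f x = 1) (x X : E) :
    cov (std f) f X x = 0 := by
  have := dot_d hf h x X
  rw [dotProduct_comm] at this
  simp [cov, std_apply, mv_vv, h, this]

lemma curv_std {f : E → V 7} (hf : ContDiff ℝ ∞ f) (h : ∀ x, f x ⬝ᵥ f x = 1) (x X Y : E) :
    curv (std f) x X Y = vv (fderiv ℝ f x X) (fderiv ℝ f x Y) -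
      vv (fderiv ℝ f x Y) (fderiv ℝ f x X) := by
  rw [curv_eq (sm_std hf)]
  simp only [std_apply]
  have d : ∀ U W, fderiv ℝ (fun y => vv (f y) (fderiv ℝ f y U) - vv (fderiv ℝ f y U) (f y)) x W =
      _ := fun U W => by
    rw [d_sub (sm_diff (sm_bil vv hf (sm_d hf U)) x) (sm_diff (sm_bil vv (sm_d hf U) hf) x),
      d_bil vv hf (sm_d hf U), d_bil vv (sm_d hf U) hf]
  rw [d, d, d_symm' hf x X Y]
  have h1 := dot_d hf h x
  have h2 : ∀ U, fderiv ℝ f x U ⬝ᵥ f x = 0 := fun U => by rw [dotProduct_comm, h1]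
  simp only [mul_sub, sub_mul, mul_vv, mv_vv, h1, h2, h, zero_smul, one_smul, map_zero, map_smul,
    _root_.smul_apply, _root_.zero_apply,
    dotProduct_comm (fderiv ℝ f x Y) (fderiv ℝ f x X)]
  abel

lemma IPf_std {f : Bs → V 7} (hf : ContDiff ℝ ∞ f) (h : ∀ q, OnS q → f q ⬝ᵥ f q = 1) :
    IPf top sph (std f) (fun z => f (sph z)) = 5760 * degInt f := by
  rw [IPf, degInt, ← MeasureTheory.integral_const_mul]
  refine congrArg _ (funext fun z => ?_)
  have hF : ContDiff ℝ ∞ fun z => f (sph z) := hf.comp sm_sph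
  simp only [← curv_pull sm_sph (sm_std hf), pull_std sm_sph hf,
    curv_std hF fun z => h _ (on_sph z)]
  exact Pf_std _ _

end Pool.Agent.P.MP_467c2e_gt
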