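import Pool.Agent.P.MP_467c2e_gt.Mer

/-! The hypotheses of the theorem in compact form. -/

open Matrix Filter Topology Real
open scoped ContDiff

namespace Pool.Agent.P.MP_467c2e_gt.St

section
variable {E F : Type} [NormedAddCommGroup E] [NormedSpace ℝ E]
  [NormedAddCommGroup F] [NormedSpace ℝ F]

/-- Infinitely differentiable maps. -/
def Sm (h : E → F) : Prop := ContDiff ℝ ∞ h

/-- The derivative of `h` at `z` in the direction `u`. -/
noncomputable def dv (h : E → F) (z u : E) : F := fderiv ℝ h z u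

/-- Fields of bilinear forms. -/
def Fld (E : Type) [NormedAddCommGroup E] [NormedSpace ℝ E] : Type := E → E →L[ℝ] E →L[ℝ] ℝ

/-- The value of a field of bilinear forms at `m` on the vectors `ξ, η`. -/
noncomputable def gv (G : Fld E) (m ξ η : E) : ℝ := (show E →L[ℝ] E →L[ℝ] ℝ from G m) ξ η

/-- Smooth fields of bilinear forms. -/
def SmFld (G : Fld E) : Prop := Sm (F := E →L[ℝ] E →L[ℝ] ℝ) G

end

/-- A point of the zero section, or a vector tangent to it. -/
def hz (q : Bs) : Am := (q, 0)

/-- A vector along the fibre. -/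
def vt (v : V 7) : Am := (0, v)

/-- The value of a metric on the ambient space of the total space. -/
noncomputable def gA (G : Fld Am) (m ξ η : Am) : ℝ := gv G m ξ η

/-- The differential of a parametrisation. -/
noncomputable def dA (φ : (Ix → ℝ) → Am) (z u : Ix → ℝ) : Am := dv φ z u

/-- A smooth parametrisation of the 12-dimensional total space, regular at `z`. -/
def IsChart (f : Bs → V 7) (φ : (Ix → ℝ) → Am) (z : Ix → ℝ) : Prop :=
  Sm φ ∧ (∀ᶠ w in 𝓝 z, φ w ∈ Tot f) ∧ Function.Injective (dA φ z)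

/-- The coefficients `g_ij` of the metric in the parametrisation `φ`. -/
noncomputable def gm (G : Fld Am) (φ : (Ix → ℝ) → Am) (z : Ix → ℝ) : Matrix Ix Ix ℝ :=
  Matrix.of fun i j => gA G (φ z) (dA φ z (Pi.single i 1)) (dA φ z (Pi.single j 1))

/-- The plane spanned by the tangent vectors `ξ, η` at `m` has sectional curvature zero. -/
def Flat (f : Bs → V 7) (G : Fld Am) (m ξ η : Am) : Prop :=
  ∀ φ z u v, IsChart f φ z → φ z = m → dA φ z u = ξ → dA φ z v = η → secNum (gm G φ) z u v = 0

/-- `G` is a smooth symmetric field; along the zero section it is positive definite on tangent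
vectors, and the fibres with their Euclidean metric are the normal spaces. -/
structure Normal (f : Bs → V 7) (G : Fld Am) : Prop where
  smooth : SmFld G
  symm : ∀ m ξ η, gA G m ξ η = gA G m η ξ
  pos : ∀ q X, OnS q → Tan q X → X ≠ 0 → 0 < gA G (hz q) (hz X) (hz X)
  normal : ∀ q X v, OnS q → Tan q X → f q ⬝ᵥ v = 0 → gA G (hz q) (hz X) (vt v) = 0
  fibre : ∀ q v w, OnS q → f q ⬝ᵥ v = 0 → f q ⬝ᵥ w = 0 → gA G (hz q) (vt v) (vt w) = v ⬝ᵥ w

/-- The zero section is totally geodesic: in charts that map the slice of vanishing fibre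
coordinates to it, the Christoffel symbols `Γ^α_ij` vanish. -/
def TotGeod (f : Bs → V 7) (G : Fld Am) : Prop :=
  ∀ φ z, IsChart f φ z → (∀ α, z (Sum.inr α) = 0) →
    (∀ᶠ w in 𝓝 z, (∀ α, w (Sum.inr α) = 0) → (φ w).2 = 0) →
    ∀ i j α, ∑ n, (gm G φ z)⁻¹ (Sum.inr α) n * chr (gm G φ) (Sum.inl i) (Sum.inl j) n z = 0

/-- The local geometry along a soul: `f` is a smooth map from `S^3 x S^3` to `S^6`, the zero
section of `E_f` is totally geodesic with the fibres as normal spaces, sectional curvature is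
nonnegative at its points and zero on planes spanned by a tangent and a normal vector. -/
structure SoulLike (f : Bs → V 7) (G : Fld Am) : Prop where
  smooth : Sm f
  unit : ∀ q, OnS q → f q ⬝ᵥ f q = 1
  metric : Normal f G
  geod : TotGeod f G
  sec : ∀ φ z, IsChart f φ z → (φ z).2 = 0 → ∀ u v, 0 ≤ secNum (gm G φ) z u v
  mixed : ∀ q X v, OnS q → Tan q X → f q ⬝ᵥ v = 0 → Flat f G (hz q) (hz X) (vt v)

/-- Planes through the meridian direction of the first factor are flat along a complement of the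
first factor that does not depend on the height `r`. -/
def MerFlat (f : Bs → V 7) (G : Fld Am) : Prop :=
  ∀ (u : V 3) (y Y : V 4), u ⬝ᵥ u = 1 → y ⬝ᵥ y = 1 → y ⬝ᵥ Y = 0 → ∃ w : V 3, u ⬝ᵥ w = 0 ∧
    ∀ r ∈ Set.Ioo 0 π, Flat f G (hz (pt r u, y)) (hz (dpt r u, 0))
      (hz (Matrix.vecCons 0 (sin r • w), Y))

theorem soul {f : Bs → V 7} {G : Fld Am} (h : SoulLike f G) :
    Pool.Agent.P.MP_467c2e_gt.SoulLike f G :=
  ⟨h.smooth, h.unit, h.metric.smooth, h.metric.symm, h.metric.pos, h.metric.normal, h.metric.fibre,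
    h.geod, h.sec, h.mixed⟩

end Pool.Agent.P.MP_467c2e_gt.St
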